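import Pool.Agent.Q194.GC.Defs
import Pool.Agent.W342.GP.Mehler

/-!
# Hermite coefficients and the Mehler expansion of the correlation
-/

namespace Q194.GC

open MeasureTheory ProbabilityTheory Filter Pool.Agent.W342.GP
open scoped Nat Topology

/-- the standard Gaussian law -/
noncomputable abbrev G : Measure ℝ := gaussianReal 0 1

/-- the standard normal density -/
noncomputable def ph (x : ℝ) : ℝ := gaussianPDFReal 0 1 x

lemma ph_eq (x : ℝ) : ph x = (√(2 * Real.pi))⁻¹ * Real.exp (-x ^ 2 / 2) := by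
  unfold ph gaussianPDFReal
  rw [NNReal.coe_one, mul_one, mul_one, sub_zero]

lemma ph_pos (x : ℝ) : 0 < ph x := gaussianPDFReal_pos 0 1 x one_ne_zero

lemma H_eq (n : ℕ) (x : ℝ) : H n x = (HP n).eval x / √(n ! : ℝ) := by
  unfold H HP
  rw [Polynomial.aeval_def, Polynomial.eval_map]
  rfl

lemma sqrt_fact_pos (n : ℕ) : 0 < √(n ! : ℝ) := Real.sqrt_pos.2 (by exact_mod_cast n.factorial_pos)

lemma sqrt_fact_sq (n : ℕ) : √(n ! : ℝ) * √(n ! : ℝ) = (n ! : ℝ) :=
  Real.mul_self_sqrt (by positivity)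

lemma H_mul (n : ℕ) (x y : ℝ) : H n x * H n y = (HP n).eval x * (HP n).eval y / (n ! : ℝ) := by
  rw [H_eq, H_eq, div_mul_div_comm, sqrt_fact_sq]

/-- the Mehler kernel -/
noncomputable def K (r u v : ℝ) : ℝ :=
  (√(1 - r ^ 2))⁻¹ * Real.exp ((2 * r * u * v - r ^ 2 * (u ^ 2 + v ^ 2)) / (2 * (1 - r ^ 2)))

lemma mehlerR {r : ℝ} (h0 : 0 ≤ r) (h1 : r < 1) (u v : ℝ) :
    HasSum (fun k : ℕ => r ^ k * (H k u * H k v)) (K r u v) := by
  have h := mehler0 r u v h0 h1
  rw [rhs r u v h0 h1, Complex.hasSum_ofReal] at h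
  refine h.congr_fun fun k => ?_
  rw [H_mul]
  ring

lemma H_cont (n : ℕ) : Continuous (H n) := by
  have : H n = fun x => (HP n).eval x / √(n ! : ℝ) := funext (H_eq n)
  rw [this]
  fun_prop

lemma H_int (n : ℕ) : Integrable (H n) G := by
  have : H n = fun x => (HP n).eval x / √(n ! : ℝ) := funext (H_eq n)
  rw [this]
  exact (poly_int (HP n) 1).div_const _

lemma Hsq_int (n : ℕ) : Integrable (fun x => H n x ^ 2) G := by
  have : (fun x => H n x ^ 2) = fun x => (HP n * HP n).eval x / (n ! : ℝ) := by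
    funext x
    rw [sq, H_mul, Polynomial.eval_mul]
  rw [this]
  exact (poly_int _ 1).div_const _

lemma int_HP_mul (n : ℕ) (q : Polynomial ℝ) :
    ∫ x, (HP (n + 1) * q).eval x ∂G = ∫ x, (HP n * q.derivative).eval x ∂G := by
  have e1 : HP (n + 1) * q = Polynomial.X * (HP n * q) - (HP n).derivative * q := by
    rw [HP_succ]; ring
  have e2 : (HP n * q).derivative = (HP n).derivative * q + HP n * q.derivative :=
    Polynomial.derivative_mul
  have h := stein (HP n * q)
  have h2 : ∫ x, (Polynomial.X * (HP n * q)).eval x ∂G =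
      ∫ x, ((HP n).derivative * q + HP n * q.derivative).eval x ∂G := by
    rw [← e2, ← h]
    refine integral_congr_ae (Eventually.of_forall fun x => ?_)
    simp
  rw [e1]
  simp only [Polynomial.eval_sub]
  rw [integral_sub (poly_int _ 1) (poly_int _ 1), h2]
  simp only [Polynomial.eval_add]
  rw [integral_add (poly_int _ 1) (poly_int _ 1)]
  ring

lemma int_HP_sq (n : ℕ) : ∫ x, (HP n * HP n).eval x ∂G = (n ! : ℝ) := by
  induction n with
  | zero => simp [HP_zero]
  | succ n ih =>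
    rw [int_HP_mul, HP_deriv]
    have : ∀ x, (HP n * (Polynomial.C ((n : ℝ) + 1) * HP n)).eval x =
        ((n : ℝ) + 1) * (HP n * HP n).eval x := by
      intro x
      simp
      ring
    simp only [this]
    rw [integral_const_mul, ih, Nat.factorial_succ]
    push_cast
    ring

lemma int_H_sq (n : ℕ) : ∫ x, H n x ^ 2 ∂G = 1 := by
  have : (fun x => H n x ^ 2) = fun x => (HP n * HP n).eval x / (n ! : ℝ) := by
    funext x
    rw [sq, H_mul, Polynomial.eval_mul]
  rw [this, integral_div, int_HP_sq, div_self (by positivity)]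

lemma int_abs_H (n : ℕ) : ∫ x, |H n x| ∂G ≤ 1 := by
  have h : ∫ x, |H n x| ∂G ≤ ∫ x, (1 + H n x ^ 2) / 2 ∂G := by
    refine integral_mono (H_int n).abs (((integrable_const 1).add (Hsq_int n)).div_const 2) ?_
    intro x
    have := sq_nonneg (|H n x| - 1)
    have h2 : |H n x| ^ 2 = H n x ^ 2 := sq_abs _
    simp only [Pi.add_apply]
    nlinarith
  refine h.trans (le_of_eq ?_)
  rw [integral_div, integral_add (integrable_const 1) (Hsq_int n), int_H_sq]
  simp

/-- the Hermite coefficient -/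
noncomputable def hc (b : ℝ → ℝ) (n : ℕ) : ℝ := ∫ x, b x * H n x ∂G

section

variable {b : ℝ → ℝ} (hb : Measurable b) (hb1 : ∀ x, |b x| ≤ 1)

include hb hb1

lemma bH_int (n : ℕ) : Integrable (fun x => b x * H n x) G :=
  (H_int n).bdd_mul hb.aestronglyMeasurable (Eventually.of_forall fun x => hb1 x)

lemma abs_hc_le (n : ℕ) : |hc b n| ≤ 1 := by
  refine (abs_integral_le_integral_abs).trans ((integral_mono (bH_int hb hb1 n).abs
    (H_int n).abs fun x => ?_).trans (int_abs_H n))
  simp only [Pi.abs_apply]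
  rw [abs_mul]
  exact mul_le_of_le_one_left (abs_nonneg _) (hb1 x)

lemma int_abs_bH (n : ℕ) : ∫ x, |b x * H n x| ∂G ≤ 1 :=
  (integral_mono (bH_int hb hb1 n).abs (H_int n).abs fun x => by
    simp only [Pi.abs_apply]
    rw [abs_mul]
    exact mul_le_of_le_one_left (abs_nonneg _) (hb1 x)).trans (int_abs_H n)

lemma inner_eq {ρ : ℝ} (h0 : 0 < ρ) (h1 : ρ < 1) (x : ℝ) :
    ∫ z, b (ρ * x + √(1 - ρ ^ 2) * z) ∂G = ∫ y, b y * K ρ x y ∂G := by
  have hr2 : 0 < 1 - ρ ^ 2 := by nlinarith
  set σ := √(1 - ρ ^ 2) with hσ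
  have hσ0 : 0 < σ := Real.sqrt_pos.2 hr2
  have hσ2 : σ ^ 2 = 1 - ρ ^ 2 := Real.sq_sqrt hr2.le
  have hmap : G.map (fun z => ρ * x + σ * z) =
      gaussianReal (ρ * x) (NNReal.mk (σ ^ 2) (sq_nonneg _)) := by
    have e1 : (fun z => ρ * x + σ * z) = (fun z => ρ * x + z) ∘ fun z => σ * z := rfl
    rw [e1, ← Measure.map_map (by fun_prop) (by fun_prop), gaussianReal_map_const_mul,
      gaussianReal_map_const_add]
    congr 1
    · simp
    · simp only [mul_one]
  have hm : Measurable (fun z : ℝ => ρ * x + σ * z) := by fun_prop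
  rw [← integral_map (f := b) hm.aemeasurable hb.aestronglyMeasurable, hmap,
    integral_gaussianReal_eq_integral_smul one_ne_zero,
    integral_gaussianReal_eq_integral_smul (by
      intro h
      have h5 := congrArg NNReal.toReal h
      rw [NNReal.coe_mk, NNReal.coe_zero] at h5
      exact (pow_pos hσ0 2).ne' h5)]
  refine integral_congr_ae (Eventually.of_forall fun y => ?_)
  simp only [smul_eq_mul]
  have e : gaussianPDFReal (ρ * x) (NNReal.mk (σ ^ 2) (sq_nonneg _)) y = gaussianPDFReal 0 1 y * K ρ x y := by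
    unfold gaussianPDFReal K
    rw [← hσ]
    simp only [NNReal.coe_mk, NNReal.coe_one, mul_one, sub_zero]
    rw [Real.sqrt_mul (by positivity), Real.sqrt_sq hσ0.le, mul_inv]
    have e2 : Real.exp (-(y - ρ * x) ^ 2 / (2 * σ ^ 2)) = Real.exp (-y ^ 2 / 2) *
        Real.exp ((2 * ρ * x * y - ρ ^ 2 * (x ^ 2 + y ^ 2)) / (2 * (1 - ρ ^ 2))) := by
      rw [← Real.exp_add, hσ2]
      congr 1
      field_simp
      ring
    rw [e2]
    ring
  rw [e]
  ring

lemma inner_hasSum {ρ : ℝ} (h0 : 0 < ρ) (h1 : ρ < 1) (x : ℝ) :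
    HasSum (fun k : ℕ => ρ ^ k * (H k x * hc b k)) (∫ y, b y * K ρ x y ∂G) := by
  have hsum : Summable fun k : ℕ => ∫ y, ‖ρ ^ k * H k x * (b y * H k y)‖ ∂G := by
    have hs : Summable fun k : ℕ => ρ ^ k * (1 + H k x ^ 2) := by
      have h2 := (mehlerR h0.le h1 x x).summable
      have h3 := (summable_geometric_of_lt_one h0.le h1).add h2
      refine h3.congr fun k => ?_
      ring
    refine Summable.of_nonneg_of_le (fun k => integral_nonneg fun y => norm_nonneg _)
      (fun k => ?_) hs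
    simp only [norm_mul, Real.norm_eq_abs]
    rw [integral_const_mul]
    have h4 := int_abs_bH hb hb1 k
    simp only [abs_mul] at h4
    have h5 : |H k x| ≤ 1 + H k x ^ 2 := by
      have := sq_nonneg (|H k x| - 1)
      have h2 : |H k x| ^ 2 = H k x ^ 2 := sq_abs _
      nlinarith [abs_nonneg (H k x)]
    rw [abs_of_nonneg (by positivity : 0 ≤ ρ ^ k)]
    have h6 : 0 ≤ ρ ^ k * |H k x| := by positivity
    calc ρ ^ k * |H k x| * ∫ y, |b y| * |H k y| ∂G ≤ ρ ^ k * |H k x| * 1 := by gcongr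
      _ ≤ ρ ^ k * (1 + H k x ^ 2) := by rw [mul_one]; gcongr
  have h := hasSum_integral_of_summable_integral_norm (μ := G)
    (F := fun (k : ℕ) (y : ℝ) => ρ ^ k * H k x * (b y * H k y))
    (fun k => (bH_int hb hb1 k).const_mul _) hsum
  simp only [integral_const_mul] at h
  have e : ∀ y, ∑' k : ℕ, ρ ^ k * H k x * (b y * H k y) = b y * K ρ x y := by
    intro y
    rw [← (mehlerR h0.le h1 x y).tsum_eq, ← tsum_mul_left]
    refine tsum_congr fun k => ?_
    ring
  simp only [e] at h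
  refine h.congr_fun fun k => ?_
  unfold hc
  ring

/-- the Mehler expansion of the correlation function -/
theorem corr_hasSum {ρ : ℝ} (h0 : 0 < ρ) (h1 : ρ < 1) :
    HasSum (fun k : ℕ => ρ ^ k * hc b k ^ 2) (corr b ρ) := by
  have hsum : Summable fun k : ℕ => ∫ x, ‖ρ ^ k * hc b k * (b x * H k x)‖ ∂G := by
    refine Summable.of_nonneg_of_le (fun k => integral_nonneg fun y => norm_nonneg _)
      (fun k => ?_) (summable_geometric_of_lt_one h0.le h1)
    simp only [norm_mul, Real.norm_eq_abs]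
    rw [integral_const_mul]
    have h4 := int_abs_bH hb hb1 k
    simp only [abs_mul] at h4
    have h5 := abs_hc_le hb hb1 k
    rw [abs_of_nonneg (by positivity : 0 ≤ ρ ^ k)]
    calc ρ ^ k * |hc b k| * ∫ y, |b y| * |H k y| ∂G ≤ ρ ^ k * 1 * 1 := by gcongr
      _ = ρ ^ k := by ring
  have h := hasSum_integral_of_summable_integral_norm (μ := G)
    (F := fun (k : ℕ) (x : ℝ) => ρ ^ k * hc b k * (b x * H k x))
    (fun k => (bH_int hb hb1 k).const_mul _) hsum
  simp only [integral_const_mul] at h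
  have e : ∀ x, ∑' k : ℕ, ρ ^ k * hc b k * (b x * H k x) =
      ∫ z, b x * b (ρ * x + √(1 - ρ ^ 2) * z) ∂G := by
    intro x
    rw [integral_const_mul, inner_eq hb hb1 h0 h1 x, ← (inner_hasSum hb hb1 h0 h1 x).tsum_eq,
      ← tsum_mul_left]
    refine tsum_congr fun k => ?_
    ring
  simp only [e] at h
  refine h.congr_fun fun k => ?_
  unfold hc
  ring

end

end Q194.GC
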