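import Pool.Agent.Q194.GC.A

/-!
# The series of the threshold functions
-/

namespace Q194.GC

open MeasureTheory ProbabilityTheory Filter Pool.Agent.W342.GP Set
open scoped Nat Topology

/-- the basic series -/
noncomputable def Ser (t ρ : ℝ) : ℝ := ∑' n : ℕ, 1 / ((n : ℝ) + 1) * H n t ^ 2 * ρ ^ (n + 1)

lemma psi_eq (p a ρ : ℝ) : psi p a ρ = (cst p a)⁻¹ * Ser a ρ := rfl

lemma K_diag {r : ℝ} (h0 : 0 ≤ r) (h1 : r < 1) (t : ℝ) :
    K r t t = (√(1 - r ^ 2))⁻¹ * Real.exp (t ^ 2 * r / (1 + r)) := by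
  unfold K
  congr 2
  have : (1 : ℝ) - r ≠ 0 := by linarith
  have h2 : (1 : ℝ) + r ≠ 0 := by linarith
  have e : 1 - r ^ 2 = (1 - r) * (1 + r) := by ring
  rw [e]
  field_simp
  ring

lemma sumH {r : ℝ} (h0 : 0 ≤ r) (h1 : r < 1) (t : ℝ) :
    HasSum (fun k : ℕ => H k t ^ 2 * r ^ k) (K r t t) := by
  refine (mehlerR h0 h1 t t).congr_fun fun k => ?_
  ring

lemma ser_deriv (t : ℝ) {ρ : ℝ} (h0 : 0 < ρ) (h1 : ρ < 1) :
    HasDerivAt (Ser t) (K ρ t t) ρ := by
  obtain ⟨r, hr, hr1⟩ := exists_between h1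
  have h := hasDerivAt_tsum_of_isPreconnected (𝕜 := ℝ)
    (u := fun n : ℕ => H n t ^ 2 * r ^ n) (t := Ioo (-r) r)
    (g := fun (n : ℕ) (x : ℝ) => 1 / ((n : ℝ) + 1) * H n t ^ 2 * x ^ (n + 1))
    (g' := fun (n : ℕ) (x : ℝ) => H n t ^ 2 * x ^ n)
    (y₀ := 0) (y := ρ) (sumH (h0.le.trans hr.le) hr1 t).summable isOpen_Ioo isPreconnected_Ioo
    (fun n y _ => by
      have h2 := (hasDerivAt_pow (n + 1) y).const_mul (1 / ((n : ℝ) + 1) * H n t ^ 2)
      refine h2.congr_deriv ?_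
      have : (n : ℝ) + 1 ≠ 0 := by positivity
      push_cast
      field_simp)
    (fun n y hy => by
      rw [Real.norm_eq_abs, abs_mul, abs_of_nonneg (sq_nonneg (H n t)), abs_pow]
      have : |y| ≤ r := abs_le.2 ⟨hy.1.le, hy.2.le⟩
      gcongr)
    ⟨by linarith, by linarith⟩
    (by
      refine summable_zero.congr fun n => ?_
      simp)
    ⟨by linarith, hr⟩
  refine h.congr_deriv ?_
  exact (sumH h0.le h1 t).tsum_eq

/-- antiderivative -/
noncomputable def gg (n : ℕ) (x : ℝ) : ℝ := H n x * ph x / √((n : ℝ) + 1)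

lemma H_succ_eq (n : ℕ) (x : ℝ) :
    H (n + 1) x = (x * (HP n).eval x - (HP n).derivative.eval x) /
      (√((n : ℝ) + 1) * √(n ! : ℝ)) := by
  rw [H_eq, HP_succ, Nat.factorial_succ]
  push_cast
  rw [Real.sqrt_mul (by positivity)]
  simp

lemma gg_deriv (n : ℕ) (x : ℝ) : HasDerivAt (gg n) (-(H (n + 1) x * ph x)) x := by
  have h1 : gg n = fun x => (HP n).eval x * gaussianPDFReal 0 1 x /
      (√((n : ℝ) + 1) * √(n ! : ℝ)) := by
    funext y
    unfold gg
    rw [H_eq]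
    unfold ph
    have h5 := sqrt_fact_pos n
    have h6 : 0 < √((n : ℝ) + 1) := Real.sqrt_pos.2 (by positivity)
    field_simp
  rw [h1]
  have h2 := (((HP n).hasDerivAt x).mul (stein_deriv x)).div_const (√((n : ℝ) + 1) * √(n ! : ℝ))
  refine h2.congr_deriv ?_
  rw [H_succ_eq]
  unfold ph
  ring

lemma Hph_int (n : ℕ) : Integrable (fun x => H n x * ph x) := by
  have h := stein_int (HP n)
  have h2 := h.div_const (√(n ! : ℝ))
  refine h2.congr (Eventually.of_forall fun x => ?_)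
  simp only
  rw [H_eq]
  unfold ph
  ring

lemma pow_mul_exp_tendsto (n : ℕ) :
    Tendsto (fun x : ℝ => |x| ^ n * Real.exp (-x ^ 2 / 2)) (cocompact ℝ) (𝓝 0) := by
  have h1 := (tendsto_rpow_abs_mul_exp_neg_mul_sq_cocompact (a := 1 / 2) (by norm_num) (n : ℝ))
  refine h1.congr fun x => ?_
  rw [Real.rpow_natCast]
  congr 2
  ring

lemma gg_tendsto (n : ℕ) : Tendsto (gg n) (cocompact ℝ) (𝓝 0) := by
  have h1 : gg n = fun x => ∑ i ∈ Finset.range ((HP n).natDegree + 1),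
      ((HP n).coeff i * (√(2 * Real.pi))⁻¹ / (√((n : ℝ) + 1) * √(n ! : ℝ))) *
        (x ^ i * Real.exp (-x ^ 2 / 2)) := by
    funext y
    unfold gg
    rw [H_eq, ph_eq, Polynomial.eval_eq_sum_range, Finset.sum_div, Finset.sum_mul, Finset.sum_div]
    refine Finset.sum_congr rfl fun i _ => ?_
    have h5 := sqrt_fact_pos n
    have h6 : 0 < √((n : ℝ) + 1) := Real.sqrt_pos.2 (by positivity)
    field_simp
  rw [h1]
  rw [show (0 : ℝ) = ∑ i ∈ Finset.range ((HP n).natDegree + 1),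
      ((HP n).coeff i * (√(2 * Real.pi))⁻¹ / (√((n : ℝ) + 1) * √(n ! : ℝ))) * 0 by simp]
  refine tendsto_finsetSum _ fun i _ => Tendsto.const_mul _ ?_
  rw [tendsto_zero_iff_abs_tendsto_zero]
  refine (pow_mul_exp_tendsto i).congr fun x => ?_
  simp only [Function.comp]
  rw [abs_mul, abs_pow, abs_of_pos (Real.exp_pos _)]

lemma gg_top (n : ℕ) : Tendsto (gg n) atTop (𝓝 0) := (gg_tendsto n).mono_left atTop_le_cocompact

lemma gg_bot (n : ℕ) : Tendsto (gg n) atBot (𝓝 0) := (gg_tendsto n).mono_left atBot_le_cocompact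

lemma int_Ioi (n : ℕ) (s : ℝ) : ∫ x in Ioi s, H (n + 1) x * ph x = gg n s := by
  have h := integral_Ioi_of_hasDerivAt_of_tendsto (f := gg n) (a := s)
    (gg_deriv n s).continuousAt.continuousWithinAt (fun x _ => gg_deriv n x)
    (Hph_int (n + 1)).neg.integrableOn (gg_top n)
  rw [integral_neg] at h
  linarith

lemma int_all (n : ℕ) : ∫ x, H (n + 1) x * ph x = 0 := by
  have h := integral_of_hasDerivAt_of_tendsto (f := gg n) (fun x => gg_deriv n x)
    (Hph_int (n + 1)).neg (gg_bot n) (gg_top n)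
  rw [integral_neg] at h
  linarith

/-- the threshold function -/
noncomputable def sg (t x : ℝ) : ℝ := if t < x then 1 else -1

lemma sg_meas (t : ℝ) : Measurable (sg t) :=
  Measurable.ite measurableSet_Ioi measurable_const measurable_const

lemma sg_abs (t x : ℝ) : |sg t x| ≤ 1 := by
  unfold sg; split_ifs <;> simp

lemma hc_eq (b : ℝ → ℝ) (n : ℕ) : hc b n = ∫ x, b x * (H n x * ph x) := by
  unfold hc
  rw [integral_gaussianReal_eq_integral_smul one_ne_zero]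
  refine integral_congr_ae (Eventually.of_forall fun x => ?_)
  simp only [smul_eq_mul, ph]
  ring

lemma hc_sg (t : ℝ) (n : ℕ) : hc (sg t) (n + 1) = 2 * gg n t := by
  rw [hc_eq]
  have e : ∀ x, sg t x * (H (n + 1) x * ph x) =
      2 * (Ioi t).indicator (fun x => H (n + 1) x * ph x) x - H (n + 1) x * ph x := by
    intro x
    unfold sg
    by_cases h : t < x
    · rw [if_pos h, indicator_of_mem (mem_Ioi.2 h)]; ring
    · rw [if_neg h, indicator_of_notMem (by simpa using h)]; ring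
  simp only [e]
  rw [integral_sub (((Hph_int (n + 1)).indicator measurableSet_Ioi).const_mul 2) (Hph_int (n + 1)),
    integral_const_mul, integral_indicator measurableSet_Ioi, int_Ioi, int_all, sub_zero]

lemma gg_sq (n : ℕ) (t : ℝ) : gg n t ^ 2 = ph t ^ 2 * (1 / ((n : ℝ) + 1) * H n t ^ 2) := by
  unfold gg
  rw [div_pow, mul_pow, Real.sq_sqrt (by positivity)]
  ring

lemma corr_sg (t : ℝ) {ρ : ℝ} (h0 : 0 < ρ) (h1 : ρ < 1) :
    corr (sg t) ρ = hc (sg t) 0 ^ 2 + 4 * ph t ^ 2 * Ser t ρ := by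
  have h := corr_hasSum (sg_meas t) (sg_abs t) h0 h1
  have h2 := h.tsum_eq
  rw [h.summable.tsum_eq_zero_add] at h2
  rw [← h2, pow_zero, one_mul, Ser, ← tsum_mul_left]
  congr 1
  refine tsum_congr fun n => ?_
  rw [hc_sg, mul_pow, gg_sq]
  ring

lemma corr_le_one {b : ℝ → ℝ} (hb1 : ∀ x, |b x| ≤ 1) (ρ : ℝ) : |corr b ρ| ≤ 1 := by
  unfold corr
  have h1 : ∀ x, ‖∫ z, b x * b (ρ * x + √(1 - ρ ^ 2) * z) ∂G‖ ≤ 1 := by
    intro x
    have := norm_integral_le_of_norm_le_const (μ := G) (C := 1)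
      (f := fun z => b x * b (ρ * x + √(1 - ρ ^ 2) * z)) (Eventually.of_forall fun z => by
        rw [norm_mul, Real.norm_eq_abs, Real.norm_eq_abs]
        exact mul_le_one₀ (hb1 _) (abs_nonneg _) (hb1 _))
    simpa using this
  have := norm_integral_le_of_norm_le_const (μ := G) (C := 1)
    (f := fun x => ∫ z, b x * b (ρ * x + √(1 - ρ ^ 2) * z) ∂G) (Eventually.of_forall h1)
  simpa using this

lemma ser_summable (t : ℝ) : Summable fun n : ℕ => 1 / ((n : ℝ) + 1) * H n t ^ 2 := by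
  have hph := ph_pos t
  refine summable_of_sum_range_le (c := 1 / (4 * ph t ^ 2)) (fun n => by positivity) fun N => ?_
  have h1 : ∀ ρ ∈ Ioo (0 : ℝ) 1,
      ∑ n ∈ Finset.range N, 1 / ((n : ℝ) + 1) * H n t ^ 2 * ρ ^ (n + 1) ≤ 1 / (4 * ph t ^ 2) := by
    intro ρ hρ
    have hs : Summable fun n : ℕ => 1 / ((n : ℝ) + 1) * H n t ^ 2 * ρ ^ (n + 1) := by
      refine Summable.of_nonneg_of_le (fun n => by have := hρ.1.le; positivity) (fun n => ?_)
        (sumH hρ.1.le hρ.2 t).summable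
      have h2 : 1 / ((n : ℝ) + 1) ≤ 1 := by
        rw [div_le_one (by positivity)]
        linarith [(Nat.cast_nonneg n : (0 : ℝ) ≤ n)]
      have h3 : ρ ^ (n + 1) ≤ ρ ^ n := by
        rw [pow_succ]
        exact mul_le_of_le_one_right (pow_nonneg hρ.1.le n) hρ.2.le
      have h4 : 0 ≤ ρ ^ (n + 1) := pow_nonneg hρ.1.le _
      calc 1 / ((n : ℝ) + 1) * H n t ^ 2 * ρ ^ (n + 1) ≤ 1 * H n t ^ 2 * ρ ^ n := by gcongr
        _ = _ := by ring
    have h5 := hs.sum_le_tsum (Finset.range N) (fun n _ => by have := hρ.1.le; positivity)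
    have h6 := corr_sg t hρ.1 hρ.2
    have h7 := (abs_le.1 (corr_le_one (sg_abs t) ρ)).2
    have h8 : Ser t ρ ≤ 1 / (4 * ph t ^ 2) := by
      rw [le_div_iff₀ (by positivity)]
      nlinarith [sq_nonneg (hc (sg t) 0)]
    exact h5.trans h8
  have h2 : Tendsto (fun ρ : ℝ => ∑ n ∈ Finset.range N,
      1 / ((n : ℝ) + 1) * H n t ^ 2 * ρ ^ (n + 1)) (𝓝[<] 1)
      (𝓝 (∑ n ∈ Finset.range N, 1 / ((n : ℝ) + 1) * H n t ^ 2 * 1 ^ (n + 1))) := by
    refine Tendsto.mono_left ?_ nhdsWithin_le_nhds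
    have hc : Continuous (fun ρ : ℝ => ∑ n ∈ Finset.range N,
      1 / ((n : ℝ) + 1) * H n t ^ 2 * ρ ^ (n + 1)) := by fun_prop
    exact hc.tendsto 1
  simp only [one_pow, mul_one] at h2
  refine le_of_tendsto h2 ?_
  filter_upwards [Ioo_mem_nhdsLT (show (0 : ℝ) < 1 by norm_num)] with ρ hρ using h1 ρ hρ

lemma ser_cont (t : ℝ) : ContinuousOn (Ser t) (Icc 0 1) := by
  refine continuousOn_tsum (u := fun n : ℕ => 1 / ((n : ℝ) + 1) * H n t ^ 2)
    (fun n => by fun_prop) (ser_summable t) ?_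
  intro n x hx
  have h1 : |x| ^ (n + 1) ≤ 1 := pow_le_one₀ (abs_nonneg _) (abs_le.2 ⟨by linarith [hx.1], hx.2⟩)
  rw [Real.norm_eq_abs, abs_mul, abs_pow, abs_of_nonneg (by positivity :
    0 ≤ 1 / ((n : ℝ) + 1) * H n t ^ 2)]
  exact mul_le_of_le_one_right (by positivity) h1

/-- value at the correlation `cos θ` -/
lemma ser_theta (t : ℝ) {θ : ℝ} (h0 : 0 < θ) (h1 : θ < Real.pi / 2) :
    ∃ ξ ∈ Ioo 0 θ, 4 * ph t ^ 2 * (Ser t 1 - Ser t (Real.cos θ)) =
      θ * (2 / Real.pi * Real.exp (-t ^ 2 / (1 + Real.cos ξ))) := by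
  have hcos : ∀ u ∈ Icc (0 : ℝ) θ, Real.cos u ∈ Icc (0 : ℝ) 1 := fun u hu =>
    ⟨Real.cos_nonneg_of_neg_pi_div_two_le_of_le (by linarith [hu.1]) (by linarith [hu.2]),
      Real.cos_le_one u⟩
  have hcont : ContinuousOn (fun u => Ser t (Real.cos u)) (Icc 0 θ) :=
    (ser_cont t).comp Real.continuous_cos.continuousOn hcos
  have hder : ∀ u ∈ Ioo (0 : ℝ) θ, HasDerivAt (fun u => Ser t (Real.cos u))
      (K (Real.cos u) t t * (-Real.sin u)) u := by
    intro u hu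
    have hc0 : 0 < Real.cos u := Real.cos_pos_of_mem_Ioo ⟨by linarith [hu.1], by linarith [hu.2]⟩
    have hc1 : Real.cos u < 1 := by
      have := Real.cos_lt_cos_of_nonneg_of_le_pi (x := 0) (y := u) le_rfl
        (by linarith [hu.2, Real.pi_pos]) hu.1
      rwa [Real.cos_zero] at this
    exact (ser_deriv t hc0 hc1).comp u (Real.hasDerivAt_cos u)
  obtain ⟨ξ, hξ, hs⟩ := exists_hasDerivAt_eq_slope (fun u => Ser t (Real.cos u)) _ h0 hcont hder
  refine ⟨ξ, hξ, ?_⟩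
  rw [Real.cos_zero, sub_zero] at hs
  have hc0 : 0 < Real.cos ξ := Real.cos_pos_of_mem_Ioo ⟨by linarith [hξ.1], by linarith [hξ.2]⟩
  have hs0 : 0 < Real.sin ξ := Real.sin_pos_of_pos_of_lt_pi hξ.1 (by linarith [hξ.2, Real.pi_pos])
  have hc1 : Real.cos ξ < 1 := by
    have := Real.sin_sq_add_cos_sq ξ
    nlinarith [pow_pos hs0 2]
  rw [eq_div_iff h0.ne'] at hs
  have e1 : Ser t 1 - Ser t (Real.cos θ) = θ * (K (Real.cos ξ) t t * Real.sin ξ) := by linarith
  rw [e1, K_diag hc0.le hc1]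
  have e2 : √(1 - Real.cos ξ ^ 2) = Real.sin ξ := by
    rw [← Real.sin_sq, Real.sqrt_sq hs0.le]
  rw [e2, ph_eq, mul_pow, inv_pow, Real.sq_sqrt (by positivity)]
  have e3 : Real.exp (-t ^ 2 / 2) ^ 2 * Real.exp (t ^ 2 * Real.cos ξ / (1 + Real.cos ξ)) =
      Real.exp (-t ^ 2 / (1 + Real.cos ξ)) := by
    rw [← Real.exp_nat_mul, ← Real.exp_add]
    congr 1
    have : (1 : ℝ) + Real.cos ξ ≠ 0 := by linarith
    push_cast
    field_simp
    ring
  rw [← e3]
  have := Real.pi_pos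
  field_simp
  norm_num

end Q194.GC
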