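import Mathlib

/-!
# Mean values of exponential series and analytic continuation
-/

namespace Q194.GC

open MeasureTheory Filter Set
open scoped Topology

lemma norm_cexp_I (x : ℝ) : ‖Complex.exp ((x : ℂ) * Complex.I)‖ = 1 :=
  Complex.norm_exp_ofReal_mul_I x

/-- the mean of an exponential -/
lemma mean_exp {l : ℝ} (hl : l ≠ 0) : Tendsto (fun Λ : ℝ => ∫ x in (1 : ℝ)..2,
    Complex.exp (((Λ * x * l : ℝ) : ℂ) * Complex.I)) atTop (𝓝 0) := by
  have hlim : Tendsto (fun Λ : ℝ => 2 / (Λ * |l|)) atTop (𝓝 0) := by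
    have h1 : Tendsto (fun Λ : ℝ => Λ * |l|) atTop atTop :=
      tendsto_id.atTop_mul_const (abs_pos.2 hl)
    exact tendsto_const_nhds.div_atTop h1
  rw [tendsto_zero_iff_norm_tendsto_zero]
  refine squeeze_zero' (Eventually.of_forall fun _ => norm_nonneg _) ?_ hlim
  filter_upwards [eventually_gt_atTop 0] with Λ hΛ
  have hc : ((Λ * l : ℝ) : ℂ) * Complex.I ≠ 0 :=
    mul_ne_zero (Complex.ofReal_ne_zero.2 (mul_ne_zero hΛ.ne' hl)) Complex.I_ne_zero
  have h := integral_exp_mul_complex (a := 1) (b := 2) hc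
  have e : ∀ x : ℝ, Complex.exp (((Λ * x * l : ℝ) : ℂ) * Complex.I) =
      Complex.exp (((Λ * l : ℝ) : ℂ) * Complex.I * x) := by
    intro x
    congr 1
    push_cast
    ring
  simp only [e]
  rw [h, norm_div]
  have h2 : ‖((Λ * l : ℝ) : ℂ) * Complex.I‖ = Λ * |l| := by
    rw [norm_mul, Complex.norm_I, mul_one, Complex.norm_real, Real.norm_eq_abs, abs_mul,
      abs_of_pos hΛ]
  rw [h2]
  have hpos : 0 < Λ * |l| := mul_pos hΛ (abs_pos.2 hl)
  refine div_le_div_of_nonneg_right ?_ hpos.le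
  have h3 : ∀ x : ℝ, ‖Complex.exp (((Λ * l : ℝ) : ℂ) * Complex.I * x)‖ = 1 := by
    intro x
    rw [← e, norm_cexp_I]
  calc _ ≤ ‖Complex.exp (((Λ * l : ℝ) : ℂ) * Complex.I * (2 : ℝ))‖ +
        ‖Complex.exp (((Λ * l : ℝ) : ℂ) * Complex.I * (1 : ℝ))‖ := norm_sub_le _ _
    _ = 2 := by rw [h3, h3]; norm_num

section

variable {ι : Type*} [Countable ι] {c : ι → ℂ} (hc : Summable fun i => ‖c i‖) (l : ι → ℝ)

include hc

/-- the mean of an exponential series -/
lemma mean_series : Tendsto (fun Λ : ℝ => ∫ x in (1 : ℝ)..2,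
    ∑' i, c i * Complex.exp (((Λ * x * l i : ℝ) : ℂ) * Complex.I)) atTop
    (𝓝 (∑' i, if l i = 0 then c i else 0)) := by
  have h12 : (1 : ℝ) ≤ 2 := by norm_num
  have hint : ∀ Λ : ℝ, ∀ i, Integrable (fun x : ℝ =>
      c i * Complex.exp (((Λ * x * l i : ℝ) : ℂ) * Complex.I)) (volume.restrict (Ioc 1 2)) := by
    intro Λ i
    have : Continuous fun x : ℝ => c i * Complex.exp (((Λ * x * l i : ℝ) : ℂ) * Complex.I) := by
      fun_prop
    exact (this.integrableOn_Icc).mono_set Ioc_subset_Icc_self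
  have hnorm : ∀ Λ : ℝ, ∀ i, ∫ x : ℝ in Ioc (1 : ℝ) 2,
      ‖c i * Complex.exp (((Λ * x * l i : ℝ) : ℂ) * Complex.I)‖ = ‖c i‖ := by
    intro Λ i
    simp only [norm_mul, norm_cexp_I, mul_one]
    simp
    norm_num
  have hswap : ∀ Λ : ℝ, ∫ x in (1 : ℝ)..2,
      ∑' i, c i * Complex.exp (((Λ * x * l i : ℝ) : ℂ) * Complex.I) =
      ∑' i, c i * ∫ x in (1 : ℝ)..2, Complex.exp (((Λ * x * l i : ℝ) : ℂ) * Complex.I) := by
    intro Λ
    rw [intervalIntegral.integral_of_le h12]
    have h := hasSum_integral_of_summable_integral_norm (hint Λ) (by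
      simp only [hnorm]
      exact hc)
    rw [← h.tsum_eq]
    refine tsum_congr fun i => ?_
    rw [intervalIntegral.integral_of_le h12, integral_const_mul]
  simp only [hswap]
  refine tendsto_tsum_of_dominated_convergence hc (fun i => ?_) (Eventually.of_forall fun Λ i => ?_)
  · by_cases hi : l i = 0
    · rw [if_pos hi]
      simp only [hi, mul_zero, Complex.ofReal_zero, zero_mul, Complex.exp_zero]
      simp only [intervalIntegral.integral_const]
      norm_num
    · rw [if_neg hi]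
      have := (mean_exp hi).const_mul (c i)
      rwa [mul_zero] at this
  · rw [norm_mul]
    refine mul_le_of_le_one_right (norm_nonneg _) ?_
    have := intervalIntegral.norm_integral_le_of_norm_le_const (a := 1) (b := 2) (C := 1)
      (f := fun x : ℝ => Complex.exp (((Λ * x * l i : ℝ) : ℂ) * Complex.I))
      (fun x _ => (norm_cexp_I _).le)
    refine this.trans ?_
    norm_num

omit [Countable ι] hc in
lemma mean_small {Δ : ℝ → ℂ} (hΔ : Tendsto Δ atTop (𝓝 0)) :
    Tendsto (fun Λ : ℝ => ∫ x in (1 : ℝ)..2, Δ (Λ * x)) atTop (𝓝 0) := by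
  rw [Metric.tendsto_atTop] at hΔ ⊢
  intro ε hε
  obtain ⟨N, hN⟩ := hΔ (ε / 2) (by positivity)
  refine ⟨max N 0, fun Λ hΛ => ?_⟩
  have h1 : N ≤ Λ := (le_max_left _ _).trans hΛ
  have h2 : 0 ≤ Λ := (le_max_right _ _).trans hΛ
  have := intervalIntegral.norm_integral_le_of_norm_le_const (a := 1) (b := 2) (C := ε / 2)
    (f := fun x : ℝ => Δ (Λ * x)) (fun x hx => by
      rw [uIoc_of_le (by norm_num)] at hx
      have h3 := hN (Λ * x) (by nlinarith [hx.1])
      rw [dist_zero_right] at h3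
      exact h3.le)
  rw [dist_zero_right]
  refine lt_of_le_of_lt this ?_
  norm_num
  linarith

/-- extraction of the coefficients -/
lemma coeff_eq {D0 : ℂ} {m0 : ℝ} (h : Tendsto (fun L : ℝ =>
    ∑' i, c i * Complex.exp (((L * l i : ℝ) : ℂ) * Complex.I) -
      D0 * Complex.exp (((L * m0 : ℝ) : ℂ) * Complex.I)) atTop (𝓝 0)) (m : ℝ) :
    (∑' i, if l i = m then c i else 0) = if m0 = m then D0 else 0 := by
  set Δ : ℝ → ℂ := fun L => (∑' i, c i * Complex.exp (((L * l i : ℝ) : ℂ) * Complex.I) -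
      D0 * Complex.exp (((L * m0 : ℝ) : ℂ) * Complex.I)) *
      Complex.exp (((L * (-m) : ℝ) : ℂ) * Complex.I) with hΔ
  have hΔ0 : Tendsto Δ atTop (𝓝 0) := by
    rw [tendsto_zero_iff_norm_tendsto_zero] at h ⊢
    refine h.congr fun L => ?_
    rw [hΔ]
    simp only
    rw [norm_mul, norm_cexp_I, mul_one]
  have e : ∀ L, Δ L = ∑' i, c i * Complex.exp (((L * (l i - m) : ℝ) : ℂ) * Complex.I) -
      D0 * Complex.exp (((L * (m0 - m) : ℝ) : ℂ) * Complex.I) := by
    intro L
    rw [hΔ]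
    simp only
    rw [sub_mul, ← tsum_mul_right]
    congr 1
    · refine tsum_congr fun i => ?_
      rw [mul_assoc, ← Complex.exp_add]
      congr 2
      push_cast
      ring
    · rw [mul_assoc, ← Complex.exp_add]
      congr 2
      push_cast
      ring
  have h1 := mean_small hΔ0
  have h2 := mean_series hc (fun i => l i - m)
  have h3 := (mean_series (ι := Unit) (c := fun _ => D0) (by
    exact Summable.of_finite) (fun _ => m0 - m))
  have hcont : ∀ Λ : ℝ, Continuous fun x : ℝ =>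
      ∑' i, c i * Complex.exp (((Λ * x * (l i - m) : ℝ) : ℂ) * Complex.I) := by
    intro Λ
    refine continuous_tsum (fun i => by fun_prop) hc fun i x => ?_
    rw [norm_mul, norm_cexp_I, mul_one]
  have h4 : ∀ Λ : ℝ, ∫ x in (1 : ℝ)..2, Δ (Λ * x) =
      (∫ x in (1 : ℝ)..2, ∑' i, c i * Complex.exp (((Λ * x * (l i - m) : ℝ) : ℂ) * Complex.I)) -
      ∫ x in (1 : ℝ)..2, ∑' _ : Unit, D0 *
        Complex.exp (((Λ * x * (m0 - m) : ℝ) : ℂ) * Complex.I) := by
    intro Λ
    have hc2 : Continuous fun x : ℝ => ∑' _ : Unit, D0 *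
        Complex.exp (((Λ * x * (m0 - m) : ℝ) : ℂ) * Complex.I) := by
      simp only [tsum_fintype]
      fun_prop
    rw [← intervalIntegral.integral_sub ((hcont Λ).intervalIntegrable _ _)
      (hc2.intervalIntegrable _ _)]
    refine intervalIntegral.integral_congr fun x _ => ?_
    show Δ (Λ * x) = _
    rw [e]
    congr 1
    rw [tsum_fintype, Finset.univ_unique, Finset.sum_singleton]
  simp only [h4] at h1
  have h5 := tendsto_nhds_unique h1 (h2.sub h3)
  have e1 : ∀ i, (if l i - m = 0 then c i else 0) = if l i = m then c i else 0 := by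
    intro i
    simp only [sub_eq_zero]
  simp only [e1] at h5
  rw [eq_comm, sub_eq_zero] at h5
  rw [h5]
  simp [sub_eq_zero]

/-- resummation along the fibres -/
lemma resum {D0 : ℂ} {m0 : ℝ} (h : ∀ m : ℝ, (∑' i, if l i = m then c i else 0) =
    if m0 = m then D0 else 0) {f : ℝ → ℂ} (hf : Summable fun i => c i * f (l i)) :
    ∑' i, c i * f (l i) = D0 * f m0 := by
  have h1 := (Equiv.sigmaFiberEquiv l).tsum_eq (fun i => c i * f (l i))
  have h2 : Summable fun p : Σ y : ℝ, {x // l x = y} => c p.2 * f (l p.2) :=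
    ((Equiv.sigmaFiberEquiv l).summable_iff (f := fun i => c i * f (l i))).2 hf
  have h3 := h2.tsum_sigma
  have h4 : ∀ y : ℝ, ∑' x : {x // l x = y}, c x * f (l x) =
      (if m0 = y then D0 else 0) * f y := by
    intro y
    have e : ∀ x : {x // l x = y}, c x * f (l x) = c x * f y := by
      intro x
      rw [x.2]
    simp only [e]
    rw [tsum_mul_right, ← h y]
    congr 1
    have := tsum_subtype {x | l x = y} c
    refine this.trans (tsum_congr fun i => ?_)
    by_cases hi : l i = y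
    · rw [if_pos hi, indicator_of_mem (show i ∈ {x | l x = y} from hi)]
    · rw [if_neg hi, indicator_of_notMem (show i ∉ {x | l x = y} from hi)]
  rw [← h1]
  have h5 : ∑' p : Σ y : ℝ, {x // l x = y}, c ((Equiv.sigmaFiberEquiv l) p) *
      f (l ((Equiv.sigmaFiberEquiv l) p)) = ∑' y : ℝ, (if m0 = y then D0 else 0) * f y := by
    have : ∑' p : Σ y : ℝ, {x // l x = y}, c ((Equiv.sigmaFiberEquiv l) p) *
      f (l ((Equiv.sigmaFiberEquiv l) p)) = ∑' p : Σ y : ℝ, {x // l x = y}, c p.2 * f (l p.2) := rfl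
    rw [this, h3]
    exact tsum_congr h4
  rw [h5, tsum_eq_single m0]
  · rw [if_pos rfl]
  · intro y hy
    rw [if_neg (Ne.symm hy), zero_mul]

end

end Q194.GC
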