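import Pool.Agent.Q194.GC.C

/-!
# Analytic continuation of the double sum identity and its consequences
-/

namespace Q194.GC

open MeasureTheory Filter Set
open scoped Topology

/-- the kernel in the variable `τ` -/
noncomputable def ker (a b : ℝ) (τ : ℂ) : ℂ := Complex.exp (-((a : ℂ) / τ + b * τ))

lemma ker_norm {a b : ℝ} (ha : 0 ≤ a) (hb : 0 ≤ b) {τ : ℂ} (hτ : 0 < τ.re) : ‖ker a b τ‖ ≤ 1 := by
  rw [ker, Complex.norm_exp, Real.exp_le_one_iff]
  have h1 : ((a : ℂ) / τ).re = a * τ.re / Complex.normSq τ := by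
    rw [Complex.div_re]
    simp
  have h2 : ((b : ℂ) * τ).re = b * τ.re := by simp
  rw [Complex.neg_re, Complex.add_re, h1, h2]
  have : 0 ≤ a * τ.re / Complex.normSq τ := div_nonneg (mul_nonneg ha hτ.le) (Complex.normSq_nonneg _)
  have : 0 ≤ b * τ.re := mul_nonneg hb hτ.le
  linarith

lemma ker_diff (a b : ℝ) {τ : ℂ} (hτ : τ ≠ 0) : DifferentiableAt ℂ (ker a b) τ := by
  unfold ker
  refine DifferentiableAt.cexp (DifferentiableAt.neg (DifferentiableAt.add ?_ ?_))
  · exact (differentiableAt_const _).div differentiableAt_id hτ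
  · exact (differentiableAt_const _).mul differentiableAt_id

section

variable {ι : Type*} {W : ι → ℂ} (hW : Summable fun i => ‖W i‖) {α β : ι → ℝ}
  (hα : ∀ i, 0 ≤ α i) (hβ : ∀ i, 0 ≤ β i) {D : ℂ} {a0 b0 : ℝ} (ha0 : 0 ≤ a0) (hb0 : 0 ≤ b0)

include hW hα hβ in
theorem continuation (hid : ∀ τ ∈ Ioo (1 / 2 : ℝ) 1, ∑' i, W i * ker (α i) (β i) (τ : ℂ) =
    D * ker a0 b0 τ) {τ : ℂ} (hτ : 0 < τ.re) :
    ∑' i, W i * ker (α i) (β i) τ = D * ker a0 b0 τ := by
  set U : Set ℂ := {z | 0 < z.re} with hU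
  have hUo : IsOpen U := isOpen_lt continuous_const Complex.continuous_re
  have hUc : IsPreconnected U := (convex_halfSpace_re_gt 0).isPreconnected
  have hne : ∀ z ∈ U, z ≠ 0 := by
    rintro z hz rfl
    simp [hU] at hz
  have hd1 : DifferentiableOn ℂ (fun z => ∑' i, W i * ker (α i) (β i) z) U := by
    refine Complex.differentiableOn_tsum_of_summable_norm hW (fun i z hz => ?_) hUo
      (fun i z hz => ?_)
    · exact ((ker_diff (α i) (β i) (hne z hz)).const_mul _).differentiableWithinAt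
    · rw [norm_mul]
      exact mul_le_of_le_one_right (norm_nonneg _) (ker_norm (hα i) (hβ i) hz)
  have hd2 : DifferentiableOn ℂ (fun z => D * ker a0 b0 z) U := fun z hz =>
    ((ker_diff a0 b0 (hne z hz)).const_mul _).differentiableWithinAt
  have hz0 : ((3 / 4 : ℝ) : ℂ) ∈ U := by
    simp only [hU, mem_setOf_eq, Complex.ofReal_re]
    norm_num
  have hfreq : ∃ᶠ z in 𝓝[≠] ((3 / 4 : ℝ) : ℂ), ∑' i, W i * ker (α i) (β i) z = D * ker a0 b0 z := by
    have ht : Tendsto (fun n : ℕ => ((3 / 4 + 1 / ((n : ℝ) + 5) : ℝ) : ℂ)) atTop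
        (𝓝[≠] ((3 / 4 : ℝ) : ℂ)) := by
      rw [tendsto_nhdsWithin_iff]
      constructor
      · have h1 : Tendsto (fun n : ℕ => 3 / 4 + 1 / ((n : ℝ) + 5)) atTop (𝓝 (3 / 4 + 0)) := by
          refine Tendsto.const_add _ ?_
          exact tendsto_const_nhds.div_atTop
            (tendsto_atTop_add_const_right _ _ tendsto_natCast_atTop_atTop)
        rw [add_zero] at h1
        exact (Complex.continuous_ofReal.tendsto _).comp h1
      · refine Eventually.of_forall fun n => ?_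
        rw [mem_compl_iff, mem_singleton_iff, Complex.ofReal_inj]
        have : (0 : ℝ) < 1 / ((n : ℝ) + 5) := by positivity
        linarith
    refine ht.frequently (Eventually.frequently (Eventually.of_forall fun n => hid _ ⟨?_, ?_⟩))
    · have : (0 : ℝ) < 1 / ((n : ℝ) + 5) := by positivity
      linarith
    · have : 1 / ((n : ℝ) + 5) ≤ 1 / 5 := by
        apply one_div_le_one_div_of_le (by norm_num)
        have := Nat.cast_nonneg (α := ℝ) n
        linarith
      linarith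
  exact (hd1.analyticOnNhd hUo).eqOn_of_preconnected_of_frequently_eq (hd2.analyticOnNhd hUo) hUc
    hz0 hfreq hτ

/-- the correction factor -/
noncomputable def corrf (b L : ℝ) : ℂ := Complex.exp (-(b * (8 * (1 + L * Complex.I))⁻¹))

lemma corrf_norm {b : ℝ} (hb : 0 ≤ b) (L : ℝ) : ‖corrf b L‖ ≤ 1 := by
  rw [corrf, Complex.norm_exp, Real.exp_le_one_iff, Complex.neg_re, neg_nonpos]
  have : ((b : ℂ) * (8 * (1 + L * Complex.I))⁻¹).re = b * (8 / Complex.normSq (8 * (1 + L * Complex.I))) := by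
    rw [Complex.re_ofReal_mul, Complex.inv_re]
    simp
  rw [this]
  exact mul_nonneg hb (div_nonneg (by norm_num) (Complex.normSq_nonneg _))

lemma corrf_tendsto (b : ℝ) : Tendsto (fun L : ℝ => corrf b L) atTop (𝓝 1) := by
  have h1 : Tendsto (fun L : ℝ => (8 * (1 + (L : ℂ) * Complex.I))⁻¹) atTop (𝓝 0) := by
    refine tendsto_inv₀_cobounded.comp ?_
    rw [← tendsto_norm_atTop_iff_cobounded]
    refine tendsto_atTop_mono (fun L => ?_) tendsto_id
    have h2 : |(8 * (1 + (L : ℂ) * Complex.I)).im| ≤ ‖8 * (1 + (L : ℂ) * Complex.I)‖ :=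
      Complex.abs_im_le_norm _
    have h3 : (8 * (1 + (L : ℂ) * Complex.I)).im = 8 * L := by simp
    rw [h3] at h2
    have h4 := le_abs_self (8 * L)
    by_cases hL : 0 ≤ L
    · simp only [id]
      linarith
    · simp only [id]
      exact le_trans (by linarith) (norm_nonneg _)
  have h2 : Tendsto (fun L : ℝ => -((b : ℂ) * (8 * (1 + (L : ℂ) * Complex.I))⁻¹)) atTop (𝓝 0) := by
    have := (h1.const_mul (b : ℂ)).neg
    rwa [mul_zero, neg_zero] at this
  have h3 := (Complex.continuous_exp.tendsto 0).comp h2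
  rw [Complex.exp_zero] at h3
  exact h3

lemma ker_split (a b L : ℝ) : ker a b (8 * (1 + L * Complex.I))⁻¹ =
    Complex.exp ((-(8 * a) : ℝ) : ℂ) * Complex.exp (((L * (-(8 * a)) : ℝ) : ℂ) * Complex.I) *
      corrf b L := by
  unfold ker corrf
  rw [← Complex.exp_add, ← Complex.exp_add]
  congr 1
  rw [div_inv_eq_mul]
  push_cast
  ring

lemma re_pos (L : ℝ) : 0 < ((8 * (1 + (L : ℂ) * Complex.I))⁻¹).re := by
  rw [Complex.inv_re]
  refine div_pos (by simp) (Complex.normSq_pos.2 ?_)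
  intro h
  have := congrArg Complex.re h
  simp at this

include hW hα hβ hb0 in
lemma asym (hid : ∀ τ : ℂ, 0 < τ.re → ∑' i, W i * ker (α i) (β i) τ = D * ker a0 b0 τ) :
    Tendsto (fun L : ℝ => ∑' i, W i * Complex.exp ((-(8 * α i) : ℝ) : ℂ) *
        Complex.exp (((L * (-(8 * α i)) : ℝ) : ℂ) * Complex.I) -
      D * Complex.exp ((-(8 * a0) : ℝ) : ℂ) *
        Complex.exp (((L * (-(8 * a0)) : ℝ) : ℂ) * Complex.I)) atTop (𝓝 0) := by
  have hexp : ∀ i, ‖Complex.exp ((-(8 * α i) : ℝ) : ℂ)‖ ≤ 1 := by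
    intro i
    rw [Complex.norm_exp, Complex.ofReal_re, Real.exp_le_one_iff]
    linarith [hα i]
  have hb : ∀ i (L : ℝ), ‖W i * Complex.exp ((-(8 * α i) : ℝ) : ℂ) *
        Complex.exp (((L * (-(8 * α i)) : ℝ) : ℂ) * Complex.I)‖ ≤ ‖W i‖ := by
    intro i L
    rw [norm_mul, norm_cexp_I, mul_one, norm_mul]
    exact mul_le_of_le_one_right (norm_nonneg _) (hexp i)
  have e : ∀ L : ℝ, ∑' i, W i * Complex.exp ((-(8 * α i) : ℝ) : ℂ) *
        Complex.exp (((L * (-(8 * α i)) : ℝ) : ℂ) * Complex.I) -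
      D * Complex.exp ((-(8 * a0) : ℝ) : ℂ) *
        Complex.exp (((L * (-(8 * a0)) : ℝ) : ℂ) * Complex.I) =
      ∑' i, W i * Complex.exp ((-(8 * α i) : ℝ) : ℂ) *
        Complex.exp (((L * (-(8 * α i)) : ℝ) : ℂ) * Complex.I) * (1 - corrf (β i) L) -
      D * Complex.exp ((-(8 * a0) : ℝ) : ℂ) *
        Complex.exp (((L * (-(8 * a0)) : ℝ) : ℂ) * Complex.I) * (1 - corrf b0 L) := by
    intro L
    have h1 := hid _ (re_pos L)
    simp only [ker_split] at h1
    have h2 : ∑' i, W i * Complex.exp ((-(8 * α i) : ℝ) : ℂ) *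
        Complex.exp (((L * (-(8 * α i)) : ℝ) : ℂ) * Complex.I) * (1 - corrf (β i) L) =
        ∑' i, W i * Complex.exp ((-(8 * α i) : ℝ) : ℂ) *
        Complex.exp (((L * (-(8 * α i)) : ℝ) : ℂ) * Complex.I) -
        ∑' i, W i * (Complex.exp ((-(8 * α i) : ℝ) : ℂ) *
        Complex.exp (((L * (-(8 * α i)) : ℝ) : ℂ) * Complex.I) * corrf (β i) L) := by
      have s1 : Summable fun i => W i * Complex.exp ((-(8 * α i) : ℝ) : ℂ) *
          Complex.exp (((L * (-(8 * α i)) : ℝ) : ℂ) * Complex.I) :=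
        Summable.of_norm_bounded hW fun i => hb i L
      have s2 : Summable fun i => W i * (Complex.exp ((-(8 * α i) : ℝ) : ℂ) *
          Complex.exp (((L * (-(8 * α i)) : ℝ) : ℂ) * Complex.I) * corrf (β i) L) := by
        refine Summable.of_norm_bounded hW fun i => ?_
        rw [← mul_assoc, ← mul_assoc, norm_mul]
        exact (mul_le_of_le_one_right (norm_nonneg _) (corrf_norm (hβ i) L)).trans (hb i L)
      rw [← s1.tsum_sub s2]
      refine tsum_congr fun i => ?_
      ring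
    rw [h2, h1]
    ring
  simp only [e]
  have t1 : Tendsto (fun L : ℝ => ∑' i, W i * Complex.exp ((-(8 * α i) : ℝ) : ℂ) *
        Complex.exp (((L * (-(8 * α i)) : ℝ) : ℂ) * Complex.I) * (1 - corrf (β i) L)) atTop
        (𝓝 (∑' _ : ι, (0 : ℂ))) := by
    refine tendsto_tsum_of_dominated_convergence (bound := fun i => ‖W i‖ * 2)
      (hW.mul_right 2) (fun i => ?_) (Eventually.of_forall fun L i => ?_)
    · have h3 : Tendsto (fun L : ℝ => ‖W i‖ * ‖1 - corrf (β i) L‖) atTop (𝓝 0) := by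
        have := ((corrf_tendsto (β i)).const_sub 1).norm.const_mul ‖W i‖
        simpa using this
      refine squeeze_zero_norm (fun L => ?_) h3
      rw [norm_mul]
      exact mul_le_mul_of_nonneg_right (hb i L) (norm_nonneg _)
    · rw [norm_mul]
      refine mul_le_mul (hb i L) ?_ (norm_nonneg _) (norm_nonneg _)
      calc ‖1 - corrf (β i) L‖ ≤ ‖(1 : ℂ)‖ + ‖corrf (β i) L‖ := norm_sub_le _ _
        _ ≤ 1 + 1 := by rw [norm_one]; linarith [corrf_norm (hβ i) L]
        _ = 2 := by norm_num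
  rw [tsum_zero] at t1
  have t2 : Tendsto (fun L : ℝ => D * Complex.exp ((-(8 * a0) : ℝ) : ℂ) *
        Complex.exp (((L * (-(8 * a0)) : ℝ) : ℂ) * Complex.I) * (1 - corrf b0 L)) atTop (𝓝 0) := by
    have h3 : Tendsto (fun L : ℝ => ‖D * Complex.exp ((-(8 * a0) : ℝ) : ℂ)‖ *
        ‖1 - corrf b0 L‖) atTop (𝓝 0) := by
      have := ((corrf_tendsto b0).const_sub 1).norm.const_mul
        ‖D * Complex.exp ((-(8 * a0) : ℝ) : ℂ)‖
      simpa using this
    refine squeeze_zero_norm (fun L => ?_) h3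
    rw [norm_mul, norm_mul _ (Complex.exp (((L * (-(8 * a0)) : ℝ) : ℂ) * Complex.I)), norm_cexp_I,
      mul_one]
  simpa using t1.sub t2

include hW hα hβ hb0 in
theorem means_left [Countable ι]
    (hid : ∀ τ : ℂ, 0 < τ.re → ∑' i, W i * ker (α i) (β i) τ = D * ker a0 b0 τ)
    (g : ℝ → ℂ) (hg : ∀ x, ‖g x‖ ≤ 1) : ∑' i, W i * g (α i) = D * g a0 := by
  have hc : Summable fun i => ‖W i * Complex.exp ((-(8 * α i) : ℝ) : ℂ)‖ := by
    refine Summable.of_nonneg_of_le (fun i => norm_nonneg _) (fun i => ?_) hW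
    rw [norm_mul]
    refine mul_le_of_le_one_right (norm_nonneg _) ?_
    rw [Complex.norm_exp, Complex.ofReal_re, Real.exp_le_one_iff]
    linarith [hα i]
  have h1 := coeff_eq hc (fun i => -(8 * α i)) (asym hW hα hβ hb0 hid)
  set f : ℝ → ℂ := fun x => Complex.exp ((-x : ℝ) : ℂ) * g (-x / 8) with hf
  have hfe : ∀ x : ℝ, Complex.exp ((-(8 * x) : ℝ) : ℂ) * f (-(8 * x)) = g x := by
    intro x
    rw [hf]
    simp only
    rw [← mul_assoc, ← Complex.exp_add]
    have e1 : ((-(8 * x) : ℝ) : ℂ) + ((- -(8 * x) : ℝ) : ℂ) = 0 := by push_cast; ring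
    have e2 : - -(8 * x) / 8 = x := by ring
    rw [e1, e2, Complex.exp_zero, one_mul]
  have hsum : Summable fun i => W i * Complex.exp ((-(8 * α i) : ℝ) : ℂ) * f (-(8 * α i)) := by
    refine Summable.of_norm_bounded hW fun i => ?_
    rw [mul_assoc, hfe, norm_mul]
    exact mul_le_of_le_one_right (norm_nonneg _) (hg _)
  have h2 := resum hc (fun i => -(8 * α i)) h1 hsum
  simp only [mul_assoc, hfe] at h2
  exact h2

lemma ker_inv (a b : ℝ) {τ : ℂ} : ker b a τ = ker a b τ⁻¹ := by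
  unfold ker
  congr 2
  rw [div_inv_eq_mul, ← div_eq_mul_inv, add_comm]

include hW hα hβ ha0 in
theorem means_right [Countable ι]
    (hid : ∀ τ : ℂ, 0 < τ.re → ∑' i, W i * ker (α i) (β i) τ = D * ker a0 b0 τ)
    (g : ℝ → ℂ) (hg : ∀ x, ‖g x‖ ≤ 1) : ∑' i, W i * g (β i) = D * g b0 := by
  refine means_left hW hβ hα ha0 (fun τ hτ => ?_) g hg
  simp only [ker_inv (α _) (β _), ker_inv a0 b0]
  refine hid _ ?_
  rw [Complex.inv_re]
  refine div_pos hτ (Complex.normSq_pos.2 ?_)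
  rintro rfl
  simp at hτ

end

end Q194.GC
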