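import Pool.Agent.Q194.GC.G1

/-!
# Comparison of the correlation with the thresholds at the jumps
-/

namespace Q194.GC

open MeasureTheory ProbabilityTheory Filter Set
open scoped Topology

/-- the product Gaussian law -/
noncomputable abbrev GG : Measure (ℝ × ℝ) := G.prod G

/-- the second variable -/
noncomputable def yy (ρ : ℝ) (p : ℝ × ℝ) : ℝ := ρ * p.1 + √(1 - ρ ^ 2) * p.2

lemma yy_meas (ρ : ℝ) : Measurable (yy ρ) := by unfold yy; fun_prop

lemma corr_prod {b : ℝ → ℝ} (hb : Measurable b) (hb1 : ∀ x, |b x| ≤ 1) (ρ : ℝ) :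
    corr b ρ = ∫ p, b p.1 * b (yy ρ p) ∂GG := by
  have hint : Integrable (fun p : ℝ × ℝ => b p.1 * b (yy ρ p)) GG := by
    refine Integrable.of_bound ?_ 1 (Eventually.of_forall fun p => ?_)
    · exact ((hb.comp measurable_fst).mul (hb.comp (yy_meas ρ))).aestronglyMeasurable
    · rw [norm_mul, Real.norm_eq_abs, Real.norm_eq_abs]
      exact mul_le_one₀ (hb1 _) (abs_nonneg _) (hb1 _)
  rw [integral_prod _ hint]
  rfl

lemma int_bb {b : ℝ → ℝ} (hb : Measurable b) (hb1 : ∀ x, |b x| ≤ 1) (ρ : ℝ) :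
    Integrable (fun p : ℝ × ℝ => b p.1 * b (yy ρ p)) GG := by
  refine Integrable.of_bound ?_ 1 (Eventually.of_forall fun p => ?_)
  · exact ((hb.comp measurable_fst).mul (hb.comp (yy_meas ρ))).aestronglyMeasurable
  · rw [norm_mul, Real.norm_eq_abs, Real.norm_eq_abs]
    exact mul_le_one₀ (hb1 _) (abs_nonneg _) (hb1 _)

lemma one_sub_corr_prod {b : ℝ → ℝ} (hb : Measurable b) (hb1 : ∀ x, |b x| ≤ 1) (ρ : ℝ) :
    1 - corr b ρ = ∫ p, (1 - b p.1 * b (yy ρ p)) ∂GG := by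
  rw [integral_sub (integrable_const 1) (int_bb hb hb1 ρ), corr_prod hb hb1]
  simp

/-- almost every pair avoids a null set -/
lemma ae_pair {s : Set ℝ} (hs : ∀ᵐ x : ℝ, x ∈ s) {ρ : ℝ} (hρ : 0 < 1 - ρ ^ 2) :
    ∀ᵐ p ∂GG, p.1 ∈ s ∧ yy ρ p ∈ s := by
  have hsub : (toMeasurable volume sᶜ)ᶜ ⊆ s := by
    rw [compl_subset_comm]
    exact subset_toMeasurable _ _
  have hnull : volume (toMeasurable volume sᶜ) = 0 := by
    rw [measure_toMeasurable]
    exact hs
  have hae : ∀ᵐ x : ℝ, x ∈ (toMeasurable volume sᶜ)ᶜ := by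
    rw [ae_iff]
    simpa using hnull
  have hac : G ≪ volume := gaussianReal_absolutelyContinuous 0 one_ne_zero
  have hm : MeasurableSet (toMeasurable volume sᶜ)ᶜ := (measurableSet_toMeasurable _ _).compl
  have hmain : ∀ᵐ p ∂GG, p.1 ∈ (toMeasurable volume sᶜ)ᶜ ∧
      yy ρ p ∈ (toMeasurable volume sᶜ)ᶜ := by
    refine (Measure.ae_prod_iff_ae_ae (((measurable_fst hm).inter
      ((yy_meas ρ) hm)) : MeasurableSet {p : ℝ × ℝ | p.1 ∈ (toMeasurable volume sᶜ)ᶜ ∧
        yy ρ p ∈ (toMeasurable volume sᶜ)ᶜ})).2 ?_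
    filter_upwards [hac.ae_le hae] with x hx
    have hσ : √(1 - ρ ^ 2) ≠ 0 := (Real.sqrt_pos.2 hρ).ne'
    have h2 : ∀ᵐ z : ℝ, ρ * x + √(1 - ρ ^ 2) * z ∈ (toMeasurable volume sᶜ)ᶜ := by
      have hq : Measure.QuasiMeasurePreserving (fun z : ℝ => ρ * x + √(1 - ρ ^ 2) * z) volume
          volume := by
        have q1 : Measure.QuasiMeasurePreserving (fun z : ℝ => √(1 - ρ ^ 2) * z) volume volume := by
          refine ⟨by fun_prop, ?_⟩
          have h5 := Real.map_volume_mul_left hσ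
          rw [h5]
          exact Measure.smul_absolutelyContinuous
        have q2 : Measure.QuasiMeasurePreserving (fun z : ℝ => ρ * x + z) volume volume :=
          (measurePreserving_add_left volume (ρ * x)).quasiMeasurePreserving
        exact q2.comp q1
      exact hq.ae hae
    filter_upwards [hac.ae_le h2] with z hz
    exact ⟨hx, hz⟩
  filter_upwards [hmain] with p hp using ⟨hsub hp.1, hsub hp.2⟩

lemma sq_int : Integrable (fun x : ℝ => x ^ 2) G := Pool.Agent.W342.GP.pow_int 2 1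

lemma int_sq_G : ∫ x, x ^ 2 ∂G = 1 := by
  have h := int_H_sq 1
  have e : ∀ x, H 1 x ^ 2 = x ^ 2 := by
    intro x
    rw [H_eq, Pool.Agent.W342.GP.HP_one_eval]
    simp
  simpa only [e] using h

lemma int_id_G : ∫ x, x ∂G = 0 := by simp [integral_id_gaussianReal]

/-- second moment of the increment -/
lemma sq_diff {ρ : ℝ} (hρ : 0 ≤ 1 - ρ ^ 2) :
    Integrable (fun p : ℝ × ℝ => (p.1 - yy ρ p) ^ 2) GG ∧
    ∫ p, (p.1 - yy ρ p) ^ 2 ∂GG = 2 - 2 * ρ := by
  have e : ∀ p : ℝ × ℝ, (p.1 - yy ρ p) ^ 2 = (1 - ρ) ^ 2 * (p.1 ^ 2 * 1) +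
      (-2 * (1 - ρ) * √(1 - ρ ^ 2)) * (p.1 * p.2) + (1 - ρ ^ 2) * (1 * p.2 ^ 2) := by
    intro p
    have hs := Real.sq_sqrt hρ
    unfold yy
    nlinarith [hs]
  have hid : Integrable (fun x : ℝ => x) G := by
    have := Pool.Agent.W342.GP.pow_int 1 1
    simpa using this
  have i1 : Integrable (fun p : ℝ × ℝ => p.1 ^ 2 * 1) GG :=
    Integrable.mul_prod (f := fun x : ℝ => x ^ 2) (g := fun _ : ℝ => (1 : ℝ)) sq_int
      (integrable_const 1)
  have i2 : Integrable (fun p : ℝ × ℝ => p.1 * p.2) GG :=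
    Integrable.mul_prod (f := fun x : ℝ => x) (g := fun x : ℝ => x) hid hid
  have i3 : Integrable (fun p : ℝ × ℝ => 1 * p.2 ^ 2) GG :=
    Integrable.mul_prod (f := fun _ : ℝ => (1 : ℝ)) (g := fun x : ℝ => x ^ 2) (integrable_const 1)
      sq_int
  have v1 : ∫ p : ℝ × ℝ, p.1 ^ 2 * 1 ∂GG = 1 := by
    have := integral_prod_mul (μ := G) (ν := G) (fun x : ℝ => x ^ 2) (fun _ : ℝ => (1 : ℝ))
    rw [this, int_sq_G]; simp
  have v2 : ∫ p : ℝ × ℝ, p.1 * p.2 ∂GG = 0 := by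
    have := integral_prod_mul (μ := G) (ν := G) (fun x : ℝ => x) (fun x : ℝ => x)
    rw [this, int_id_G]; simp
  have v3 : ∫ p : ℝ × ℝ, 1 * p.2 ^ 2 ∂GG = 1 := by
    have := integral_prod_mul (μ := G) (ν := G) (fun _ : ℝ => (1 : ℝ)) (fun x : ℝ => x ^ 2)
    rw [this, int_sq_G]; simp
  have hfun : (fun p : ℝ × ℝ => (p.1 - yy ρ p) ^ 2) = fun p => (1 - ρ) ^ 2 * (p.1 ^ 2 * 1) +
      (-2 * (1 - ρ) * √(1 - ρ ^ 2)) * (p.1 * p.2) + (1 - ρ ^ 2) * (1 * p.2 ^ 2) := funext e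
  rw [hfun]
  have j1 := i1.const_mul ((1 - ρ) ^ 2)
  have j2 := i2.const_mul (-2 * (1 - ρ) * √(1 - ρ ^ 2))
  have j3 := i3.const_mul (1 - ρ ^ 2)
  refine ⟨(j1.add j2).add j3, ?_⟩
  have k1 : ∫ p : ℝ × ℝ, ((1 - ρ) ^ 2 * (p.1 ^ 2 * 1) +
      (-2 * (1 - ρ) * √(1 - ρ ^ 2)) * (p.1 * p.2) + (1 - ρ ^ 2) * (1 * p.2 ^ 2)) ∂GG =
      ∫ p : ℝ × ℝ, ((1 - ρ) ^ 2 * (p.1 ^ 2 * 1) +
      (-2 * (1 - ρ) * √(1 - ρ ^ 2)) * (p.1 * p.2)) ∂GG +
      ∫ p : ℝ × ℝ, (1 - ρ ^ 2) * (1 * p.2 ^ 2) ∂GG := integral_add (j1.add j2) j3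
  have k2 : ∫ p : ℝ × ℝ, ((1 - ρ) ^ 2 * (p.1 ^ 2 * 1) +
      (-2 * (1 - ρ) * √(1 - ρ ^ 2)) * (p.1 * p.2)) ∂GG =
      ∫ p : ℝ × ℝ, (1 - ρ) ^ 2 * (p.1 ^ 2 * 1) ∂GG +
      ∫ p : ℝ × ℝ, (-2 * (1 - ρ) * √(1 - ρ ^ 2)) * (p.1 * p.2) ∂GG := integral_add j1 j2
  rw [k1, k2, integral_const_mul, integral_const_mul, integral_const_mul, v1, v2, v3]
  ring

lemma sg_mul (t x y : ℝ) : (1 - sg t x * sg t y = 0) ∨
    (1 - sg t x * sg t y = 2 ∧ ((x ≤ t ∧ t < y) ∨ (y ≤ t ∧ t < x))) := by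
  unfold sg
  by_cases hx : t < x <;> by_cases hy : t < y
  · left; rw [if_pos hx, if_pos hy]; norm_num
  · right; rw [if_pos hx, if_neg hy]; exact ⟨by norm_num, Or.inr ⟨not_lt.1 hy, hx⟩⟩
  · right; rw [if_neg hx, if_pos hy]; exact ⟨by norm_num, Or.inl ⟨not_lt.1 hx, hy⟩⟩
  · left; rw [if_neg hx, if_neg hy]; norm_num

lemma sg_mul_le (t x y : ℝ) : 1 - sg t x * sg t y ≤ 2 := by
  rcases sg_mul t x y with h | h
  · rw [h]; norm_num
  · exact h.1.le

section

variable {χ : ℝ → ℝ} (hχ : Measurable χ) (h1 : ∀ x, χ x = 1 ∨ χ x = -1)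
  (hfin : ∀ A B : ℝ, (TT χ ∩ Icc A B).Finite)

include hχ h1 hfin

/-- points of `LL` are not jumps -/
lemma LL_not_TT {x : ℝ} (hx : x ∈ LL χ) : x ∉ TT χ := by
  intro hxT
  obtain ⟨δ, hδ, _, hr, hl⟩ := one_sided hχ h1 hfin x hxT
  have hd1 : HasDerivWithinAt (uu χ) (ep χ x) (Ioi x) x := by
    have e : ∀ y ∈ Ioo x (x + δ), uu χ y = uu χ x + ep χ x * (y - x) := by
      intro y hy
      have h5 := uu_sub hχ h1 x y
      have h6 : ∫ t in x..y, χ t = ∫ t in x..y, ep χ x := by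
        refine intervalIntegral.integral_congr_ae ?_
        filter_upwards [ae_LL hχ h1] with z hz hz2
        rw [uIoc_of_le hy.1.le] at hz2
        exact hr z hz ⟨hz2.1, by linarith [hz2.2, hy.2]⟩
      rw [h6, intervalIntegral.integral_const, smul_eq_mul] at h5
      linarith
    have h7 : HasDerivAt (fun y => uu χ x + ep χ x * (y - x)) (ep χ x) x := by
      have := (((hasDerivAt_id x).sub_const x).const_mul (ep χ x)).const_add (uu χ x)
      simpa using this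
    refine h7.hasDerivWithinAt.congr_of_eventuallyEq ?_ (by simp)
    filter_upwards [Ioo_mem_nhdsGT (show x < x + δ by linarith)] with y hy using e y hy
  have hd2 : HasDerivWithinAt (uu χ) (-ep χ x) (Iio x) x := by
    have e : ∀ y ∈ Ioo (x - δ) x, uu χ y = uu χ x + (-ep χ x) * (y - x) := by
      intro y hy
      have h5 := uu_sub hχ h1 y x
      have h6 : ∫ t in y..x, χ t = ∫ t in y..x, -ep χ x := by
        refine intervalIntegral.integral_congr_ae ?_
        have h9 : ∀ᵐ z : ℝ, z ≠ x := by simp [ae_iff]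
        filter_upwards [ae_LL hχ h1, h9] with z hz hzx hz2
        rw [uIoc_of_le hy.2.le] at hz2
        exact hl z hz ⟨by linarith [hz2.1, hy.1], lt_of_le_of_ne hz2.2 hzx⟩
      rw [h6, intervalIntegral.integral_const, smul_eq_mul] at h5
      linarith
    have h7 : HasDerivAt (fun y => uu χ x + (-ep χ x) * (y - x)) (-ep χ x) x := by
      have := (((hasDerivAt_id x).sub_const x).const_mul (-ep χ x)).const_add (uu χ x)
      simpa using this
    refine h7.hasDerivWithinAt.congr_of_eventuallyEq ?_ (by simp)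
    filter_upwards [Ioo_mem_nhdsLT (show x - δ < x by linarith)] with y hy using e y hy
  have h8 : HasDerivAt (uu χ) (χ x) x := hx
  have e1 := (uniqueDiffWithinAt_Ioi x).eq_deriv _ h8.hasDerivWithinAt hd1
  have e2 := (uniqueDiffWithinAt_Iio x).eq_deriv _ h8.hasDerivWithinAt hd2
  have := ep_sq χ x
  rw [e1] at e2
  have h0 : ep χ x = 0 := by linarith
  rw [h0] at this
  norm_num at this

/-- lower comparison -/
lemma lower_cmp (F : Finset ℝ) (hF : ∀ t ∈ F, t ∈ TT χ) : ∃ η > 0, ∀ x ∈ LL χ, ∀ y ∈ LL χ,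
    ∑ t ∈ F, (1 - sg t x * sg t y) - 2 * F.card / η ^ 2 * (x - y) ^ 2 ≤ 1 - χ x * χ y := by
  -- a common radius
  obtain ⟨η, hη, hc⟩ : ∃ η > 0, ∀ t ∈ F, (∀ s ∈ TT χ, s ≠ t → η ≤ |s - t|) ∧
      (∀ w ∈ LL χ, w ∈ Ioo t (t + η) → χ w = ep χ t) ∧
      (∀ w ∈ LL χ, w ∈ Ioo (t - η) t → χ w = -ep χ t) := by
    induction F using Finset.induction_on with
    | empty => exact ⟨1, one_pos, by simp⟩
    | insert a F ha ih =>
      obtain ⟨η, hη, hc⟩ := ih (fun t ht => hF t (Finset.mem_insert_of_mem ht))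
      obtain ⟨δ, hδ, hd1, hd2, hd3⟩ := one_sided hχ h1 hfin a (hF a (Finset.mem_insert_self _ _))
      refine ⟨min η δ, lt_min hη hδ, fun t ht => ?_⟩
      rcases Finset.mem_insert.1 ht with rfl | ht
      · refine ⟨fun s hs hst => (min_le_right _ _).trans (hd1 s hs hst), fun w hw hw2 => ?_,
          fun w hw hw2 => ?_⟩
        · exact hd2 w hw ⟨hw2.1, hw2.2.trans_le (by linarith [min_le_right η δ])⟩
        · exact hd3 w hw ⟨lt_of_le_of_lt (by linarith [min_le_right η δ]) hw2.1, hw2.2⟩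
      · obtain ⟨c1, c2, c3⟩ := hc t ht
        refine ⟨fun s hs hst => (min_le_left _ _).trans (c1 s hs hst), fun w hw hw2 => ?_,
          fun w hw hw2 => ?_⟩
        · exact c2 w hw ⟨hw2.1, hw2.2.trans_le (by linarith [min_le_left η δ])⟩
        · exact c3 w hw ⟨lt_of_le_of_lt (by linarith [min_le_left η δ]) hw2.1, hw2.2⟩
  refine ⟨η, hη, fun x hx y hy => ?_⟩
  have hnn := one_sub_nonneg h1 x y
  by_cases hfar : η ≤ |x - y|
  · have h2 : ∑ t ∈ F, (1 - sg t x * sg t y) ≤ 2 * F.card := by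
      calc ∑ t ∈ F, (1 - sg t x * sg t y) ≤ ∑ _t ∈ F, (2 : ℝ) :=
            Finset.sum_le_sum fun t _ => sg_mul_le t x y
        _ = 2 * F.card := by simp; ring
    have h3 : 1 ≤ (x - y) ^ 2 / η ^ 2 := by
      rw [le_div_iff₀ (by positivity), one_mul, ← sq_abs (x - y)]
      exact pow_le_pow_left₀ hη.le hfar 2
    have h4 : (2 * F.card : ℝ) ≤ 2 * F.card / η ^ 2 * (x - y) ^ 2 := by
      have : (2 * F.card / η ^ 2 * (x - y) ^ 2 : ℝ) = 2 * F.card * ((x - y) ^ 2 / η ^ 2) := by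
        ring
      rw [this]
      exact le_mul_of_one_le_right (by positivity) h3
    linarith
  · rw [not_le] at hfar
    have h5 : 0 ≤ 2 * F.card / η ^ 2 * (x - y) ^ 2 := by positivity
    by_cases hz : ∀ t ∈ F, 1 - sg t x * sg t y = 0
    · rw [Finset.sum_eq_zero hz]
      linarith
    · push Not at hz
      obtain ⟨t, htF, ht⟩ := hz
      obtain ⟨c1, c2, c3⟩ := hc t htF
      have hxt : x ≠ t := fun h => LL_not_TT hχ h1 hfin hx (h ▸ hF t htF)
      have hyt : y ≠ t := fun h => LL_not_TT hχ h1 hfin hy (h ▸ hF t htF)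
      have habs := abs_lt.1 hfar
      have hval : 1 - χ x * χ y = 2 := by
        rcases sg_mul t x y with h | ⟨_, h | h⟩
        · exact absurd h ht
        · have a1 := c3 x hx ⟨by linarith [h.2], lt_of_le_of_ne h.1 hxt⟩
          have a2 := c2 y hy ⟨h.2, by linarith [h.1]⟩
          rw [a1, a2]
          have := ep_sq χ t
          linarith
        · have a1 := c3 y hy ⟨by linarith [h.2], lt_of_le_of_ne h.1 hyt⟩
          have a2 := c2 x hx ⟨h.2, by linarith [h.1]⟩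
          rw [a1, a2]
          have := ep_sq χ t
          linarith
      have hone : ∑ s ∈ F, (1 - sg s x * sg s y) = 1 - sg t x * sg t y := by
        refine Finset.sum_eq_single t ?_ (fun h => absurd htF h)
        intro s hs hst
        rcases sg_mul s x y with h | ⟨_, h⟩
        · exact h
        · exfalso
          have h6 := c1 s (hF s hs) hst
          rcases sg_mul t x y with h' | ⟨_, h'⟩
          · exact ht h'
          · have : |s - t| < η := by
              rw [abs_lt]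
              rcases h with h | h <;> rcases h' with h' | h' <;> constructor <;>
                linarith [h.1, h.2, h'.1, h'.2]
            linarith
      rw [hone]
      have := sg_mul_le t x y
      linarith

/-- upper comparison -/
lemma upper_cmp {R : ℝ} (F : Finset ℝ) (hF : ∀ t ∈ TT χ, |t| ≤ R → t ∈ F) {x y : ℝ}
    (hx : x ∈ LL χ) (hy : y ∈ LL χ) (hxR : |x| ≤ R) (hyR : |y| ≤ R) :
    1 - χ x * χ y ≤ ∑ t ∈ F, (1 - sg t x * sg t y) := by
  have hnn : ∀ t, 0 ≤ 1 - sg t x * sg t y := by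
    intro t
    rcases sg_mul t x y with h | h
    · rw [h]
    · rw [h.1]; norm_num
  have hsum0 : 0 ≤ ∑ t ∈ F, (1 - sg t x * sg t y) := Finset.sum_nonneg fun t _ => hnn t
  by_cases hxy : χ x = χ y
  · have : 1 - χ x * χ y = 0 := by
      rw [hxy]
      rcases h1 y with h | h <;> rw [h] <;> norm_num
    rw [this]
    exact hsum0
  · -- a jump between
    have key : ∀ u v : ℝ, u ∈ LL χ → v ∈ LL χ → |u| ≤ R → |v| ≤ R → u ≤ v → χ u ≠ χ v →
        ∃ t ∈ F, u < t ∧ t < v := by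
      intro u v hu hv huR hvR huv hne
      by_contra hno
      push Not at hno
      refine hne (const_of_free hχ h1 hu hv huv fun t ht ht2 => ?_)
      have hu' : t ≠ u := fun h => LL_not_TT hχ h1 hfin hu (h ▸ ht)
      have hv' : t ≠ v := fun h => LL_not_TT hχ h1 hfin hv (h ▸ ht)
      have htF : t ∈ F := hF t ht (abs_le.2 ⟨by linarith [(abs_le.1 huR).1, ht2.1],
        by linarith [(abs_le.1 hvR).2, ht2.2]⟩)
      have := hno t htF (lt_of_le_of_ne ht2.1 (Ne.symm hu'))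
      exact absurd (lt_of_le_of_ne ht2.2 hv') (not_lt.2 this)
    have hone : ∃ t ∈ F, 1 - sg t x * sg t y = 2 := by
      rcases le_total x y with hle | hle
      · obtain ⟨t, ht, a1, a2⟩ := key x y hx hy hxR hyR hle hxy
        refine ⟨t, ht, ?_⟩
        unfold sg
        rw [if_neg (not_lt.2 a1.le), if_pos a2]; norm_num
      · obtain ⟨t, ht, a1, a2⟩ := key y x hy hx hyR hxR hle (Ne.symm hxy)
        refine ⟨t, ht, ?_⟩
        unfold sg
        rw [if_neg (not_lt.2 a1.le), if_pos a2]; norm_num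
    obtain ⟨t, ht, h2⟩ := hone
    calc 1 - χ x * χ y ≤ 2 := one_sub_le h1 x y
      _ = 1 - sg t x * sg t y := h2.symm
      _ ≤ _ := Finset.single_le_sum (fun s _ => hnn s) ht

end

end Q194.GC
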