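import Mathlib

/-!
# Gaussian copula correlation: definitions
-/

namespace Q194.GC

open MeasureTheory ProbabilityTheory
open scoped Nat

/-- The normalised probabilists' Hermite polynomials `H_n`, orthonormal for the standard Gaussian
measure (`Polynomial.hermite n` is the probabilists' Hermite polynomial of Mathlib). -/
noncomputable def H (n : ℕ) (x : ℝ) : ℝ :=
  Polynomial.aeval x (Polynomial.hermite n) / √(n ! : ℝ)

/-- The constant `c(p) = p (1 - p) / φ(a)²`, `φ` the standard normal density. -/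
noncomputable def cst (p a : ℝ) : ℝ := p * (1 - p) / gaussianPDFReal 0 1 a ^ 2

/-- `ψ(p, p; ρ) = c(p)⁻¹ ∑_{n ≥ 1} H_{n-1}(a)² ρ^n / n` (here `a` stands for `Φ⁻¹(p)`). -/
noncomputable def psi (p a ρ : ℝ) : ℝ :=
  (cst p a)⁻¹ * ∑' n : ℕ, 1 / ((n : ℝ) + 1) * H n a ^ 2 * ρ ^ (n + 1)

/-- `h_b(ρ) = E[b(X) b(Y)]` for a centred Gaussian pair `(X, Y)` with unit variances and correlation
`ρ`, realised as `Y = ρ X + √(1 - ρ²) Z` with `X`, `Z` independent standard normal. -/
noncomputable def corr (b : ℝ → ℝ) (ρ : ℝ) : ℝ :=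
  ∫ x, ∫ z, b x * b (ρ * x + √(1 - ρ ^ 2) * z) ∂(gaussianReal 0 1) ∂(gaussianReal 0 1)

end Q194.GC
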