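import Pool.Agent.Q194.GC.D

/-!
# Perimeter bound and Gaussian tail of the jump set
-/

namespace Q194.GC

open MeasureTheory ProbabilityTheory Filter Set
open scoped Topology

lemma tendsto_corr_sg (t : ℝ) : Tendsto (fun ρ => corr (sg t) ρ) (𝓝[<] 1) (𝓝 1) := by
  have h : Tendsto (fun ρ : ℝ => ∫ p, sg t p.1 * sg t (yy ρ p) ∂GG) (𝓝[<] 1)
      (𝓝 (∫ _p : ℝ × ℝ, (1 : ℝ) ∂GG)) := by
    refine tendsto_integral_filter_of_dominated_convergence (fun _ => (1 : ℝ)) ?_ ?_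
      (integrable_const _) ?_
    · exact Eventually.of_forall fun ρ => (int_bb (sg_meas t) (sg_abs t) ρ).aestronglyMeasurable
    · refine Eventually.of_forall fun ρ => Eventually.of_forall fun p => ?_
      rw [norm_mul, Real.norm_eq_abs, Real.norm_eq_abs]
      exact mul_le_one₀ (sg_abs _ _) (abs_nonneg _) (sg_abs _ _)
    · have hne : ∀ᵐ p ∂GG, p.1 ∈ ({t}ᶜ : Set ℝ) ∧ yy 0 p ∈ ({t}ᶜ : Set ℝ) :=
        ae_pair (by simp [ae_iff]) (by norm_num)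
      filter_upwards [hne] with p hp
      have hp1 : p.1 ≠ t := hp.1
      have hy : Tendsto (fun ρ => yy ρ p) (𝓝[<] 1) (𝓝 p.1) := by
        have hc : Continuous fun ρ : ℝ => yy ρ p := by unfold yy; fun_prop
        have := (hc.tendsto 1).mono_left (nhdsWithin_le_nhds (s := Iio 1))
        simpa [yy] using this
      have h1 : ∀ᶠ ρ in 𝓝[<] (1 : ℝ), sg t (yy ρ p) = sg t p.1 := by
        rcases lt_or_gt_of_ne hp1 with hlt | hgt
        · filter_upwards [hy.eventually (eventually_lt_nhds hlt)] with ρ hρ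
          unfold sg
          rw [if_neg (not_lt.2 hρ.le), if_neg (not_lt.2 hlt.le)]
        · filter_upwards [hy.eventually (eventually_gt_nhds hgt)] with ρ hρ
          unfold sg
          rw [if_pos hρ, if_pos hgt]
      refine Tendsto.congr' ?_ tendsto_const_nhds
      filter_upwards [h1] with ρ hρ
      rw [hρ]
      unfold sg
      split_ifs <;> norm_num
  have e : (fun ρ => corr (sg t) ρ) = fun ρ : ℝ => ∫ p, sg t p.1 * sg t (yy ρ p) ∂GG :=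
    funext fun ρ => corr_prod (sg_meas t) (sg_abs t) ρ
  rw [e]
  simpa using h

lemma one_sub_corr_sg (t : ℝ) {ρ : ℝ} (h0 : 0 < ρ) (h1 : ρ < 1) :
    1 - corr (sg t) ρ = 4 * ph t ^ 2 * (Ser t 1 - Ser t ρ) := by
  have hlim : Tendsto (fun ρ => corr (sg t) ρ) (𝓝[<] 1)
      (𝓝 (hc (sg t) 0 ^ 2 + 4 * ph t ^ 2 * Ser t 1)) := by
    have hcw : ContinuousWithinAt (Ser t) (Icc 0 1) 1 := ser_cont t 1 (by simp)
    have h3 : Tendsto (Ser t) (𝓝[<] 1) (𝓝 (Ser t 1)) := by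
      rw [← nhdsWithin_Ioo_eq_nhdsLT (zero_lt_one (α := ℝ))]
      exact hcw.mono_left (nhdsWithin_mono _ Ioo_subset_Icc_self)
    refine Tendsto.congr' ?_ ((h3.const_mul _).const_add _)
    filter_upwards [Ioo_mem_nhdsLT (zero_lt_one (α := ℝ))] with r hr using (corr_sg t hr.1 hr.2).symm
  have := tendsto_nhds_unique hlim (tendsto_corr_sg t)
  rw [corr_sg t h0 h1]
  linarith

lemma prof (t : ℝ) {θ ξ : ℝ} (h0 : 0 ≤ ξ) (h2 : ξ ≤ θ) (h1 : θ < Real.pi / 2) :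
    Real.exp (-t ^ 2 / (1 + Real.cos θ)) ≤ Real.exp (-t ^ 2 / (1 + Real.cos ξ)) ∧
    Real.exp (-t ^ 2 / (1 + Real.cos ξ)) ≤ Real.exp (-t ^ 2 / 2) := by
  have hpi := Real.pi_pos
  have c1 : 0 ≤ Real.cos θ := Real.cos_nonneg_of_neg_pi_div_two_le_of_le (by linarith) (by linarith)
  have c2 : Real.cos θ ≤ Real.cos ξ := Real.cos_le_cos_of_nonneg_of_le_pi h0 (by linarith) h2
  have c3 := Real.cos_le_one ξ
  constructor
  · apply Real.exp_le_exp.2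
    rw [neg_div, neg_div]
    apply neg_le_neg
    exact div_le_div_of_nonneg_left (sq_nonneg t) (by linarith) (by linarith)
  · apply Real.exp_le_exp.2
    rw [neg_div, neg_div]
    apply neg_le_neg
    exact div_le_div_of_nonneg_left (sq_nonneg t) (by linarith) (by linarith)

lemma cos_mem {θ : ℝ} (h0 : 0 < θ) (h1 : θ < Real.pi / 2) : 0 < Real.cos θ ∧ Real.cos θ < 1 := by
  refine ⟨Real.cos_pos_of_mem_Ioo ⟨by linarith [Real.pi_pos], h1⟩, ?_⟩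
  have := Real.cos_lt_cos_of_nonneg_of_le_pi (x := 0) (y := θ) le_rfl
    (by linarith [Real.pi_pos]) h0
  rwa [Real.cos_zero] at this

lemma sg_bounds (t : ℝ) {θ : ℝ} (h0 : 0 < θ) (h1 : θ < Real.pi / 2) :
    θ * (2 / Real.pi * Real.exp (-t ^ 2 / (1 + Real.cos θ))) ≤ 1 - corr (sg t) (Real.cos θ) ∧
    1 - corr (sg t) (Real.cos θ) ≤ θ * (2 / Real.pi * Real.exp (-t ^ 2 / 2)) := by
  have hpi := Real.pi_pos
  obtain ⟨ξ, hξ, he⟩ := ser_theta t h0 h1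
  rw [one_sub_corr_sg t (cos_mem h0 h1).1 (cos_mem h0 h1).2, he]
  obtain ⟨p1, p2⟩ := prof t hξ.1.le hξ.2.le h1
  constructor
  · gcongr
  · gcongr

section

variable {χ : ℝ → ℝ} (hχ : Measurable χ) (h1 : ∀ x, χ x = 1 ∨ χ x = -1)
  (hfin : ∀ A B : ℝ, (TT χ ∩ Icc A B).Finite) {κ a : ℝ}

include hχ h1 hfin

omit hχ h1 hfin in
lemma sgsg_int (t ρ : ℝ) : Integrable (fun p : ℝ × ℝ => 1 - sg t p.1 * sg t (yy ρ p)) GG :=
  (integrable_const 1).sub (int_bb (sg_meas t) (sg_abs t) ρ)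

omit hfin in
lemma chi_int (ρ : ℝ) : Integrable (fun p : ℝ × ℝ => 1 - χ p.1 * χ (yy ρ p)) GG :=
  (integrable_const 1).sub (int_bb hχ (fun x => (chi_abs h1 x).le) ρ)

lemma perim_theta (F : Finset ℝ) (hF : ∀ t ∈ F, t ∈ TT χ) : ∃ c : ℝ, ∀ θ ∈ Ioo 0 (Real.pi / 2),
    ∑ t ∈ F, (1 - corr (sg t) (Real.cos θ)) - c * θ ^ 2 ≤ 1 - corr χ (Real.cos θ) := by
  obtain ⟨η, hη, hc⟩ := lower_cmp hχ h1 hfin F hF
  refine ⟨2 * F.card / η ^ 2, fun θ hθ => ?_⟩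
  obtain ⟨c0, c1⟩ := cos_mem hθ.1 hθ.2
  set ρ := Real.cos θ with hρ
  have hρ2 : 0 < 1 - ρ ^ 2 := by nlinarith
  have hsq := sq_diff hρ2.le
  have hint : Integrable (fun p : ℝ × ℝ => ∑ t ∈ F, (1 - sg t p.1 * sg t (yy ρ p))) GG :=
    integrable_finsetSum _ fun t _ => sgsg_int t ρ
  have hint2 : Integrable (fun p : ℝ × ℝ => 2 * F.card / η ^ 2 * (p.1 - yy ρ p) ^ 2) GG :=
    hsq.1.const_mul _
  have hmono : ∫ p : ℝ × ℝ, (∑ t ∈ F, (1 - sg t p.1 * sg t (yy ρ p)) -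
      2 * F.card / η ^ 2 * (p.1 - yy ρ p) ^ 2) ∂GG ≤ ∫ p : ℝ × ℝ, (1 - χ p.1 * χ (yy ρ p)) ∂GG := by
    refine integral_mono_ae (hint.sub hint2) (chi_int hχ h1 ρ) ?_
    filter_upwards [ae_pair (ae_LL hχ h1) hρ2] with p hp
    exact hc p.1 hp.1 _ hp.2
  rw [integral_sub hint hint2, integral_const_mul, hsq.2, integral_finsetSum _
    fun t _ => sgsg_int t ρ, ← one_sub_corr_prod hχ (fun x => (chi_abs h1 x).le) ρ] at hmono
  have e : ∀ t ∈ F, ∫ p : ℝ × ℝ, (1 - sg t p.1 * sg t (yy ρ p)) ∂GG = 1 - corr (sg t) ρ :=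
    fun t _ => (one_sub_corr_prod (sg_meas t) (sg_abs t) ρ).symm
  rw [Finset.sum_congr rfl e] at hmono
  have hcos := Real.one_sub_sq_div_two_le_cos (x := θ)
  have h5 : 2 * F.card / η ^ 2 * (2 - 2 * ρ) ≤ 2 * F.card / η ^ 2 * θ ^ 2 := by
    refine mul_le_mul_of_nonneg_left ?_ (by positivity)
    rw [hρ]
    linarith
  linarith

/-- the perimeter bound -/
lemma perim (hhi : ∀ θ ∈ Ioo 0 (Real.pi / 2), 1 - corr χ (Real.cos θ) ≤
    κ * (θ * (2 / Real.pi * Real.exp (-a ^ 2 / 2)))) (F : Finset ℝ) (hF : ∀ t ∈ F, t ∈ TT χ) :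
    ∑ t ∈ F, Real.exp (-t ^ 2 / 2) ≤ κ * Real.exp (-a ^ 2 / 2) := by
  have hpi := Real.pi_pos
  obtain ⟨c, hc⟩ := perim_theta hχ h1 hfin F hF
  have hlim : Tendsto (fun θ : ℝ => ∑ t ∈ F, Real.exp (-t ^ 2 / (1 + Real.cos θ)) -
      c * (Real.pi / 2) * θ) (𝓝[>] 0) (𝓝 (∑ t ∈ F, Real.exp (-t ^ 2 / 2))) := by
    have hcont : ContinuousAt (fun θ : ℝ => ∑ t ∈ F, Real.exp (-t ^ 2 / (1 + Real.cos θ)) -
      c * (Real.pi / 2) * θ) 0 := by
      refine ContinuousAt.sub ?_ (by fun_prop)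
      refine tendsto_finset_sum _ fun t _ => ?_
      refine (Real.continuous_exp.continuousAt.comp ?_ : ContinuousAt (fun θ : ℝ =>
        Real.exp (-t ^ 2 / (1 + Real.cos θ))) 0)
      refine ContinuousAt.div (by fun_prop) (by fun_prop) ?_
      simp
    have := hcont.tendsto.mono_left (nhdsWithin_le_nhds (s := Ioi 0))
    simpa [Real.cos_zero, one_add_one_eq_two] using this
  refine le_of_tendsto hlim ?_
  filter_upwards [Ioo_mem_nhdsGT (show (0 : ℝ) < Real.pi / 2 by positivity)] with θ hθ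
  have h3 := hc θ hθ
  have h4 := hhi θ hθ
  have h5 : ∑ t ∈ F, θ * (2 / Real.pi * Real.exp (-t ^ 2 / (1 + Real.cos θ))) ≤
      ∑ t ∈ F, (1 - corr (sg t) (Real.cos θ)) :=
    Finset.sum_le_sum fun t _ => (sg_bounds t hθ.1 hθ.2).1
  rw [← Finset.mul_sum, ← Finset.mul_sum] at h5
  have hθ0 : 0 < θ * (2 / Real.pi) := mul_pos hθ.1 (by positivity)
  have h6 : θ * (2 / Real.pi) * (∑ t ∈ F, Real.exp (-t ^ 2 / (1 + Real.cos θ)) -
      c * (Real.pi / 2) * θ) ≤ θ * (2 / Real.pi) * (κ * Real.exp (-a ^ 2 / 2)) := by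
    have e1 : θ * (2 / Real.pi) * (∑ t ∈ F, Real.exp (-t ^ 2 / (1 + Real.cos θ)) -
      c * (Real.pi / 2) * θ) = θ * (2 / Real.pi * ∑ t ∈ F, Real.exp (-t ^ 2 / (1 + Real.cos θ))) -
      c * θ ^ 2 := by
      field_simp
    rw [e1]
    have e2 : θ * (2 / Real.pi) * (κ * Real.exp (-a ^ 2 / 2)) =
      κ * (θ * (2 / Real.pi * Real.exp (-a ^ 2 / 2))) := by ring
    rw [e2]
    linarith
  exact le_of_mul_le_mul_left h6 hθ0

/-- the exponential moment -/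
noncomputable def MM : ℝ := ∫ g, Real.exp (9 / 10 * g ^ 2 / 2) ∂G

omit hχ h1 hfin in
lemma MM_nonneg : 0 ≤ MM := integral_nonneg fun _ => (Real.exp_pos _).le

lemma upper_int {R : ℝ} (hR : 0 ≤ R) (F : Finset ℝ) (hF : ∀ t ∈ TT χ, |t| ≤ R → t ∈ F) {θ : ℝ}
    (hθ : θ ∈ Ioo 0 (Real.pi / 2)) : 1 - corr χ (Real.cos θ) ≤
    ∑ t ∈ F, (1 - corr (sg t) (Real.cos θ)) + 2 * (MM + MM * MM) * Real.exp (-(9 / 20) * R ^ 2) := by
  obtain ⟨c0, c1⟩ := cos_mem hθ.1 hθ.2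
  set ρ := Real.cos θ with hρ
  have hρ2 : 0 < 1 - ρ ^ 2 := by nlinarith
  have hE := Pool.Agent.W342.GP.expsq_int (9 / 10) (by norm_num)
  have i1 : Integrable (fun p : ℝ × ℝ => Real.exp (9 / 10 * p.1 ^ 2 / 2) * 1) GG :=
    Integrable.mul_prod (f := fun x : ℝ => Real.exp (9 / 10 * x ^ 2 / 2))
      (g := fun _ : ℝ => (1 : ℝ)) hE (integrable_const 1)
  have i2 : Integrable (fun p : ℝ × ℝ => Real.exp (9 / 10 * p.1 ^ 2 / 2) *
      Real.exp (9 / 10 * p.2 ^ 2 / 2)) GG :=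
    Integrable.mul_prod (f := fun x : ℝ => Real.exp (9 / 10 * x ^ 2 / 2))
      (g := fun x : ℝ => Real.exp (9 / 10 * x ^ 2 / 2)) hE hE
  have v1 : ∫ p : ℝ × ℝ, Real.exp (9 / 10 * p.1 ^ 2 / 2) * 1 ∂GG = MM := by
    have := integral_prod_mul (μ := G) (ν := G) (fun x : ℝ => Real.exp (9 / 10 * x ^ 2 / 2))
      (fun _ : ℝ => (1 : ℝ))
    rw [this]
    simp [MM]
  have v2 : ∫ p : ℝ × ℝ, Real.exp (9 / 10 * p.1 ^ 2 / 2) * Real.exp (9 / 10 * p.2 ^ 2 / 2) ∂GG =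
      MM * MM := by
    have := integral_prod_mul (μ := G) (ν := G) (fun x : ℝ => Real.exp (9 / 10 * x ^ 2 / 2))
      (fun x : ℝ => Real.exp (9 / 10 * x ^ 2 / 2))
    rw [this]
    rfl
  have hint : Integrable (fun p : ℝ × ℝ => ∑ t ∈ F, (1 - sg t p.1 * sg t (yy ρ p))) GG :=
    integrable_finsetSum _ fun t _ => sgsg_int t ρ
  have j1 := i1.const_mul (2 * Real.exp (-(9 / 20) * R ^ 2))
  have j2 := i2.const_mul (2 * Real.exp (-(9 / 20) * R ^ 2))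
  have hmono : ∫ p : ℝ × ℝ, (1 - χ p.1 * χ (yy ρ p)) ∂GG ≤
      ∫ p : ℝ × ℝ, ((∑ t ∈ F, (1 - sg t p.1 * sg t (yy ρ p)) +
        2 * Real.exp (-(9 / 20) * R ^ 2) * (Real.exp (9 / 10 * p.1 ^ 2 / 2) * 1)) +
        2 * Real.exp (-(9 / 20) * R ^ 2) * (Real.exp (9 / 10 * p.1 ^ 2 / 2) *
        Real.exp (9 / 10 * p.2 ^ 2 / 2))) ∂GG := by
    refine integral_mono_ae (chi_int hχ h1 ρ) ((hint.add j1).add j2) ?_
    filter_upwards [ae_pair (ae_LL hχ h1) hρ2] with p hp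
    have hnn : 0 ≤ ∑ t ∈ F, (1 - sg t p.1 * sg t (yy ρ p)) := by
      refine Finset.sum_nonneg fun t _ => ?_
      rcases sg_mul t p.1 (yy ρ p) with h | h
      · rw [h]
      · rw [h.1]; norm_num
    have hle := one_sub_le h1 p.1 (yy ρ p)
    have key : ∀ u : ℝ, R ^ 2 < u → 2 ≤ 2 * Real.exp (-(9 / 20) * R ^ 2) *
        Real.exp (9 / 10 * u / 2) := by
      intro u hu
      rw [mul_assoc, ← Real.exp_add]
      have : 1 ≤ Real.exp (-(9 / 20) * R ^ 2 + 9 / 10 * u / 2) :=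
        Real.one_le_exp (by nlinarith)
      linarith
    have hRR : ∀ v : ℝ, R < |v| → 0 ≤ R → R ^ 2 < v ^ 2 := by
      intro v hv hR
      rw [← sq_abs v]
      exact pow_lt_pow_left₀ hv hR (by norm_num)
    by_cases hx : |p.1| ≤ R
    · by_cases hy : |yy ρ p| ≤ R
      · have := upper_cmp hχ h1 hfin F hF hp.1 hp.2 hx hy
        have : 0 ≤ 2 * Real.exp (-(9 / 20) * R ^ 2) * (Real.exp (9 / 10 * p.1 ^ 2 / 2) * 1) := by
          positivity
        have : 0 ≤ 2 * Real.exp (-(9 / 20) * R ^ 2) * (Real.exp (9 / 10 * p.1 ^ 2 / 2) *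
          Real.exp (9 / 10 * p.2 ^ 2 / 2)) := by positivity
        linarith
      · have h2 : yy ρ p ^ 2 ≤ p.1 ^ 2 + p.2 ^ 2 := by
          have hs := Real.sq_sqrt hρ2.le
          unfold yy
          nlinarith [sq_nonneg (√(1 - ρ ^ 2) * p.1 - ρ * p.2)]
        have h3 := key (p.1 ^ 2 + p.2 ^ 2) (lt_of_lt_of_le (hRR _ (not_le.1 hy) hR) h2)
        have e1 : Real.exp (9 / 10 * (p.1 ^ 2 + p.2 ^ 2) / 2) =
            Real.exp (9 / 10 * p.1 ^ 2 / 2) * Real.exp (9 / 10 * p.2 ^ 2 / 2) := by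
          rw [← Real.exp_add]
          congr 1
          ring
        rw [e1] at h3
        have : 0 ≤ 2 * Real.exp (-(9 / 20) * R ^ 2) * (Real.exp (9 / 10 * p.1 ^ 2 / 2) * 1) := by
          positivity
        linarith
    · have h3 := key (p.1 ^ 2) (hRR _ (not_le.1 hx) hR)
      have : 0 ≤ 2 * Real.exp (-(9 / 20) * R ^ 2) * (Real.exp (9 / 10 * p.1 ^ 2 / 2) *
          Real.exp (9 / 10 * p.2 ^ 2 / 2)) := by positivity
      linarith
  rw [← one_sub_corr_prod hχ (fun x => (chi_abs h1 x).le) ρ] at hmono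
  have k1 : ∫ p : ℝ × ℝ, ((∑ t ∈ F, (1 - sg t p.1 * sg t (yy ρ p)) +
        2 * Real.exp (-(9 / 20) * R ^ 2) * (Real.exp (9 / 10 * p.1 ^ 2 / 2) * 1)) +
        2 * Real.exp (-(9 / 20) * R ^ 2) * (Real.exp (9 / 10 * p.1 ^ 2 / 2) *
        Real.exp (9 / 10 * p.2 ^ 2 / 2))) ∂GG =
      ∫ p : ℝ × ℝ, (∑ t ∈ F, (1 - sg t p.1 * sg t (yy ρ p)) +
        2 * Real.exp (-(9 / 20) * R ^ 2) * (Real.exp (9 / 10 * p.1 ^ 2 / 2) * 1)) ∂GG +
      ∫ p : ℝ × ℝ, 2 * Real.exp (-(9 / 20) * R ^ 2) * (Real.exp (9 / 10 * p.1 ^ 2 / 2) *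
        Real.exp (9 / 10 * p.2 ^ 2 / 2)) ∂GG := integral_add (hint.add j1) j2
  have k2 : ∫ p : ℝ × ℝ, (∑ t ∈ F, (1 - sg t p.1 * sg t (yy ρ p)) +
        2 * Real.exp (-(9 / 20) * R ^ 2) * (Real.exp (9 / 10 * p.1 ^ 2 / 2) * 1)) ∂GG =
      ∫ p : ℝ × ℝ, ∑ t ∈ F, (1 - sg t p.1 * sg t (yy ρ p)) ∂GG +
      ∫ p : ℝ × ℝ, 2 * Real.exp (-(9 / 20) * R ^ 2) * (Real.exp (9 / 10 * p.1 ^ 2 / 2) * 1) ∂GG :=
    integral_add hint j1
  rw [k1, k2, integral_const_mul, integral_const_mul, v1, v2, integral_finsetSum _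
    fun t _ => sgsg_int t ρ] at hmono
  have e : ∀ t ∈ F, ∫ p : ℝ × ℝ, (1 - sg t p.1 * sg t (yy ρ p)) ∂GG = 1 - corr (sg t) ρ :=
    fun t _ => (one_sub_corr_prod (sg_meas t) (sg_abs t) ρ).symm
  rw [Finset.sum_congr rfl e] at hmono
  linarith

/-- the Gaussian tail of the jump set -/
lemma tail (hκ : 0 ≤ κ) (hhi : ∀ θ ∈ Ioo 0 (Real.pi / 2), 1 - corr χ (Real.cos θ) ≤
    κ * (θ * (2 / Real.pi * Real.exp (-a ^ 2 / 2))))
    (hlo : ∀ θ ∈ Ioo 0 (Real.pi / 2), κ * (θ * (2 / Real.pi *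
      Real.exp (-a ^ 2 / (1 + Real.cos θ)))) ≤ 1 - corr χ (Real.cos θ)) :
    ∃ C, 0 ≤ C ∧ ∀ R ≥ 0, ∀ F : Finset ℝ, (∀ t ∈ F, t ∈ TT χ ∧ R < |t|) →
      ∑ t ∈ F, Real.exp (-t ^ 2 / 2) ≤ C * Real.exp (-(3 / 10) * R ^ 2) := by
  have hpi := Real.pi_pos
  have hM := MM_nonneg
  refine ⟨κ * (a ^ 2 / 4) + Real.pi / 2 * (2 * (MM + MM * MM)), by positivity,
    fun R hR F hF => ?_⟩
  set θ := Real.exp (-(3 / 20) * R ^ 2) with hθd
  have hθ0 : 0 < θ := Real.exp_pos _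
  have hθ1 : θ ≤ 1 := Real.exp_le_one_iff.2 (by nlinarith [sq_nonneg R])
  have hθ : θ ∈ Ioo 0 (Real.pi / 2) := ⟨hθ0, by linarith [Real.pi_gt_three]⟩
  set F0 := (hfin (-R) R).toFinset with hF0
  have hF0m : ∀ t ∈ TT χ, |t| ≤ R → t ∈ F0 := fun t ht ht2 =>
    (Set.Finite.mem_toFinset _).2 ⟨ht, abs_le.1 ht2⟩
  have hup := upper_int hχ h1 hfin hR F0 hF0m hθ
  have h5 : ∑ t ∈ F0, (1 - corr (sg t) (Real.cos θ)) ≤
      ∑ t ∈ F0, θ * (2 / Real.pi * Real.exp (-t ^ 2 / 2)) :=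
    Finset.sum_le_sum fun t _ => (sg_bounds t hθ.1 hθ.2).2
  rw [← Finset.mul_sum, ← Finset.mul_sum] at h5
  have hl := hlo θ hθ
  have hdisj : Disjoint F F0 := by
    rw [Finset.disjoint_left]
    intro t ht ht2
    have h6 := (Set.Finite.mem_toFinset _).1 ht2
    exact absurd (abs_le.2 h6.2) (not_le.2 (hF t ht).2)
  have hper := perim hχ h1 hfin hhi (F ∪ F0) (by
    intro t ht
    rcases Finset.mem_union.1 ht with h | h
    · exact (hF t h).1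
    · exact ((Set.Finite.mem_toFinset _).1 h).1)
  rw [Finset.sum_union hdisj] at hper
  have h7 : κ * (θ * (2 / Real.pi * Real.exp (-a ^ 2 / (1 + Real.cos θ)))) ≤
      θ * (2 / Real.pi * ∑ t ∈ F0, Real.exp (-t ^ 2 / 2)) +
        2 * (MM + MM * MM) * Real.exp (-(9 / 20) * R ^ 2) := by linarith
  have h8 : Real.exp (-(9 / 20) * R ^ 2) = θ * Real.exp (-(3 / 10) * R ^ 2) := by
    rw [hθd, ← Real.exp_add]
    congr 1
    ring
  have h9 : θ ^ 2 = Real.exp (-(3 / 10) * R ^ 2) := by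
    rw [hθd, ← Real.exp_nat_mul]
    congr 1
    push_cast
    ring
  rw [h8] at h7
  have h10 : κ * Real.exp (-a ^ 2 / (1 + Real.cos θ)) ≤ ∑ t ∈ F0, Real.exp (-t ^ 2 / 2) +
      Real.pi / 2 * (2 * (MM + MM * MM)) * Real.exp (-(3 / 10) * R ^ 2) := by
    have h11 : θ * (2 / Real.pi) * (κ * Real.exp (-a ^ 2 / (1 + Real.cos θ))) ≤
        θ * (2 / Real.pi) * (∑ t ∈ F0, Real.exp (-t ^ 2 / 2) +
        Real.pi / 2 * (2 * (MM + MM * MM)) * Real.exp (-(3 / 10) * R ^ 2)) := by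
      have e1 : θ * (2 / Real.pi) * (∑ t ∈ F0, Real.exp (-t ^ 2 / 2) +
        Real.pi / 2 * (2 * (MM + MM * MM)) * Real.exp (-(3 / 10) * R ^ 2)) =
        θ * (2 / Real.pi * ∑ t ∈ F0, Real.exp (-t ^ 2 / 2)) +
        2 * (MM + MM * MM) * (θ * Real.exp (-(3 / 10) * R ^ 2)) := by
        field_simp
      rw [e1]
      linarith
    exact le_of_mul_le_mul_left h11 (by positivity)
  -- the two profiles
  obtain ⟨c0, c1⟩ := cos_mem hθ.1 hθ.2
  have h12 : Real.exp (-a ^ 2 / 2) - Real.exp (-a ^ 2 / (1 + Real.cos θ)) ≤ a ^ 2 / 4 * θ ^ 2 := by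
    set u := -a ^ 2 / 2 with hu
    set v := -a ^ 2 / (1 + Real.cos θ) with hv
    have hu0 : u ≤ 0 := by rw [hu]; nlinarith [sq_nonneg a]
    have huv : u - v ≤ a ^ 2 / 4 * θ ^ 2 := by
      have e1 : u - v = a ^ 2 * (1 - Real.cos θ) / (2 * (1 + Real.cos θ)) := by
        rw [hu, hv]
        field_simp
        ring
      rw [e1, div_le_iff₀ (by positivity)]
      have := Real.one_sub_sq_div_two_le_cos (x := θ)
      have h13 : 1 - Real.cos θ ≤ θ ^ 2 / 2 := by linarith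
      calc a ^ 2 * (1 - Real.cos θ) ≤ a ^ 2 * (θ ^ 2 / 2) := by gcongr
        _ = a ^ 2 / 4 * θ ^ 2 * (2 * 1) := by ring
        _ ≤ a ^ 2 / 4 * θ ^ 2 * (2 * (1 + Real.cos θ)) := by gcongr; linarith
    have h14 : Real.exp u - Real.exp v ≤ (u - v) * Real.exp u := by
      have h15 := Real.add_one_le_exp (v - u)
      have h16 : Real.exp v = Real.exp (v - u) * Real.exp u := by
        rw [← Real.exp_add]; congr 1; ring
      rw [h16]
      nlinarith [Real.exp_pos u]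
    have h17 : Real.exp u ≤ 1 := Real.exp_le_one_iff.2 hu0
    have h18 : 0 ≤ a ^ 2 / 4 * θ ^ 2 := by positivity
    nlinarith [Real.exp_pos u]
  have h19 : κ * (Real.exp (-a ^ 2 / 2) - Real.exp (-a ^ 2 / (1 + Real.cos θ))) ≤
      κ * (a ^ 2 / 4 * θ ^ 2) := mul_le_mul_of_nonneg_left h12 hκ
  rw [h9] at h19
  nlinarith

omit hχ h1 hfin in
lemma layer (t : ℝ) {M : ℕ} (hM : ⌈|t|⌉₊ ≤ M) : Real.exp (27 / 100 * t ^ 2) ≤
    1 + ∑ n ∈ Finset.range M, (if (n : ℝ) < |t| then Real.exp (27 / 100 * ((n : ℝ) + 1) ^ 2) else 0) := by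
  have hnn : ∀ n ∈ Finset.range M, 0 ≤ (if (n : ℝ) < |t| then
      Real.exp (27 / 100 * ((n : ℝ) + 1) ^ 2) else 0) := by
    intro n _
    split_ifs
    · exact (Real.exp_pos _).le
    · exact le_rfl
  by_cases ht : t = 0
  · subst ht
    have := Finset.sum_nonneg hnn
    simp only [ne_eq, OfNat.ofNat_ne_zero, not_false_eq_true, zero_pow, mul_zero, Real.exp_zero]
    linarith
  · have htp : 0 < |t| := abs_pos.2 ht
    have hN : 0 < ⌈|t|⌉₊ := Nat.ceil_pos.2 htp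
    obtain ⟨n, hn⟩ := Nat.exists_eq_succ_of_ne_zero hN.ne'
    have h1 : (n : ℝ) < |t| := by
      by_contra hle
      rw [not_lt] at hle
      have := Nat.ceil_le.2 hle
      omega
    have h2 : |t| ≤ (n : ℝ) + 1 := by
      have := Nat.le_ceil |t|
      rw [hn] at this
      push_cast at this
      exact this
    have h3 := Finset.single_le_sum hnn (Finset.mem_range.2 (show n < M by omega))
    rw [if_pos h1] at h3
    have h4 : Real.exp (27 / 100 * t ^ 2) ≤ Real.exp (27 / 100 * ((n : ℝ) + 1) ^ 2) := by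
      apply Real.exp_le_exp.2
      have : t ^ 2 ≤ ((n : ℝ) + 1) ^ 2 := by
        rw [← sq_abs t]
        exact pow_le_pow_left₀ htp.le h2 2
      linarith
    linarith

/-- summability over the jump set -/
theorem jump_summable (hκ : 0 ≤ κ) (hhi : ∀ θ ∈ Ioo 0 (Real.pi / 2), 1 - corr χ (Real.cos θ) ≤
    κ * (θ * (2 / Real.pi * Real.exp (-a ^ 2 / 2))))
    (hlo : ∀ θ ∈ Ioo 0 (Real.pi / 2), κ * (θ * (2 / Real.pi *
      Real.exp (-a ^ 2 / (1 + Real.cos θ)))) ≤ 1 - corr χ (Real.cos θ)) :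
    Summable fun t : TT χ => Real.exp (-(23 / 100) * (t : ℝ) ^ 2) := by
  obtain ⟨C, hC0, hC⟩ := tail hχ h1 hfin hκ hhi hlo
  have hs : Summable fun n : ℕ => Real.exp (27 / 100 * ((n : ℝ) + 1) ^ 2) *
      (C * Real.exp (-(3 / 10) * (n : ℝ) ^ 2)) := by
    have hs2 : Summable fun n : ℕ => C * Real.exp 21 * Real.exp (-(n : ℝ)) :=
      (Real.summable_exp_neg_nat).mul_left _
    refine Summable.of_nonneg_of_le (fun n => by positivity) (fun n => ?_) hs2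
    have e1 : Real.exp (27 / 100 * ((n : ℝ) + 1) ^ 2) * (C * Real.exp (-(3 / 10) * (n : ℝ) ^ 2)) =
        C * Real.exp (27 / 100 * ((n : ℝ) + 1) ^ 2 + -(3 / 10) * (n : ℝ) ^ 2) := by
      rw [Real.exp_add]; ring
    rw [e1, mul_assoc, ← Real.exp_add]
    refine mul_le_mul_of_nonneg_left (Real.exp_le_exp.2 ?_) hC0
    nlinarith [sq_nonneg ((n : ℝ) - 77 / 3)]
  refine summable_of_sum_le (c := κ * Real.exp (-a ^ 2 / 2) + ∑' n : ℕ,
    Real.exp (27 / 100 * ((n : ℝ) + 1) ^ 2) * (C * Real.exp (-(3 / 10) * (n : ℝ) ^ 2)))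
    (fun t => (Real.exp_pos _).le) fun u => ?_
  set F : Finset ℝ := u.map (Function.Embedding.subtype _) with hF
  have hFm : ∀ t ∈ F, t ∈ TT χ := by
    intro t ht
    rw [hF, Finset.mem_map] at ht
    obtain ⟨s, _, rfl⟩ := ht
    exact s.2
  have e0 : ∑ t ∈ u, Real.exp (-(23 / 100) * (t : ℝ) ^ 2) =
      ∑ t ∈ F, Real.exp (-(23 / 100) * t ^ 2) := by
    rw [hF, Finset.sum_map]
    rfl
  rw [e0]
  set M := F.sup fun t => ⌈|t|⌉₊ with hM
  have hMt : ∀ t ∈ F, ⌈|t|⌉₊ ≤ M := fun t ht => Finset.le_sup (f := fun t => ⌈|t|⌉₊) ht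
  calc ∑ t ∈ F, Real.exp (-(23 / 100) * t ^ 2) =
        ∑ t ∈ F, Real.exp (-t ^ 2 / 2) * Real.exp (27 / 100 * t ^ 2) := by
        refine Finset.sum_congr rfl fun t _ => ?_
        rw [← Real.exp_add]
        congr 1
        ring
    _ ≤ ∑ t ∈ F, Real.exp (-t ^ 2 / 2) * (1 + ∑ n ∈ Finset.range M,
          (if (n : ℝ) < |t| then Real.exp (27 / 100 * ((n : ℝ) + 1) ^ 2) else 0)) :=
        Finset.sum_le_sum fun t ht => mul_le_mul_of_nonneg_left (layer t (hMt t ht))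
          (Real.exp_pos _).le
    _ = ∑ t ∈ F, Real.exp (-t ^ 2 / 2) + ∑ n ∈ Finset.range M,
          Real.exp (27 / 100 * ((n : ℝ) + 1) ^ 2) *
            ∑ t ∈ F.filter (fun t => (n : ℝ) < |t|), Real.exp (-t ^ 2 / 2) := by
        simp only [mul_add, mul_one, Finset.sum_add_distrib]
        congr 1
        simp only [Finset.mul_sum]
        rw [Finset.sum_comm]
        refine Finset.sum_congr rfl fun n _ => ?_
        rw [Finset.sum_filter]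
        refine Finset.sum_congr rfl fun t _ => ?_
        split_ifs
        · ring
        · ring
    _ ≤ κ * Real.exp (-a ^ 2 / 2) + ∑ n ∈ Finset.range M,
          Real.exp (27 / 100 * ((n : ℝ) + 1) ^ 2) * (C * Real.exp (-(3 / 10) * (n : ℝ) ^ 2)) := by
        refine add_le_add (perim hχ h1 hfin hhi F hFm) (Finset.sum_le_sum fun n _ => ?_)
        refine mul_le_mul_of_nonneg_left (hC n (Nat.cast_nonneg n) _ fun t ht => ?_)
          (Real.exp_pos _).le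
        exact ⟨hFm t (Finset.mem_filter.1 ht).1, (Finset.mem_filter.1 ht).2⟩
    _ ≤ _ := by
        have := hs.sum_le_tsum (Finset.range M) (fun n _ => by positivity)
        linarith

end

end Q194.GC
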