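import Pool.Agent.Q194.GC.E

/-!
# The Hermite coefficients through the jumps
-/

namespace Q194.GC

open MeasureTheory ProbabilityTheory Filter Set
open scoped Topology

lemma int_gg (n : ℕ) (s B : ℝ) : ∫ x in s..B, H (n + 1) x * ph x = gg n s - gg n B := by
  have h := intervalIntegral.integral_eq_sub_of_hasDerivAt (f := fun x => -gg n x)
    (f' := fun x => H (n + 1) x * ph x) (a := s) (b := B)
    (fun x _ => by
      have h := (gg_deriv n x).neg
      rw [neg_neg] at h
      exact h)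
    (Hph_int (n + 1)).intervalIntegrable
  rw [h]
  ring

lemma H_bound (n : ℕ) (t : ℝ) :
    |H n t| ≤ (1 + 3 ^ n * (√(1 - (1 / 3 : ℝ) ^ 2))⁻¹) * Real.exp (t ^ 2 / 4) := by
  have h := sumH (r := 1 / 3) (by norm_num) (by norm_num) t
  have h2 := le_hasSum h n fun k _ => by positivity
  rw [K_diag (by norm_num) (by norm_num)] at h2
  have e : t ^ 2 * (1 / 3) / (1 + 1 / 3) = t ^ 2 / 4 := by ring
  rw [e] at h2
  have h3 : H n t ^ 2 ≤ 3 ^ n * ((√(1 - (1 / 3 : ℝ) ^ 2))⁻¹ * Real.exp (t ^ 2 / 4)) := by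
    have h4 : H n t ^ 2 = 3 ^ n * (H n t ^ 2 * (1 / 3) ^ n) := by
      rw [one_div, inv_pow]
      field_simp
    rw [h4]
    gcongr
  have h5 : (1 : ℝ) ≤ Real.exp (t ^ 2 / 4) := Real.one_le_exp (by positivity)
  have h6 := sq_nonneg (|H n t| - 1)
  have h7 : |H n t| ^ 2 = H n t ^ 2 := sq_abs _
  nlinarith [abs_nonneg (H n t)]

lemma ph_le (t : ℝ) : ph t ≤ Real.exp (-t ^ 2 / 2) := by
  rw [ph_eq]
  have h1 : (1 : ℝ) ≤ √(2 * Real.pi) := by
    rw [Real.one_le_sqrt]
    linarith [Real.pi_gt_three]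
  have := inv_le_one_of_one_le₀ h1
  exact mul_le_of_le_one_left (Real.exp_pos _).le this

lemma Hph_bound (n : ℕ) (t : ℝ) :
    |H n t * ph t| ≤ (1 + 3 ^ n * (√(1 - (1 / 3 : ℝ) ^ 2))⁻¹) *
      Real.exp (-(23 / 100) * t ^ 2) := by
  rw [abs_mul, abs_of_pos (ph_pos t)]
  calc |H n t| * ph t ≤ ((1 + 3 ^ n * (√(1 - (1 / 3 : ℝ) ^ 2))⁻¹) * Real.exp (t ^ 2 / 4)) *
        Real.exp (-t ^ 2 / 2) :=
        mul_le_mul (H_bound n t) (ph_le t) (ph_pos t).le (by positivity)
    _ = (1 + 3 ^ n * (√(1 - (1 / 3 : ℝ) ^ 2))⁻¹) * Real.exp (t ^ 2 / 4 + -t ^ 2 / 2) := by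
        rw [mul_assoc, ← Real.exp_add]
    _ ≤ _ := by
        refine mul_le_mul_of_nonneg_left (Real.exp_le_exp.2 ?_) (by positivity)
        nlinarith [sq_nonneg t]

lemma gg_le (n : ℕ) (t : ℝ) : |gg n t| ≤ |H n t * ph t| := by
  unfold gg
  rw [abs_div]
  refine div_le_self (abs_nonneg _) ?_
  rw [abs_of_nonneg (Real.sqrt_nonneg _), Real.one_le_sqrt]
  have := Nat.cast_nonneg (α := ℝ) n
  linarith

section

variable {χ : ℝ → ℝ} (hχ : Measurable χ) (h1 : ∀ x, χ x = 1 ∨ χ x = -1)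
  (hfin : ∀ A B : ℝ, (TT χ ∩ Icc A B).Finite)

include hχ h1

lemma chiH_int (n : ℕ) : Integrable (fun x => χ x * (H n x * ph x)) :=
  (Hph_int n).bdd_mul hχ.aestronglyMeasurable (Eventually.of_forall fun x => by
    rw [Real.norm_eq_abs]; exact (chi_abs h1 x).le)

include hfin

lemma int_AB (n : ℕ) {A B : ℝ} (hA : A ∈ LL χ) (hB : B ∈ LL χ) (hAB : A < B) (F : Finset ℝ)
    (hF : ∀ t, t ∈ F ↔ t ∈ TT χ ∧ t ∈ Ioo A B) :
    ∫ x in A..B, χ x * (H (n + 1) x * ph x) =
      χ A * gg n A - χ B * gg n B + ∑ t ∈ F, 2 * ep χ t * gg n t := by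
  have hrep : ∀ x ∈ LL χ, x ∈ Icc A B → χ x = χ A + ∑ t ∈ F.filter (· < x), 2 * ep χ t :=
    fun x hx hx2 => repr hχ h1 hfin hA F hF _ x hx hx2.1 hx2.2 rfl
  have hf : ∀ a b : ℝ, IntervalIntegrable (fun x => H (n + 1) x * ph x) volume a b :=
    fun a b => (Hph_int (n + 1)).intervalIntegrable
  have hfi : ∀ t : ℝ, Integrable ((Ioi t).indicator fun x => H (n + 1) x * ph x) :=
    fun t => (Hph_int (n + 1)).indicator measurableSet_Ioi
  have e1 : ∫ x in A..B, χ x * (H (n + 1) x * ph x) =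
      ∫ x in A..B, (χ A * (H (n + 1) x * ph x) +
        ∑ t ∈ F, 2 * ep χ t * (Ioi t).indicator (fun x => H (n + 1) x * ph x) x) := by
    refine intervalIntegral.integral_congr_ae ?_
    filter_upwards [ae_LL hχ h1] with x hx hx2
    rw [uIoc_of_le hAB.le] at hx2
    rw [hrep x hx ⟨hx2.1.le, hx2.2⟩, add_mul, Finset.sum_mul, Finset.sum_filter]
    congr 1
    refine Finset.sum_congr rfl fun t _ => ?_
    by_cases htx : t < x
    · rw [if_pos htx, indicator_of_mem (show x ∈ Ioi t from htx)]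
    · rw [if_neg htx, indicator_of_notMem (show x ∉ Ioi t from htx), mul_zero]
  have e2 : ∀ t ∈ F, ∫ x in A..B, (Ioi t).indicator (fun x => H (n + 1) x * ph x) x =
      gg n t - gg n B := by
    intro t ht
    have ht2 := ((hF t).1 ht).2
    rw [intervalIntegral.integral_of_le hAB.le, setIntegral_indicator measurableSet_Ioi,
      Ioc_inter_Ioi, sup_eq_right.2 ht2.1.le, ← intervalIntegral.integral_of_le ht2.2.le, int_gg]
  rw [e1, intervalIntegral.integral_add ((hf A B).const_mul _), intervalIntegral.integral_const_mul,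
    int_gg, intervalIntegral.integral_finsetSum]
  · have e3 : ∀ t ∈ F, ∫ x in A..B, 2 * ep χ t *
        (Ioi t).indicator (fun x => H (n + 1) x * ph x) x = 2 * ep χ t * gg n t -
          2 * ep χ t * gg n B := by
      intro t ht
      rw [intervalIntegral.integral_const_mul, e2 t ht]
      ring
    rw [Finset.sum_congr rfl e3, Finset.sum_sub_distrib, ← Finset.sum_mul]
    have h5 := hrep B hB ⟨hAB.le, le_rfl⟩
    have h6 : F.filter (· < B) = F := by
      refine Finset.filter_true_of_mem fun t ht => ?_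
      exact ((hF t).1 ht).2.2
    rw [h6] at h5
    have h7 : ∑ t ∈ F, 2 * ep χ t = χ B - χ A := by linarith
    rw [h7]
    ring
  · intro t _
    exact ((hfi t).intervalIntegrable).const_mul _
  · have h9 : Integrable (fun x => ∑ t ∈ F, 2 * ep χ t *
        (Ioi t).indicator (fun x => H (n + 1) x * ph x) x) :=
      integrable_finsetSum _ fun t _ => (hfi t).const_mul _
    exact h9.intervalIntegrable

omit hχ h1 hfin in
lemma Hph_summable (n : ℕ) (hs : Summable fun t : TT χ => Real.exp (-(23 / 100) * (t : ℝ) ^ 2)) :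
    Summable fun t : TT χ => |H n t * ph t| :=
  Summable.of_nonneg_of_le (fun t => abs_nonneg _) (fun t => Hph_bound n t) (hs.mul_left _)

omit hχ h1 hfin in
lemma gg_summable (n : ℕ) (hs : Summable fun t : TT χ => Real.exp (-(23 / 100) * (t : ℝ) ^ 2)) :
    Summable fun t : TT χ => 2 * ep χ t * gg n t := by
  refine Summable.of_norm_bounded ((Hph_summable n hs).mul_left 2) fun t => ?_
  rw [Real.norm_eq_abs, abs_mul, abs_mul, ep_abs, abs_two, mul_one]
  exact mul_le_mul_of_nonneg_left (gg_le n t) zero_le_two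

/-- the Hermite coefficients -/
theorem hc_jump (n : ℕ) (hs : Summable fun t : TT χ => Real.exp (-(23 / 100) * (t : ℝ) ^ 2)) :
    hc χ (n + 1) = ∑' t : TT χ, 2 * ep χ t * gg n t := by
  have hA : ∀ m : ℕ, ∃ w ∈ LL χ, w ∈ Ioo (-(m : ℝ) - 1) (-(m : ℝ)) :=
    fun m => exists_LL hχ h1 (by linarith)
  have hB : ∀ m : ℕ, ∃ w ∈ LL χ, w ∈ Ioo (m : ℝ) ((m : ℝ) + 1) :=
    fun m => exists_LL hχ h1 (by linarith)
  choose A hA1 hA2 using hA
  choose B hB1 hB2 using hB
  have hcast : Tendsto (fun m : ℕ => (m : ℝ)) atTop atTop := tendsto_natCast_atTop_atTop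
  have hAt : Tendsto A atTop atBot :=
    tendsto_atBot_mono (fun m => (hA2 m).2.le) (tendsto_neg_atTop_atBot.comp hcast)
  have hBt : Tendsto B atTop atTop := tendsto_atTop_mono (fun m => (hB2 m).1.le) hcast
  have hT1 := intervalIntegral_tendsto_integral (chiH_int hχ h1 (n + 1)) hAt hBt
  rw [← hc_eq] at hT1
  have hbd : ∀ C : ℕ → ℝ, Tendsto (fun m => gg n (C m)) atTop (𝓝 0) →
      Tendsto (fun m => χ (C m) * gg n (C m)) atTop (𝓝 0) := by
    intro C hC
    rw [tendsto_zero_iff_abs_tendsto_zero] at hC ⊢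
    refine hC.congr fun m => ?_
    simp only [Function.comp]
    rw [abs_mul, chi_abs h1, one_mul]
  have hL1 := hbd A ((gg_bot n).comp hAt)
  have hL2 := hbd B ((gg_top n).comp hBt)
  have hfin2 : ∀ m : ℕ, (TT χ ∩ Ioo (A m) (B m)).Finite := fun m =>
    (hfin (A m) (B m)).subset (inter_subset_inter_right _ Ioo_subset_Icc_self)
  set F : ℕ → Finset ℝ := fun m => (hfin2 m).toFinset with hF
  have hFm : ∀ m t, t ∈ F m ↔ t ∈ TT χ ∧ t ∈ Ioo (A m) (B m) := fun m t =>
    Set.Finite.mem_toFinset _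
  have hlt : ∀ m, A m < B m := fun m => by
    have := (hA2 m).2
    have := (hB2 m).1
    have := Nat.cast_nonneg (α := ℝ) m
    linarith
  classical
  have hL3 : Tendsto (fun m => ∑ t ∈ F m, 2 * ep χ t * gg n t) atTop
      (𝓝 (∑' t : TT χ, 2 * ep χ t * gg n t)) := by
    have hS := (gg_summable n hs).hasSum
    have hFt : Tendsto (fun m => (F m).subtype (· ∈ TT χ)) atTop atTop := by
      rw [tendsto_atTop]
      intro S
      have : ∀ᶠ m in atTop, ∀ t ∈ S, t ∈ (F m).subtype (· ∈ TT χ) := by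
        rw [Finset.eventually_all]
        intro t _
        filter_upwards [hAt.eventually (eventually_lt_atBot (t : ℝ)),
          hBt.eventually (eventually_gt_atTop (t : ℝ))] with m h1 h2
        rw [Finset.mem_subtype, hFm]
        exact ⟨t.2, h1, h2⟩
      filter_upwards [this] with m hm
      exact fun t ht => hm t ht
    refine (hS.comp hFt).congr fun m => ?_
    simp only [Function.comp]
    exact Finset.sum_subtype_of_mem (fun t => 2 * ep χ t * gg n t) fun x hx => ((hFm m x).1 hx).1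
  have hT2 := (hL1.sub hL2).add hL3
  rw [sub_zero, zero_add] at hT2
  refine tendsto_nhds_unique hT1 (hT2.congr fun m => ?_)
  exact (int_AB hχ h1 hfin n (hA1 m) (hB1 m) (hlt m) (F m) (hFm m)).symm

end

end Q194.GC
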