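import Pool.Agent.Q194.GC.P
import Pool.Agent.Q194.GC.C2

/-!
# Conclusion
-/

namespace Q194.GC

open MeasureTheory ProbabilityTheory Filter Set
open scoped Topology

/-- the weights -/
noncomputable def ww (χ : ℝ → ℝ) (t : ℝ) : ℝ := ep χ t * Real.exp (-t ^ 2 / 4)

lemma ww_abs (χ : ℝ → ℝ) (t : ℝ) : |ww χ t| = Real.exp (-t ^ 2 / 4) := by
  rw [ww, abs_mul, ep_abs, one_mul, abs_of_pos (Real.exp_pos _)]

section

variable {χ : ℝ → ℝ} (hs : Summable fun t : TT χ => Real.exp (-(23 / 100) * (t : ℝ) ^ 2))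

include hs

lemma countable_TT : Countable (TT χ) := by
  have h := hs.countable_support
  have h2 : Function.support (fun t : TT χ => Real.exp (-(23 / 100) * (t : ℝ) ^ 2)) = univ := by
    ext t
    simp [(Real.exp_pos _).ne']
  rw [h2] at h
  exact countable_univ_iff.1 h

lemma ww_summable : Summable fun t : TT χ => ‖ww χ t‖ := by
  refine Summable.of_nonneg_of_le (fun t => norm_nonneg _) (fun t => ?_) hs
  rw [Real.norm_eq_abs, ww_abs]
  apply Real.exp_le_exp.2
  nlinarith [sq_nonneg (t : ℝ)]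

lemma wcos_summable (y : ℝ) : Summable fun t : TT χ => ‖ww χ t * Real.cos (t * y)‖ := by
  refine Summable.of_nonneg_of_le (fun t => norm_nonneg _) (fun t => ?_) (ww_summable hs)
  rw [norm_mul]
  exact mul_le_of_le_one_right (norm_nonneg _) (Real.abs_cos_le_one _)

lemma wsin_summable (y : ℝ) : Summable fun t : TT χ => ‖ww χ t * Real.sin (t * y)‖ := by
  refine Summable.of_nonneg_of_le (fun t => norm_nonneg _) (fun t => ?_) (ww_summable hs)
  rw [norm_mul]
  exact mul_le_of_le_one_right (norm_nonneg _) (Real.abs_sin_le_one _)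

/-- the cosine transform -/
noncomputable def PP (χ : ℝ → ℝ) (y : ℝ) : ℝ := ∑' t : TT χ, ww χ t * Real.cos (t * y)

/-- the sine transform -/
noncomputable def QQ (χ : ℝ → ℝ) (y : ℝ) : ℝ := ∑' t : TT χ, ww χ t * Real.sin (t * y)

lemma sq_formulas {D a : ℝ} (hid : ∀ τ ∈ Ioo (1 / 2 : ℝ) 1,
    ∑' z : TT χ × TT χ, ww χ z.1 * ww χ z.2 *
      Real.exp (-(((z.1 : ℝ) - z.2) ^ 2 / τ + τ * ((z.1 : ℝ) + z.2) ^ 2) / 8) =
    D * Real.exp (-(τ * a ^ 2) / 2)) (y : ℝ) :
    PP χ y ^ 2 = D * Real.cos (a * y) ^ 2 ∧ QQ χ y ^ 2 = D * Real.sin (a * y) ^ 2 := by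
  have hcount := countable_TT hs
  have hww : Summable fun z : TT χ × TT χ => ‖((ww χ z.1 * ww χ z.2 : ℝ) : ℂ)‖ := by
    have := (ww_summable hs).mul_norm (ww_summable hs)
    refine this.congr fun z => ?_
    rw [Complex.norm_real]
  have hid' : ∀ τ ∈ Ioo (1 / 2 : ℝ) 1, ∑' z : TT χ × TT χ, ((ww χ z.1 * ww χ z.2 : ℝ) : ℂ) *
      ker (((z.1 : ℝ) - z.2) ^ 2 / 8) (((z.1 : ℝ) + z.2) ^ 2 / 8) (τ : ℂ) =
      (D : ℂ) * ker 0 (a ^ 2 / 2) τ := by
    intro τ hτ
    have h := congrArg (fun x : ℝ => (x : ℂ)) (hid τ hτ)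
    simp only [Complex.ofReal_tsum] at h
    refine (tsum_congr fun z => ?_).trans (h.trans ?_)
    · rw [ker, Complex.ofReal_mul _ (Real.exp _), Complex.ofReal_exp]
      congr 2
      push_cast
      ring
    · rw [ker, Complex.ofReal_mul, Complex.ofReal_exp]
      congr 2
      push_cast
      ring
  have hα : ∀ z : TT χ × TT χ, 0 ≤ ((z.1 : ℝ) - z.2) ^ 2 / 8 := fun z => by positivity
  have hβ : ∀ z : TT χ × TT χ, 0 ≤ ((z.1 : ℝ) + z.2) ^ 2 / 8 := fun z => by positivity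
  have hid2 : ∀ τ : ℂ, 0 < τ.re → ∑' z : TT χ × TT χ, ((ww χ z.1 * ww χ z.2 : ℝ) : ℂ) *
      ker (((z.1 : ℝ) - z.2) ^ 2 / 8) (((z.1 : ℝ) + z.2) ^ 2 / 8) τ =
      (D : ℂ) * ker 0 (a ^ 2 / 2) τ := fun τ hτ => continuation hww hα hβ hid' hτ
  set g : ℝ → ℂ := fun x => ((Real.cos (y * √(8 * x)) : ℝ) : ℂ) with hg
  have hg1 : ∀ x, ‖g x‖ ≤ 1 := fun x => by
    rw [hg]
    simp only
    rw [Complex.norm_real]
    exact Real.abs_cos_le_one _
  have hgv : ∀ u : ℝ, g (u ^ 2 / 8) = ((Real.cos (u * y) : ℝ) : ℂ) := by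
    intro u
    rw [hg]
    simp only
    have e1 : 8 * (u ^ 2 / 8) = u ^ 2 := by ring
    rw [e1, Real.sqrt_sq_eq_abs]
    rcases abs_choice u with h | h
    · rw [h, mul_comm]
    · rw [h, mul_neg, Real.cos_neg, mul_comm]
  have m1 := means_left hww hα hβ (by positivity : (0 : ℝ) ≤ a ^ 2 / 2) hid2 g hg1
  have m2 := means_right hww hα hβ le_rfl hid2 g hg1
  simp only [hgv] at m1 m2
  have g0 : g 0 = ((1 : ℝ) : ℂ) := by
    rw [hg]; simp
  have gb : g (a ^ 2 / 2) = ((Real.cos (2 * a * y) : ℝ) : ℂ) := by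
    have := hgv (2 * a)
    rw [← this]
    congr 1
    ring
  rw [g0] at m1
  rw [gb] at m2
  have m1' : ∑' z : TT χ × TT χ, ww χ z.1 * ww χ z.2 * Real.cos (((z.1 : ℝ) - z.2) * y) = D := by
    rw [← Complex.ofReal_inj, Complex.ofReal_tsum]
    rw [Complex.ofReal_one, mul_one] at m1
    rw [← m1]
    refine tsum_congr fun z => ?_
    rw [Complex.ofReal_mul _ (Real.cos _)]
  have m2' : ∑' z : TT χ × TT χ, ww χ z.1 * ww χ z.2 * Real.cos (((z.1 : ℝ) + z.2) * y) =
      D * Real.cos (2 * a * y) := by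
    rw [← Complex.ofReal_inj, Complex.ofReal_tsum, Complex.ofReal_mul D, ← m2]
    refine tsum_congr fun z => ?_
    rw [Complex.ofReal_mul _ (Real.cos _)]
  have hP : PP χ y ^ 2 = ∑' z : TT χ × TT χ,
      ww χ z.1 * Real.cos (z.1 * y) * (ww χ z.2 * Real.cos (z.2 * y)) := by
    rw [sq, PP, tsum_mul_tsum_of_summable_norm (wcos_summable hs y) (wcos_summable hs y)]
  have hQ : QQ χ y ^ 2 = ∑' z : TT χ × TT χ,
      ww χ z.1 * Real.sin (z.1 * y) * (ww χ z.2 * Real.sin (z.2 * y)) := by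
    rw [sq, QQ, tsum_mul_tsum_of_summable_norm (wsin_summable hs y) (wsin_summable hs y)]
  have sP : Summable fun z : TT χ × TT χ =>
      ww χ z.1 * Real.cos (z.1 * y) * (ww χ z.2 * Real.cos (z.2 * y)) :=
    ((wcos_summable hs y).mul_norm (wcos_summable hs y)).of_norm
  have sQ : Summable fun z : TT χ × TT χ =>
      ww χ z.1 * Real.sin (z.1 * y) * (ww χ z.2 * Real.sin (z.2 * y)) :=
    ((wsin_summable hs y).mul_norm (wsin_summable hs y)).of_norm
  have e1 : PP χ y ^ 2 + QQ χ y ^ 2 = D := by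
    rw [hP, hQ, ← sP.tsum_add sQ, ← m1']
    refine tsum_congr fun z => ?_
    rw [sub_mul, Real.cos_sub]
    ring
  have e2 : PP χ y ^ 2 - QQ χ y ^ 2 = D * Real.cos (2 * a * y) := by
    rw [hP, hQ, ← sP.tsum_sub sQ, ← m2']
    refine tsum_congr fun z => ?_
    rw [add_mul, Real.cos_add]
    ring
  have e3 : Real.cos (2 * a * y) = 2 * Real.cos (a * y) ^ 2 - 1 := by
    rw [mul_assoc, Real.cos_two_mul]
  have e4 := Real.sin_sq_add_cos_sq (a * y)
  rw [e3] at e2
  constructor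
  · linarith
  · have : Real.sin (a * y) ^ 2 = 1 - Real.cos (a * y) ^ 2 := by linarith
    rw [this]
    linarith

/-- the exponential transform -/
noncomputable def Ec (χ : ℝ → ℝ) (z : ℂ) : ℂ :=
  ∑' t : TT χ, (ww χ t : ℂ) * Complex.exp ((t : ℝ) * z * Complex.I)

lemma Ec_diff : Differentiable ℂ (Ec χ) := by
  intro z
  set R : ℝ := ‖z‖ + 1 with hR
  have hu : Summable fun t : TT χ => Real.exp (25 / 2 * R ^ 2) *
      Real.exp (-(23 / 100) * (t : ℝ) ^ 2) := hs.mul_left _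
  have h := Complex.differentiableOn_tsum_of_summable_norm (U := Metric.ball 0 R)
    (F := fun (t : TT χ) (z : ℂ) => (ww χ t : ℂ) * Complex.exp ((t : ℝ) * z * Complex.I)) hu
    (fun t => by fun_prop) Metric.isOpen_ball (fun t w hw => by
      rw [norm_mul, Complex.norm_exp, Complex.norm_real, Real.norm_eq_abs, ww_abs,
        ← Real.exp_add, ← Real.exp_add]
      apply Real.exp_le_exp.2
      have h1 : ((t : ℝ) * w * Complex.I).re = -((t : ℝ) * w.im) := by simp
      rw [h1]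
      have hw' : ‖w‖ < R := by simpa using hw
      have h2 : |w.im| ≤ R := (Complex.abs_im_le_norm w).trans hw'.le
      have h3 : -((t : ℝ) * w.im) ≤ |(t : ℝ)| * R := by
        calc -((t : ℝ) * w.im) ≤ |(t : ℝ) * w.im| := neg_le_abs _
          _ = |(t : ℝ)| * |w.im| := abs_mul _ _
          _ ≤ |(t : ℝ)| * R := by gcongr
      have h4 : |(t : ℝ)| ^ 2 = (t : ℝ) ^ 2 := sq_abs _
      nlinarith [sq_nonneg (|(t : ℝ)| - 25 * R)])
  have hz : z ∈ Metric.ball (0 : ℂ) R := by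
    rw [Metric.mem_ball, dist_zero_right, hR]
    linarith
  exact (h z hz).differentiableAt (Metric.isOpen_ball.mem_nhds hz)

lemma Ec_real (y : ℝ) : Ec χ y = PP χ y + QQ χ y * Complex.I := by
  have s1 : Summable fun t : TT χ => ((ww χ t * Real.cos (t * y) : ℝ) : ℂ) := by
    have := (wcos_summable hs y).of_norm
    exact_mod_cast this
  have s2 : Summable fun t : TT χ => ((ww χ t * Real.sin (t * y) : ℝ) : ℂ) := by
    have := (wsin_summable hs y).of_norm
    exact_mod_cast this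
  rw [PP, QQ, Complex.ofReal_tsum, Complex.ofReal_tsum, ← tsum_mul_right,
    ← s1.tsum_add (s2.mul_right _), Ec]
  refine tsum_congr fun t => ?_
  rw [← Complex.ofReal_mul, Complex.exp_mul_I, ← Complex.ofReal_cos, ← Complex.ofReal_sin]
  push_cast
  ring

lemma Ec_neg (y : ℝ) : Ec χ (-y) = PP χ y - QQ χ y * Complex.I := by
  have h := Ec_real hs (-y)
  have h1 : PP χ (-y) = PP χ y := by
    unfold PP
    refine tsum_congr fun t => ?_
    rw [mul_neg, Real.cos_neg]
  have h2 : QQ χ (-y) = -QQ χ y := by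
    unfold QQ
    rw [← tsum_neg]
    refine tsum_congr fun t => ?_
    rw [mul_neg, Real.sin_neg]
    ring
  rw [h1, h2] at h
  rw [Complex.ofReal_neg] at h
  rw [h]
  push_cast
  ring

/-- sign rigidity of the transforms -/
lemma rigid {D a : ℝ} (hD : 0 ≤ D)
    (h : ∀ y, PP χ y ^ 2 = D * Real.cos (a * y) ^ 2 ∧ QQ χ y ^ 2 = D * Real.sin (a * y) ^ 2) :
    ((∀ y, PP χ y = √D * Real.cos (a * y)) ∨ (∀ y, PP χ y = -(√D * Real.cos (a * y)))) ∧
    ((∀ y, QQ χ y = √D * Real.sin (a * y)) ∨ (∀ y, QQ χ y = -(√D * Real.sin (a * y)))) := by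
  have hE := Ec_diff hs
  have hEn : Differentiable ℂ fun z => Ec χ (-z) := hE.comp differentiable_neg
  set U : Set ℂ := {z | z.im = 0} with hU
  have hUc : IsPreconnected U := by
    have : Convex ℝ U := by
      intro x hx y hy s t _ _ _
      simp only [hU, mem_setOf_eq] at hx hy ⊢
      simp [hx, hy]
    exact this.isPreconnected
  have hmem : ∀ y : ℝ, (y : ℂ) ∈ U := fun y => by simp [hU]
  have hreal : ∀ z ∈ U, z = ((z.re : ℝ) : ℂ) := fun z hz => by
    apply Complex.ext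
    · simp
    · simpa [hU] using hz
  set Pc : ℂ → ℂ := fun z => (Ec χ z + Ec χ (-z)) / 2 with hPc
  set Qc : ℂ → ℂ := fun z => (Ec χ z - Ec χ (-z)) / (2 * Complex.I) with hQc
  have dP : Differentiable ℂ Pc := (hE.add hEn).div_const _
  have dQ : Differentiable ℂ Qc := (hE.sub hEn).div_const _
  have vP : ∀ y : ℝ, Pc y = PP χ y := by
    intro y
    rw [hPc]
    simp only
    rw [Ec_real hs, Ec_neg hs]
    ring
  have vQ : ∀ y : ℝ, Qc y = QQ χ y := by
    intro y
    rw [hQc]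
    simp only
    rw [Ec_real hs, Ec_neg hs]
    have : (2 : ℂ) * Complex.I ≠ 0 := by simp
    rw [div_eq_iff this]
    ring
  have dc : Differentiable ℂ fun z : ℂ => ((√D : ℝ) : ℂ) * Complex.cos (a * z) := by fun_prop
  have ds : Differentiable ℂ fun z : ℂ => ((√D : ℝ) : ℂ) * Complex.sin (a * z) := by fun_prop
  have hsq := Real.mul_self_sqrt hD
  constructor
  · have h1 := AnalyticOnNhd.eq_zero_or_eq_zero_of_mul_eq_zero (U := U)
      ((dP.sub dc).differentiableOn.analyticOnNhd isOpen_univ |>.mono (subset_univ U))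
      ((dP.add dc).differentiableOn.analyticOnNhd isOpen_univ |>.mono (subset_univ U))
      (fun z hz => by
        rw [hreal z hz]
        simp only [Pi.sub_apply, Pi.add_apply]
        rw [vP, ← Complex.ofReal_mul, ← Complex.ofReal_cos, ← Complex.ofReal_mul,
          ← Complex.ofReal_sub, ← Complex.ofReal_add, ← Complex.ofReal_mul,
          Complex.ofReal_eq_zero]
        have := (h z.re).1
        linear_combination this - Real.cos (a * z.re) ^ 2 * hsq) hUc
    rcases h1 with h1 | h1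
    · left
      intro y
      have := h1 y (hmem y)
      simp only [Pi.sub_apply] at this
      rw [vP, ← Complex.ofReal_mul, ← Complex.ofReal_cos, ← Complex.ofReal_mul,
        ← Complex.ofReal_sub, Complex.ofReal_eq_zero] at this
      linarith
    · right
      intro y
      have := h1 y (hmem y)
      simp only [Pi.add_apply] at this
      rw [vP, ← Complex.ofReal_mul, ← Complex.ofReal_cos, ← Complex.ofReal_mul,
        ← Complex.ofReal_add, Complex.ofReal_eq_zero] at this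
      linarith
  · have h1 := AnalyticOnNhd.eq_zero_or_eq_zero_of_mul_eq_zero (U := U)
      ((dQ.sub ds).differentiableOn.analyticOnNhd isOpen_univ |>.mono (subset_univ U))
      ((dQ.add ds).differentiableOn.analyticOnNhd isOpen_univ |>.mono (subset_univ U))
      (fun z hz => by
        rw [hreal z hz]
        simp only [Pi.sub_apply, Pi.add_apply]
        rw [vQ, ← Complex.ofReal_mul, ← Complex.ofReal_sin, ← Complex.ofReal_mul,
          ← Complex.ofReal_sub, ← Complex.ofReal_add, ← Complex.ofReal_mul,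
          Complex.ofReal_eq_zero]
        have := (h z.re).2
        linear_combination this - Real.sin (a * z.re) ^ 2 * hsq) hUc
    rcases h1 with h1 | h1
    · left
      intro y
      have := h1 y (hmem y)
      simp only [Pi.sub_apply] at this
      rw [vQ, ← Complex.ofReal_mul, ← Complex.ofReal_sin, ← Complex.ofReal_mul,
        ← Complex.ofReal_sub, Complex.ofReal_eq_zero] at this
      linarith
    · right
      intro y
      have := h1 y (hmem y)
      simp only [Pi.add_apply] at this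
      rw [vQ, ← Complex.ofReal_mul, ← Complex.ofReal_sin, ← Complex.ofReal_mul,
        ← Complex.ofReal_add, Complex.ofReal_eq_zero] at this
      linarith

/-- the transform is a single exponential -/
lemma single {D a : ℝ} (hD : 0 ≤ D)
    (h : ∀ y, PP χ y ^ 2 = D * Real.cos (a * y) ^ 2 ∧ QQ χ y ^ 2 = D * Real.sin (a * y) ^ 2) :
    ∃ σ b : ℝ, |σ| = 1 ∧ b ^ 2 = a ^ 2 ∧ ∀ y : ℝ, Ec χ y =
      ((σ * √D : ℝ) : ℂ) * Complex.exp (((y * b : ℝ) : ℂ) * Complex.I) := by
  have key : ∀ σ b : ℝ, (∀ y, PP χ y = σ * √D * Real.cos (b * y)) →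
      (∀ y, QQ χ y = σ * √D * Real.sin (b * y)) → ∀ y : ℝ, Ec χ y =
      ((σ * √D : ℝ) : ℂ) * Complex.exp (((y * b : ℝ) : ℂ) * Complex.I) := by
    intro σ b h1 h2 y
    rw [Ec_real hs, h1, h2, Complex.exp_mul_I, ← Complex.ofReal_cos, ← Complex.ofReal_sin,
      mul_comm y b]
    push_cast
    ring
  obtain ⟨h1, h2⟩ := rigid hs hD h
  rcases h1 with h1 | h1 <;> rcases h2 with h2 | h2
  · exact ⟨1, a, by norm_num, rfl, key 1 a (fun y => by rw [h1, one_mul])
      (fun y => by rw [h2, one_mul])⟩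
  · exact ⟨1, -a, by norm_num, by ring, key 1 (-a)
      (fun y => by rw [h1, one_mul, neg_mul, Real.cos_neg])
      (fun y => by rw [h2, one_mul, neg_mul, Real.sin_neg]; ring)⟩
  · exact ⟨-1, -a, by norm_num, by ring, key (-1) (-a)
      (fun y => by rw [h1, neg_mul a, Real.cos_neg]; ring)
      (fun y => by rw [h2, neg_mul a, Real.sin_neg]; ring)⟩
  · exact ⟨-1, a, by norm_num, rfl, key (-1) a (fun y => by rw [h1]; ring)
      (fun y => by rw [h2]; ring)⟩

/-- the value of the constant -/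
theorem D_value {D a : ℝ} (hD : 0 < D)
    (h : ∀ y, PP χ y ^ 2 = D * Real.cos (a * y) ^ 2 ∧ QQ χ y ^ 2 = D * Real.sin (a * y) ^ 2) :
    D = Real.exp (-a ^ 2 / 2) := by
  obtain ⟨σ, b, hσ, hb, hE⟩ := single hs hD.le h
  have hcount := countable_TT hs
  have hc : Summable fun t : TT χ => ‖(ww χ t : ℂ)‖ := by
    refine (ww_summable hs).congr fun t => ?_
    rw [Complex.norm_real]
  have hlim : Tendsto (fun L : ℝ => ∑' t : TT χ, (ww χ t : ℂ) *
      Complex.exp (((L * (t : ℝ) : ℝ) : ℂ) * Complex.I) -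
      ((σ * √D : ℝ) : ℂ) * Complex.exp (((L * b : ℝ) : ℂ) * Complex.I)) atTop (𝓝 0) := by
    refine tendsto_const_nhds.congr fun L => ?_
    have := hE L
    rw [← this, Ec, eq_comm, sub_eq_zero]
    refine tsum_congr fun t => ?_
    congr 2
    push_cast
    ring
  have h1 := coeff_eq hc (fun t : TT χ => (t : ℝ)) hlim b
  rw [if_pos rfl] at h1
  have hne : ((σ * √D : ℝ) : ℂ) ≠ 0 := by
    rw [Complex.ofReal_ne_zero]
    have : σ ≠ 0 := by
      rintro rfl
      simp at hσ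
    exact mul_ne_zero this (Real.sqrt_pos.2 hD).ne'
  have hbT : b ∈ TT χ := by
    by_contra hb'
    apply hne
    rw [← h1]
    have : ∀ t : TT χ, (if (t : ℝ) = b then (ww χ t : ℂ) else 0) = 0 := by
      intro t
      rw [if_neg]
      intro h
      exact hb' (h ▸ t.2)
    simp only [this, tsum_zero]
  rw [tsum_eq_single (⟨b, hbT⟩ : TT χ)] at h1
  · rw [if_pos rfl, Complex.ofReal_inj] at h1
    have h2 := congrArg abs h1
    rw [ww_abs, abs_mul, hσ, one_mul, abs_of_nonneg (Real.sqrt_nonneg _)] at h2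
    have h3 := Real.mul_self_sqrt hD.le
    rw [← h3, ← h2, ← Real.exp_add]
    congr 1
    simp only
    rw [hb]
    ring
  · intro t ht
    rw [if_neg]
    intro h
    exact ht (Subtype.ext h)

end

/-- The main theorem. -/
theorem main {p a : ℝ} (hp0 : 0 < p) (hp1 : p < 1) (hp : p ≠ 1 / 2) {χ : ℝ → ℝ}
    (hχ : Measurable χ) (h1 : ∀ x, χ x = 1 ∨ χ x = -1) :
    ∃ ρ ∈ Ioc (0 : ℝ) 1, corr χ ρ ≠ psi p a ρ := by
  by_contra hcon
  push Not at hcon
  have hpi := Real.pi_pos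
  have hph := ph_pos a
  set c : ℝ := (cst p a)⁻¹ with hc
  have hc0 : 0 < c := by
    rw [hc]
    refine inv_pos.2 ?_
    unfold cst
    exact div_pos (mul_pos hp0 (by linarith)) (pow_pos hph 2)
  -- value at one
  have hone : corr χ 1 = 1 := by
    unfold corr
    have : ∀ x z : ℝ, χ x * χ (1 * x + √(1 - 1 ^ 2) * z) = 1 := by
      intro x z
      have e : (1 : ℝ) * x + √(1 - 1 ^ 2) * z = x := by norm_num
      rw [e]
      rcases h1 x with h | h <;> rw [h] <;> norm_num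
    simp only [this]
    simp
  have hS1 : c * Ser a 1 = 1 := by
    have := hcon 1 ⟨by norm_num, le_rfl⟩
    rw [hone, psi_eq] at this
    exact this.symm
  set κ : ℝ := c / (4 * ph a ^ 2) with hκ
  have hκ0 : 0 ≤ κ := by positivity
  have hval : ∀ θ ∈ Ioo 0 (Real.pi / 2), ∃ ξ ∈ Ioo 0 θ, 1 - corr χ (Real.cos θ) =
      κ * (θ * (2 / Real.pi * Real.exp (-a ^ 2 / (1 + Real.cos ξ)))) := by
    intro θ hθ
    obtain ⟨ξ, hξ, he⟩ := ser_theta a hθ.1 hθ.2
    refine ⟨ξ, hξ, ?_⟩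
    rw [← he, hcon (Real.cos θ) ⟨(cos_mem hθ.1 hθ.2).1, (cos_mem hθ.1 hθ.2).2.le⟩,
      psi_eq, hκ, ← hc]
    have e1 : c / (4 * ph a ^ 2) * (4 * ph a ^ 2 * (Ser a 1 - Ser a (Real.cos θ))) =
        c * (Ser a 1 - Ser a (Real.cos θ)) := by
      field_simp
    rw [e1]
    linarith
  have hhi : ∀ θ ∈ Ioo 0 (Real.pi / 2), 1 - corr χ (Real.cos θ) ≤
      κ * (θ * (2 / Real.pi * Real.exp (-a ^ 2 / 2))) := by
    intro θ hθ
    obtain ⟨ξ, hξ, he⟩ := hval θ hθ
    rw [he]
    have := (prof a hξ.1.le hξ.2.le hθ.2).2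
    have := hθ.1
    gcongr
  have hlo : ∀ θ ∈ Ioo 0 (Real.pi / 2), κ * (θ * (2 / Real.pi *
      Real.exp (-a ^ 2 / (1 + Real.cos θ)))) ≤ 1 - corr χ (Real.cos θ) := by
    intro θ hθ
    obtain ⟨ξ, hξ, he⟩ := hval θ hθ
    rw [he]
    have := (prof a hξ.1.le hξ.2.le hθ.2).1
    have := hθ.1
    gcongr
  have hfin : ∀ A B : ℝ, (TT χ ∩ Icc A B).Finite := by
    refine TT_finite hχ h1 (fun R hR => hB_of_up hχ h1
      (C0 := κ * (2 / Real.pi * Real.exp (-a ^ 2 / 2))) (fun θ hθ => ?_) R hR)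
    have := hhi θ hθ
    linarith
  have hs := jump_summable hχ h1 hfin hκ0 hhi hlo
  have hyp : ∀ ρ ∈ Ioo (0 : ℝ) 1, corr χ ρ = c * Ser a ρ := by
    intro ρ hρ
    rw [hcon ρ ⟨hρ.1, hρ.2.le⟩, psi_eq]
  set D : ℝ := Real.pi / 2 * c * Real.exp (a ^ 2 / 2) with hD
  have hD0 : 0 < D := by positivity
  have hsq := sq_formulas hs (D := D) (a := a) fun τ hτ => by
    have := tau_identity hχ h1 hfin hs hyp hτ.1 hτ.2
    exact this
  have hDv := D_value hs hD0 hsq
  -- conclusion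
  have hcv : c * (p * (1 - p)) = ph a ^ 2 := by
    rw [hc, cst, show gaussianPDFReal 0 1 a = ph a from rfl, inv_div,
      div_mul_cancel₀ _ (mul_pos hp0 (by linarith)).ne']
  have hph2 : ph a ^ 2 = (2 * Real.pi)⁻¹ * Real.exp (-a ^ 2) := by
    rw [ph_eq, mul_pow, inv_pow, Real.sq_sqrt (by positivity), ← Real.exp_nat_mul]
    congr 2
    push_cast
    ring
  have hfinal : 4 * (p * (1 - p)) = 1 := by
    have e1 : D * (p * (1 - p)) = Real.pi / 2 * Real.exp (a ^ 2 / 2) * ph a ^ 2 := by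
      rw [hD, ← hcv]; ring
    have e2 : Real.exp (a ^ 2 / 2) * Real.exp (-a ^ 2) = Real.exp (-a ^ 2 / 2) := by
      rw [← Real.exp_add]; congr 1; ring
    rw [hph2] at e1
    have e3 : Real.pi / 2 * Real.exp (a ^ 2 / 2) * ((2 * Real.pi)⁻¹ * Real.exp (-a ^ 2)) =
        1 / 4 * Real.exp (-a ^ 2 / 2) := by
      rw [← e2]
      field_simp
      norm_num
    rw [e3, hDv] at e1
    have hne := (Real.exp_pos (-a ^ 2 / 2)).ne'
    have e4 : Real.exp (-a ^ 2 / 2) * (p * (1 - p)) = Real.exp (-a ^ 2 / 2) * (1 / 4) := by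
      rw [e1]; ring
    have := mul_left_cancel₀ hne e4
    linarith
  have : (p - 1 / 2) ^ 2 = 0 := by nlinarith
  exact hp (by
    have := pow_eq_zero_iff (two_ne_zero) |>.1 this
    linarith)

end Q194.GC
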