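import Pool.Agent.Q194.GC.S

/-!
# Local finiteness of the jump set
-/

namespace Q194.GC

open MeasureTheory Filter Set
open scoped Topology

variable {χ : ℝ → ℝ} (hχ : Measurable χ) (h1 : ∀ x, χ x = 1 ∨ χ x = -1)

include hχ h1

/-- the averaged increment -/
noncomputable def VV (χ : ℝ → ℝ) (θ x : ℝ) : ℝ := uu χ (x + θ) - uu χ x - θ * χ x

omit hχ h1 in
lemma ts_pos {m : ℕ} (y : ℕ → ℝ) (hy : ∀ i < m, y i < y (i + 1)) : ∀ i ≤ m, y 0 ≤ y i := by
  intro i
  induction i with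
  | zero => intro _; exact le_rfl
  | succ i ih => intro hi; exact (ih (by omega)).trans (hy i (by omega)).le

lemma uu_cont : Continuous (uu χ) := intervalIntegral.continuous_primitive (chi_ii hχ h1) 0

lemma uu_ii (a b : ℝ) : IntervalIntegrable (uu χ) volume a b := (uu_cont hχ h1).intervalIntegrable a b

lemma VV_ii (θ a b : ℝ) : IntervalIntegrable (VV χ θ) volume a b := by
  unfold VV
  have hc := uu_cont hχ h1
  refine IntervalIntegrable.sub (Continuous.intervalIntegrable (by fun_prop) _ _) ?_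
  exact (chi_ii hχ h1 a b).const_mul θ

/-- the double primitive of the increment -/
noncomputable def EE (χ : ℝ → ℝ) (θ y : ℝ) : ℝ := ∫ s in (0 : ℝ)..θ, (uu χ (y + s) - uu χ y)

lemma EE_eq (θ y : ℝ) : EE χ θ y = (∫ s in y..(y + θ), uu χ s) - θ * uu χ y := by
  unfold EE
  have hc := uu_cont hχ h1
  rw [intervalIntegral.integral_sub (Continuous.intervalIntegrable (by fun_prop) _ _)
    intervalIntegrable_const, intervalIntegral.integral_comp_add_left (fun s => uu χ s) y]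
  simp

lemma int_VV (θ a b : ℝ) : ∫ x in a..b, VV χ θ x = EE χ θ b - EE χ θ a := by
  have hc := uu_cont hχ h1
  unfold VV
  rw [intervalIntegral.integral_sub (Continuous.intervalIntegrable (by fun_prop) _ _)
    ((chi_ii hχ h1 a b).const_mul θ), intervalIntegral.integral_sub
    (Continuous.intervalIntegrable (by fun_prop) _ _) (uu_ii hχ h1 _ _),
    intervalIntegral.integral_const_mul, ← uu_sub hχ h1,
    intervalIntegral.integral_comp_add_right (fun x => uu χ x) θ, EE_eq hχ h1, EE_eq hχ h1]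
  have e1 := intervalIntegral.integral_add_adjacent_intervals (uu_ii hχ h1 a b)
    (uu_ii hχ h1 b (b + θ))
  have e2 := intervalIntegral.integral_add_adjacent_intervals (uu_ii hχ h1 a (a + θ))
    (uu_ii hχ h1 (a + θ) (b + θ))
  linarith

omit hχ h1 in
lemma EE_small {y : ℝ} (hy : y ∈ LL χ) : ∀ᶠ θ in 𝓝[>] (0 : ℝ),
    ∀ s ∈ Icc 0 θ, |uu χ (y + s) - uu χ y - χ y * s| ≤ s / 4 := by
  have hd : HasDerivAt (uu χ) (χ y) y := hy
  have h2 := hd.isLittleO.def (show (0 : ℝ) < 1 / 4 by norm_num)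
  rw [Metric.eventually_nhds_iff] at h2
  obtain ⟨ε, hε, h3⟩ := h2
  filter_upwards [Ioo_mem_nhdsGT hε] with θ hθ s hs
  have h4 := h3 (y := y + s) (by
    rw [Real.dist_eq, add_sub_cancel_left, abs_of_nonneg hs.1]
    linarith [hs.2, hθ.2])
  simp only [add_sub_cancel_left, Real.norm_eq_abs, smul_eq_mul] at h4
  rw [abs_of_nonneg hs.1] at h4
  rw [mul_comm (χ y) s]
  linarith

lemma EE_close {y θ : ℝ} (hθ : 0 ≤ θ)
    (h : ∀ s ∈ Icc 0 θ, |uu χ (y + s) - uu χ y - χ y * s| ≤ s / 4) :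
    |EE χ θ y - χ y * (θ ^ 2 / 2)| ≤ θ ^ 2 / 8 := by
  have hc := uu_cont hχ h1
  have e1 : χ y * (θ ^ 2 / 2) = ∫ s in (0 : ℝ)..θ, χ y * s := by
    rw [intervalIntegral.integral_const_mul, integral_id]
    ring
  have hi1 : IntervalIntegrable (fun s => uu χ (y + s) - uu χ y) volume 0 θ :=
    Continuous.intervalIntegrable (by fun_prop) _ _
  have hi2 : IntervalIntegrable (fun s => χ y * s) volume 0 θ :=
    Continuous.intervalIntegrable (by fun_prop) _ _
  rw [e1]
  unfold EE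
  rw [← intervalIntegral.integral_sub hi1 hi2]
  have e2 : θ ^ 2 / 8 = ∫ s in (0 : ℝ)..θ, s / 4 := by
    rw [intervalIntegral.integral_div, integral_id]
    ring
  rw [e2]
  refine (intervalIntegral.abs_integral_le_integral_abs hθ).trans ?_
  refine intervalIntegral.integral_mono_on hθ (hi1.sub hi2).abs
    (Continuous.intervalIntegrable (by fun_prop) _ _) ?_
  intro s hs
  exact h s hs

/-- local finiteness of the jump set -/
theorem TT_finite (hB : ∀ R : ℝ, 0 < R → ∃ C : ℝ, ∀ᶠ θ in 𝓝[>] (0 : ℝ),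
    ∫ x in (-R)..R, |VV χ θ x| ≤ C * θ ^ 2) (A B : ℝ) : (TT χ ∩ Icc A B).Finite := by
  by_contra hinf
  have hinf' : (TT χ ∩ Icc A B).Infinite := hinf
  set R : ℝ := |A| + |B| + 2 with hR
  have hR0 : 0 < R := by positivity
  obtain ⟨C, hC⟩ := hB R hR0
  obtain ⟨m, hm⟩ := exists_nat_gt (2 * |C|)
  obtain ⟨F, hF, hcard⟩ := hinf'.exists_subset_card_eq (m + 1)
  set t := F.orderEmbOfFin hcard with ht
  have htm : ∀ i, t i ∈ TT χ ∩ Icc A B := fun i => hF (F.orderEmbOfFin_mem hcard i)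
  -- a separation constant
  obtain ⟨δ, hδ, hδ1, hsep⟩ : ∃ δ > 0, δ ≤ 1 ∧ ∀ i : Fin m, 2 * δ ≤ t i.succ - t i.castSucc := by
    have hfin : ∀ s : Finset (Fin m), ∃ δ > 0, δ ≤ (1 : ℝ) ∧
        ∀ i ∈ s, 2 * δ ≤ t i.succ - t i.castSucc := by
      intro s
      induction s using Finset.induction_on with
      | empty => exact ⟨1, one_pos, le_rfl, by simp⟩
      | insert a s ha ih =>
        obtain ⟨δ, hδ, h3, h4⟩ := ih
        have hlt : t a.castSucc < t a.succ := t.strictMono (Fin.castSucc_lt_succ)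
        refine ⟨min δ ((t a.succ - t a.castSucc) / 2), lt_min hδ (by linarith),
          (min_le_left _ _).trans h3, ?_⟩
        intro i hi
        rcases Finset.mem_insert.1 hi with rfl | hi
        · have := min_le_right δ ((t i.succ - t i.castSucc) / 2)
          linarith
        · have := min_le_left δ ((t a.succ - t a.castSucc) / 2)
          have := h4 i hi
          linarith
    obtain ⟨δ, h2, h3, h4⟩ := hfin Finset.univ
    exact ⟨δ, h2, h3, fun i => h4 i (Finset.mem_univ _)⟩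
  have hch : ∀ i : Fin (m + 1), ∃ y ∈ LL χ, |y - t i| < δ ∧ χ y = (-1) ^ (i : ℕ) := by
    intro i
    obtain ⟨x, hx, y, hy, hxt, hyt, hx1, hy1⟩ := (htm i).1 δ hδ
    rcases neg_one_pow_eq_or ℝ (i : ℕ) with h | h
    · exact ⟨x, hx, hxt, by rw [h, hx1]⟩
    · exact ⟨y, hy, hyt, by rw [h, hy1]⟩
  choose y' hyL hyt hyv using hch
  set y : ℕ → ℝ := fun i => if h : i < m + 1 then y' ⟨i, h⟩ else 0 with hy
  have hyv' : ∀ i ≤ m, χ (y i) = (-1) ^ i := by
    intro i hi
    simp only [hy, dif_pos (Nat.lt_succ_of_le hi)]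
    exact hyv _
  have hyL' : ∀ i ≤ m, y i ∈ LL χ := by
    intro i hi
    simp only [hy, dif_pos (Nat.lt_succ_of_le hi)]
    exact hyL _
  have hmono : ∀ i < m, y i < y (i + 1) := by
    intro i hi
    simp only [hy, dif_pos (show i < m + 1 by omega), dif_pos (show i + 1 < m + 1 by omega)]
    have a1 := (abs_lt.1 (hyt ⟨i, by omega⟩)).2
    have a2 := (abs_lt.1 (hyt ⟨i + 1, by omega⟩)).1
    have a3 := hsep ⟨i, hi⟩
    have e1 : (⟨i, hi⟩ : Fin m).succ = (⟨i + 1, by omega⟩ : Fin (m + 1)) := rfl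
    have e2 : (⟨i, hi⟩ : Fin m).castSucc = (⟨i, by omega⟩ : Fin (m + 1)) := rfl
    rw [e1, e2] at a3
    linarith
  have hyR : ∀ i ≤ m, y i ∈ Icc (-R) R := by
    intro i hi
    simp only [hy, dif_pos (Nat.lt_succ_of_le hi)]
    have a1 := abs_lt.1 (hyt ⟨i, Nat.lt_succ_of_le hi⟩)
    have a2 := (htm ⟨i, Nat.lt_succ_of_le hi⟩).2
    have := neg_abs_le A
    have := le_abs_self B
    have := abs_nonneg A
    have := abs_nonneg B
    constructor <;> linarith [a1.1, a1.2, a2.1, a2.2]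
  -- a good small angle
  have hsmall : ∀ᶠ θ in 𝓝[>] (0 : ℝ), ∀ i ∈ Finset.range (m + 1),
      ∀ s ∈ Icc 0 θ, |uu χ (y i + s) - uu χ (y i) - χ (y i) * s| ≤ s / 4 := by
    rw [eventually_all_finset]
    intro i hi
    exact EE_small (hyL' i (by rw [Finset.mem_range] at hi; omega))
  obtain ⟨θ, hθC, hθs, hθ0⟩ := (hC.and (hsmall.and self_mem_nhdsWithin)).exists
  have hθ0' : 0 < θ := hθ0
  have hclose : ∀ i ≤ m, |EE χ θ (y i) - χ (y i) * (θ ^ 2 / 2)| ≤ θ ^ 2 / 8 := fun i hi =>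
    EE_close hχ h1 hθ0'.le (hθs i (Finset.mem_range.2 (by omega)))
  have hstep : ∀ i < m, 3 / 4 * θ ^ 2 ≤ ∫ x in (y i)..(y (i + 1)), |VV χ θ x| := by
    intro i hi
    have a1 := hclose i (by omega)
    have a2 := hclose (i + 1) (by omega)
    rw [hyv' i (by omega)] at a1
    rw [hyv' (i + 1) (by omega), pow_succ] at a2
    have a3 := intervalIntegral.abs_integral_le_integral_abs (f := VV χ θ) (μ := volume)
      (hmono i hi).le
    rw [int_VV hχ h1] at a3
    refine le_trans ?_ a3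
    have a4 := abs_le.1 a1
    have a5 := abs_le.1 a2
    rcases neg_one_pow_eq_or ℝ i with h | h
    · rw [h] at a4 a5
      refine le_trans ?_ (neg_le_abs _)
      linarith [a4.1, a4.2, a5.1, a5.2]
    · rw [h] at a4 a5
      refine le_trans ?_ (le_abs_self _)
      linarith [a4.1, a4.2, a5.1, a5.2]
  have hsum : (m : ℝ) * (3 / 4 * θ ^ 2) ≤ ∫ x in (y 0)..(y m), |VV χ θ x| := by
    rw [← intervalIntegral.sum_integral_adjacent_intervals (a := y) (n := m)
      (fun k _ => (VV_ii hχ h1 θ _ _).abs)]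
    calc (m : ℝ) * (3 / 4 * θ ^ 2) = ∑ _i ∈ Finset.range m, 3 / 4 * θ ^ 2 := by simp
      _ ≤ _ := Finset.sum_le_sum fun i hi => hstep i (Finset.mem_range.1 hi)
  have h0m : y 0 ≤ y m := ts_pos y hmono m le_rfl
  have hlast : ∫ x in (y 0)..(y m), |VV χ θ x| ≤ ∫ x in (-R)..R, |VV χ θ x| :=
    intervalIntegral.integral_mono_interval (hyR 0 (by omega)).1 h0m (hyR m le_rfl).2
      (Eventually.of_forall fun x => abs_nonneg _) (VV_ii hχ h1 θ _ _).abs
  have h9 : (m : ℝ) * (3 / 4 * θ ^ 2) ≤ C * θ ^ 2 := hsum.trans (hlast.trans hθC)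
  have h10 : (m : ℝ) * (3 / 4) ≤ C := by
    have : 0 < θ ^ 2 := by positivity
    nlinarith
  have := le_abs_self C
  have := abs_nonneg C
  linarith

end Q194.GC
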