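import Pool.Agent.Q194.GC.B
import Pool.Agent.Q194.GC.S2

/-!
# The jump set is locally finite
-/

namespace Q194.GC

open MeasureTheory ProbabilityTheory Filter Set
open scoped Topology

variable {χ : ℝ → ℝ} (hχ : Measurable χ) (h1 : ∀ x, χ x = 1 ∨ χ x = -1)

/-- the conditional disagreement -/
noncomputable def gi (χ : ℝ → ℝ) (ρ x : ℝ) : ℝ :=
  ∫ z, (1 - χ x * χ (ρ * x + √(1 - ρ ^ 2) * z)) ∂G

include hχ h1

lemma chi_bdd_comp (f : ℝ → ℝ) (hf : Measurable f) : Integrable (fun z => χ (f z)) G :=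
  Integrable.of_bound (hχ.comp hf).aestronglyMeasurable 1
    (Eventually.of_forall fun z => by rw [Real.norm_eq_abs, chi_abs h1])

lemma gi_eq (ρ x : ℝ) : gi χ ρ x = 1 - χ x * ∫ z, χ (ρ * x + √(1 - ρ ^ 2) * z) ∂G := by
  unfold gi
  have hi := chi_bdd_comp hχ h1 (fun z => ρ * x + √(1 - ρ ^ 2) * z) (by fun_prop)
  rw [integral_sub (integrable_const 1) (hi.const_mul _), integral_const_mul]
  simp

lemma gi_meas (ρ : ℝ) : Measurable (gi χ ρ) := by
  have h : StronglyMeasurable (Function.uncurry fun x z : ℝ =>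
      1 - χ x * χ (ρ * x + √(1 - ρ ^ 2) * z)) := by
    refine Measurable.stronglyMeasurable ?_
    refine measurable_const.sub (Measurable.mul (hχ.comp measurable_fst) (hχ.comp ?_))
    fun_prop
  exact (h.integral_prod_right (ν := G)).measurable

omit hχ in
lemma one_sub_nonneg (x y : ℝ) : 0 ≤ 1 - χ x * χ y := by
  rcases h1 x with h | h <;> rcases h1 y with h' | h' <;> rw [h, h'] <;> norm_num

omit hχ in
lemma one_sub_le (x y : ℝ) : 1 - χ x * χ y ≤ 2 := by
  rcases h1 x with h | h <;> rcases h1 y with h' | h' <;> rw [h, h'] <;> norm_num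

omit hχ in
lemma gi_nonneg (ρ x : ℝ) : 0 ≤ gi χ ρ x := integral_nonneg fun z => one_sub_nonneg h1 _ _

omit hχ in
lemma gi_le (ρ x : ℝ) : |gi χ ρ x| ≤ 2 := by
  unfold gi
  have := norm_integral_le_of_norm_le_const (μ := G) (C := 2)
    (f := fun z => 1 - χ x * χ (ρ * x + √(1 - ρ ^ 2) * z)) (Eventually.of_forall fun z => by
      rw [Real.norm_eq_abs, abs_of_nonneg (one_sub_nonneg h1 _ _)]
      exact one_sub_le h1 _ _)
  simpa using this

lemma one_sub_corr (ρ : ℝ) : 1 - corr χ ρ = ∫ x, gi χ ρ x ∂G := by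
  have hi : Integrable (gi χ ρ) G := Integrable.of_bound (gi_meas hχ h1 ρ).aestronglyMeasurable 2
    (Eventually.of_forall fun x => gi_le h1 ρ x)
  have e : ∀ x, ∫ z, χ x * χ (ρ * x + √(1 - ρ ^ 2) * z) ∂G = 1 - gi χ ρ x := by
    intro x
    rw [gi_eq hχ h1, integral_const_mul]
    ring
  unfold corr
  rw [integral_congr_ae (Eventually.of_forall e), integral_sub (integrable_const 1) hi]
  simp

lemma gi_kernel {ρ : ℝ} (h0 : 0 < ρ) (hρ : ρ < 1) (x : ℝ) :
    gi χ ρ x = ∫ y, (1 - χ x * χ y) * K ρ x y ∂G := by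
  have h := inner_eq (b := fun y => (1 - χ x * χ y) / 2) (by fun_prop) (fun y => by
    rw [abs_of_nonneg (by have := one_sub_nonneg h1 x y; positivity)]
    have := one_sub_le h1 x y
    linarith) h0 hρ x
  unfold gi
  have e1 : ∫ z, (1 - χ x * χ (ρ * x + √(1 - ρ ^ 2) * z)) ∂G =
      2 * ∫ z, (1 - χ x * χ (ρ * x + √(1 - ρ ^ 2) * z)) / 2 ∂G := by
    rw [← integral_const_mul]
    refine integral_congr_ae (Eventually.of_forall fun z => ?_)
    simp only
    ring
  have e2 : ∫ y, (1 - χ x * χ y) * K ρ x y ∂G =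
      2 * ∫ y, (1 - χ x * χ y) / 2 * K ρ x y ∂G := by
    rw [← integral_const_mul]
    refine integral_congr_ae (Eventually.of_forall fun z => ?_)
    simp only
    ring
  rw [e1, e2, h]

omit hχ h1 in
lemma kernel_lower {R θ x y : ℝ} (hR : 0 < R) (hθ : 0 < θ) (hθ1 : θ ≤ 1) (hx : |x| ≤ R)
    (hy1 : x ≤ y) (hy2 : y ≤ x + θ) :
    (2 * Real.pi)⁻¹ * Real.exp (-(3 + (R + 1) ^ 2)) / θ ≤ ph x * K (Real.cos θ) x y * ph y := by
  have hpi := Real.pi_gt_three
  have hs : 0 < Real.sin θ := Real.sin_pos_of_pos_of_lt_pi hθ (by linarith)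
  have hsθ : Real.sin θ ≤ θ := Real.sin_le hθ.le
  have hss : θ * (1 / 2) ≤ Real.sin θ := by
    have h3 := Real.mul_le_sin hθ.le (by linarith : θ ≤ Real.pi / 2)
    have h4 : 1 / 2 ≤ 2 / Real.pi := by
      rw [div_le_div_iff₀ (by norm_num) (by linarith)]
      have := Real.pi_le_four
      linarith
    calc θ * (1 / 2) ≤ θ * (2 / Real.pi) := by gcongr
      _ = 2 / Real.pi * θ := by ring
      _ ≤ _ := h3
  have hc : Real.cos θ ^ 2 = 1 - Real.sin θ ^ 2 := by
    have := Real.sin_sq_add_cos_sq θ; linarith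
  have hc0 : 0 ≤ Real.cos θ := Real.cos_nonneg_of_neg_pi_div_two_le_of_le (by linarith)
    (by linarith)
  have hc1 := Real.cos_le_one θ
  have e0 : 1 - Real.cos θ ^ 2 = Real.sin θ ^ 2 := by linarith
  have e1 : ph x * K (Real.cos θ) x y * ph y = (2 * Real.pi)⁻¹ * (Real.sin θ)⁻¹ *
      Real.exp (-((x - y) ^ 2 + 2 * x * y * (1 - Real.cos θ)) / (2 * Real.sin θ ^ 2)) := by
    unfold K
    rw [e0, Real.sqrt_sq hs.le, ph_eq, ph_eq]
    have h5 : (√(2 * Real.pi))⁻¹ * (√(2 * Real.pi))⁻¹ = (2 * Real.pi)⁻¹ := by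
      rw [← mul_inv, Real.mul_self_sqrt (by positivity)]
    have h6 : Real.exp (-((x - y) ^ 2 + 2 * x * y * (1 - Real.cos θ)) / (2 * Real.sin θ ^ 2)) =
        Real.exp (-x ^ 2 / 2) * Real.exp ((2 * Real.cos θ * x * y -
          Real.cos θ ^ 2 * (x ^ 2 + y ^ 2)) / (2 * Real.sin θ ^ 2)) * Real.exp (-y ^ 2 / 2) := by
      rw [← Real.exp_add, ← Real.exp_add]
      congr 1
      rw [hc]
      field_simp
      ring
    rw [h6, ← h5]
    ring
  rw [e1]
  have h7 : -(3 + (R + 1) ^ 2) ≤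
      -((x - y) ^ 2 + 2 * x * y * (1 - Real.cos θ)) / (2 * Real.sin θ ^ 2) := by
    rw [le_div_iff₀ (by positivity)]
    have hx' := abs_le.1 hx
    have a1 : (x - y) ^ 2 ≤ θ ^ 2 := by nlinarith
    have a2 : θ ^ 2 ≤ 4 * Real.sin θ ^ 2 := by nlinarith
    have a3 : 1 - Real.cos θ ≤ Real.sin θ ^ 2 := by nlinarith
    have a4 : x * y ≤ (R + 1) ^ 2 := by
      nlinarith [sq_nonneg (x - y), sq_nonneg (x + y)]
    have a5 : 2 * x * y * (1 - Real.cos θ) ≤ 2 * (R + 1) ^ 2 * Real.sin θ ^ 2 := by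
      have b1 : 0 ≤ 1 - Real.cos θ := by linarith
      calc 2 * x * y * (1 - Real.cos θ) = 2 * (x * y) * (1 - Real.cos θ) := by ring
        _ ≤ 2 * (R + 1) ^ 2 * (1 - Real.cos θ) := by gcongr
        _ ≤ _ := by gcongr
    nlinarith
  have h8 := Real.exp_le_exp.2 h7
  have h9 : (θ)⁻¹ ≤ (Real.sin θ)⁻¹ := inv_anti₀ hs hsθ
  calc (2 * Real.pi)⁻¹ * Real.exp (-(3 + (R + 1) ^ 2)) / θ =
      (2 * Real.pi)⁻¹ * θ⁻¹ * Real.exp (-(3 + (R + 1) ^ 2)) := by ring
    _ ≤ _ := by gcongr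

lemma VV_abs {θ : ℝ} (hθ : 0 ≤ θ) (x : ℝ) :
    |VV χ θ x| = ∫ y in x..(x + θ), (1 - χ x * χ y) := by
  rw [intervalIntegral.integral_sub intervalIntegrable_const ((chi_ii hχ h1 _ _).const_mul _),
    intervalIntegral.integral_const_mul, ← uu_sub hχ h1, intervalIntegral.integral_const]
  have hnn : 0 ≤ ∫ y in x..(x + θ), (1 - χ x * χ y) :=
    intervalIntegral.integral_nonneg (by linarith) fun y _ => one_sub_nonneg h1 _ _
  rw [intervalIntegral.integral_sub intervalIntegrable_const ((chi_ii hχ h1 _ _).const_mul _),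
    intervalIntegral.integral_const_mul, ← uu_sub hχ h1, intervalIntegral.integral_const] at hnn
  simp only [add_sub_cancel_left, smul_eq_mul, mul_one] at hnn ⊢
  unfold VV
  rcases h1 x with h | h
  · rw [h] at hnn ⊢
    rw [abs_of_nonpos (by linarith)]; ring
  · rw [h] at hnn ⊢
    rw [abs_of_nonneg (by linarith)]; ring

lemma gi_lower {R θ x : ℝ} (hR : 0 < R) (hθ : 0 < θ) (hθ1 : θ ≤ 1) (hx : |x| ≤ R) :
    (2 * Real.pi)⁻¹ * Real.exp (-(3 + (R + 1) ^ 2)) / θ * |VV χ θ x| ≤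
      ph x * gi χ (Real.cos θ) x := by
  have hpi := Real.pi_gt_three
  have hc0 : 0 < Real.cos θ := Real.cos_pos_of_mem_Ioo ⟨by linarith, by linarith⟩
  have hc1 : Real.cos θ < 1 := by
    have := Real.cos_lt_cos_of_nonneg_of_le_pi (x := 0) (y := θ) le_rfl (by linarith) hθ
    rwa [Real.cos_zero] at this
  have hKint : Integrable (fun y => (1 - χ x * χ y) * K (Real.cos θ) x y * ph y) := by
    have hK := (inner_hasSum (b := fun _ => 1) measurable_const (fun _ => by simp) hc0 hc1 x)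
    -- bounded by a Gaussian
    have hs : 0 < 1 - Real.cos θ ^ 2 := by nlinarith
    have hg : Integrable (fun y : ℝ => Real.exp (-(1 / 2 * (1 - Real.cos θ ^ 2)⁻¹) * y ^ 2 +
        (Real.cos θ * x / (1 - Real.cos θ ^ 2)) * y)) := by
      have := integrable_cexp_quadratic (b := ((1 / 2 * (1 - Real.cos θ ^ 2)⁻¹ : ℝ) : ℂ))
        (by
          rw [Complex.ofReal_re]
          positivity) ((Real.cos θ * x / (1 - Real.cos θ ^ 2) : ℝ) : ℂ) 0
      have h2 := this.norm
      refine h2.congr (Eventually.of_forall fun y => ?_)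
      simp only
      rw [Complex.norm_exp]
      congr 1
      have : (-((1 / 2 * (1 - Real.cos θ ^ 2)⁻¹ : ℝ) : ℂ) * (y : ℂ) ^ 2 +
          ((Real.cos θ * x / (1 - Real.cos θ ^ 2) : ℝ) : ℂ) * (y : ℂ) + 0) =
          ((-(1 / 2 * (1 - Real.cos θ ^ 2)⁻¹) * y ^ 2 +
          (Real.cos θ * x / (1 - Real.cos θ ^ 2)) * y : ℝ) : ℂ) := by push_cast; ring
      rw [this, Complex.ofReal_re]
    have hmeasK : Measurable (fun y => K (Real.cos θ) x y * ph y) := by
      unfold K
      refine Measurable.mul (by fun_prop) (measurable_gaussianPDFReal 0 1)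
    refine Integrable.mono' (hg.const_mul (2 * ((√(1 - Real.cos θ ^ 2))⁻¹ *
      (√(2 * Real.pi))⁻¹ * Real.exp (-(Real.cos θ ^ 2 * x ^ 2) / (2 * (1 - Real.cos θ ^ 2))))))
      ?_ (Eventually.of_forall fun y => ?_)
    · have : Measurable (fun y => (1 - χ x * χ y) * (K (Real.cos θ) x y * ph y)) :=
        (measurable_const.sub (measurable_const.mul hχ)).mul hmeasK
      refine this.aestronglyMeasurable.congr (Eventually.of_forall fun y => ?_)
      simp only
      ring
    · have e : K (Real.cos θ) x y * ph y = (√(1 - Real.cos θ ^ 2))⁻¹ *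
          (√(2 * Real.pi))⁻¹ * Real.exp (-(Real.cos θ ^ 2 * x ^ 2) / (2 * (1 - Real.cos θ ^ 2))) *
          Real.exp (-(1 / 2 * (1 - Real.cos θ ^ 2)⁻¹) * y ^ 2 +
          (Real.cos θ * x / (1 - Real.cos θ ^ 2)) * y) := by
        unfold K
        rw [ph_eq, mul_assoc _ (Real.exp (-(Real.cos θ ^ 2 * x ^ 2) / _)), ← Real.exp_add]
        rw [show (√(1 - Real.cos θ ^ 2))⁻¹ * Real.exp ((2 * Real.cos θ * x * y -
          Real.cos θ ^ 2 * (x ^ 2 + y ^ 2)) / (2 * (1 - Real.cos θ ^ 2))) *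
          ((√(2 * Real.pi))⁻¹ * Real.exp (-y ^ 2 / 2)) = (√(1 - Real.cos θ ^ 2))⁻¹ *
          (√(2 * Real.pi))⁻¹ * (Real.exp ((2 * Real.cos θ * x * y -
          Real.cos θ ^ 2 * (x ^ 2 + y ^ 2)) / (2 * (1 - Real.cos θ ^ 2))) *
          Real.exp (-y ^ 2 / 2)) by ring, ← Real.exp_add]
        congr 2
        field_simp
        ring
      rw [Real.norm_eq_abs, mul_assoc, abs_mul, abs_of_nonneg (one_sub_nonneg h1 x y), e,
        abs_of_nonneg (by positivity)]
      have := one_sub_le h1 x y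
      rw [mul_assoc 2]
      gcongr
  have e1 : ph x * gi χ (Real.cos θ) x =
      ∫ y, (1 - χ x * χ y) * (ph x * K (Real.cos θ) x y * ph y) := by
    rw [gi_kernel hχ h1 hc0 hc1, integral_gaussianReal_eq_integral_smul one_ne_zero,
      ← integral_const_mul]
    refine integral_congr_ae (Eventually.of_forall fun y => ?_)
    simp only [smul_eq_mul, ph]
    ring
  rw [e1, VV_abs hχ h1 hθ.le, ← intervalIntegral.integral_const_mul,
    intervalIntegral.integral_of_le (by linarith)]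
  have hint2 : Integrable (fun y => (1 - χ x * χ y) * (ph x * K (Real.cos θ) x y * ph y)) := by
    refine (hKint.const_mul (ph x)).congr (Eventually.of_forall fun y => ?_)
    simp only
    ring
  have hnn : ∀ y, 0 ≤ (1 - χ x * χ y) * (ph x * K (Real.cos θ) x y * ph y) := by
    intro y
    have := one_sub_nonneg h1 x y
    have h3 : 0 ≤ K (Real.cos θ) x y := by unfold K; positivity
    have := ph_pos x
    have := ph_pos y
    positivity
  refine le_trans ?_ (setIntegral_le_integral (s := Ioc x (x + θ)) hint2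
    (Eventually.of_forall hnn))
  refine setIntegral_mono_on ?_ hint2.integrableOn measurableSet_Ioc ?_
  · have := (intervalIntegrable_const (c := (1 : ℝ)) (a := x) (b := x + θ) (μ := volume)).sub
      ((chi_ii hχ h1 x (x + θ)).const_mul (χ x))
    exact (this.const_mul _).1
  · intro y hy
    rw [mul_comm]
    exact mul_le_mul_of_nonneg_left (kernel_lower hR hθ hθ1 hx hy.1.le hy.2)
      (one_sub_nonneg h1 x y)

/-- the bound which gives local finiteness -/
theorem hB_of_up {C0 : ℝ} (hup : ∀ θ ∈ Ioo 0 (Real.pi / 2), 1 - corr χ (Real.cos θ) ≤ C0 * θ)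
    (R : ℝ) (hR : 0 < R) : ∃ C : ℝ, ∀ᶠ θ in 𝓝[>] (0 : ℝ),
    ∫ x in (-R)..R, |VV χ θ x| ≤ C * θ ^ 2 := by
  have hpi := Real.pi_gt_three
  set c := (2 * Real.pi)⁻¹ * Real.exp (-(3 + (R + 1) ^ 2)) with hc
  have hc0 : 0 < c := by positivity
  refine ⟨C0 / c, ?_⟩
  filter_upwards [Ioo_mem_nhdsGT (show (0 : ℝ) < 1 by norm_num)] with θ hθ
  have h3 := hup θ ⟨hθ.1, by linarith [hθ.2]⟩
  rw [one_sub_corr hχ h1, integral_gaussianReal_eq_integral_smul one_ne_zero] at h3
  simp only [smul_eq_mul] at h3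
  have hgint : Integrable (fun x => ph x * gi χ (Real.cos θ) x) := by
    have : Integrable ph := by
      have := integrable_gaussianPDFReal 0 1
      exact this
    exact this.mul_bdd (gi_meas hχ h1 _).aestronglyMeasurable
      (Eventually.of_forall fun x => gi_le h1 (Real.cos θ) x)
  have h4 : ∫ x in (-R)..R, c / θ * |VV χ θ x| ≤ ∫ x, ph x * gi χ (Real.cos θ) x := by
    rw [intervalIntegral.integral_of_le (by linarith)]
    refine le_trans ?_ (setIntegral_le_integral (s := Ioc (-R) R) hgint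
      (Eventually.of_forall fun x => mul_nonneg (ph_pos x).le (gi_nonneg h1 _ x)))
    refine setIntegral_mono_on ?_ hgint.integrableOn measurableSet_Ioc ?_
    · exact ((VV_ii hχ h1 θ (-R) R).abs.const_mul _).1
    · intro x hx
      exact gi_lower hχ h1 hR hθ.1 hθ.2.le (abs_le.2 ⟨hx.1.le, hx.2⟩)
  rw [intervalIntegral.integral_const_mul] at h4
  have h5 := h4.trans h3
  have hθ0 := hθ.1
  rw [div_mul_eq_mul_div, div_le_iff₀ hθ0] at h5
  rw [div_mul_eq_mul_div, le_div_iff₀ hc0]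
  nlinarith

end Q194.GC
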