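import Pool.Agent.Q194.GC.F

/-!
# The double sum identity
-/

namespace Q194.GC

open MeasureTheory ProbabilityTheory Filter Set
open scoped Topology

lemma series_deriv {c : ℕ → ℝ} (h0 : ∀ k, 0 ≤ c k) (hc : ∀ k, c k ≤ (k : ℝ) + 1) {ρ : ℝ}
    (hρ0 : 0 < ρ) (hρ1 : ρ < 1) :
    HasDerivAt (fun x => ∑' k : ℕ, 1 / ((k : ℝ) + 1) * c k * x ^ (k + 1))
      (∑' k : ℕ, c k * ρ ^ k) ρ := by
  obtain ⟨r, hr, hr1⟩ := exists_between hρ1
  have hr0 : 0 ≤ r := hρ0.le.trans hr.le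
  have hu : Summable fun n : ℕ => c n * r ^ n := by
    have hg : Summable fun n : ℕ => (n : ℝ) * r ^ n + r ^ n := by
      have h1 := summable_pow_mul_geometric_of_norm_lt_one (R := ℝ) 1 (r := r) (by
        rw [Real.norm_eq_abs, abs_of_nonneg hr0]; exact hr1)
      have h2 := summable_geometric_of_lt_one hr0 hr1
      simpa using h1.add h2
    refine Summable.of_nonneg_of_le (fun n => mul_nonneg (h0 n) (pow_nonneg hr0 n))
      (fun n => ?_) hg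
    have := mul_le_mul_of_nonneg_right (hc n) (pow_nonneg hr0 n)
    linarith
  exact hasDerivAt_tsum_of_isPreconnected (𝕜 := ℝ)
    (u := fun n : ℕ => c n * r ^ n) (t := Ioo (-r) r)
    (g := fun (n : ℕ) (x : ℝ) => 1 / ((n : ℝ) + 1) * c n * x ^ (n + 1))
    (g' := fun (n : ℕ) (x : ℝ) => c n * x ^ n)
    (y₀ := 0) (y := ρ) hu isOpen_Ioo isPreconnected_Ioo
    (fun n y _ => by
      have h2 := (hasDerivAt_pow (n + 1) y).const_mul (1 / ((n : ℝ) + 1) * c n)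
      refine h2.congr_deriv ?_
      have : (n : ℝ) + 1 ≠ 0 := by positivity
      push_cast
      field_simp)
    (fun n y hy => by
      rw [Real.norm_eq_abs, abs_mul, abs_of_nonneg (h0 n), abs_pow]
      have : |y| ≤ r := abs_le.2 ⟨hy.1.le, hy.2.le⟩
      have := h0 n
      gcongr)
    ⟨by linarith, by linarith⟩
    (by
      refine summable_zero.congr fun n => ?_
      simp)
    ⟨by linarith, hr⟩

lemma swap_aux {ι : Type*} {h : ι → ℕ → ℝ} {w : ι → ℝ} (hw : ∀ i, 0 ≤ w i)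
    (hh : ∀ i k, 0 ≤ h i k) (hsum : ∀ i, Summable (h i))
    (hK : Summable fun i => (∑' k, h i k) * w i) (hW : Summable w) :
    (Summable fun x : (ι × ι) × ℕ => h x.1.1 x.2 * (w x.1.1 * w x.1.2)) ∧
    Summable fun x : (ι × ι) × ℕ => h x.1.2 x.2 * (w x.1.1 * w x.1.2) := by
  have hKnn : ∀ i, 0 ≤ (∑' k, h i k) * w i := fun i => mul_nonneg (tsum_nonneg (hh i)) (hw i)
  constructor
  · refine (summable_prod_of_nonneg fun x => ?_).2 ⟨fun z => ?_, ?_⟩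
    · exact mul_nonneg (hh _ _) (mul_nonneg (hw _) (hw _))
    · have := (hsum z.1).mul_right (w z.1 * w z.2)
      exact this
    · have h1 := hK.mul_of_nonneg hW hKnn hw
      refine h1.congr fun z => ?_
      show _ = ∑' k, h z.1 k * (w z.1 * w z.2)
      rw [tsum_mul_right]
      ring
  · refine (summable_prod_of_nonneg fun x => ?_).2 ⟨fun z => ?_, ?_⟩
    · exact mul_nonneg (hh _ _) (mul_nonneg (hw _) (hw _))
    · have := (hsum z.2).mul_right (w z.1 * w z.2)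
      exact this
    · have h1 := hW.mul_of_nonneg hK hw hKnn
      refine h1.congr fun z => ?_
      show _ = ∑' k, h z.2 k * (w z.1 * w z.2)
      rw [tsum_mul_right]
      ring

/-- the jump transform of the Hermite functions -/
noncomputable def qq (χ : ℝ → ℝ) (k : ℕ) : ℝ := ∑' t : TT χ, ep χ t * (H k t * ph t)

section

variable {χ : ℝ → ℝ} (hχ : Measurable χ) (h1 : ∀ x, χ x = 1 ∨ χ x = -1)
  (hfin : ∀ A B : ℝ, (TT χ ∩ Icc A B).Finite)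
  (hs : Summable fun t : TT χ => Real.exp (-(23 / 100) * (t : ℝ) ^ 2))

include hχ h1 hfin hs

lemma hc_qq (k : ℕ) : hc χ (k + 1) = 2 / √((k : ℝ) + 1) * qq χ k := by
  rw [hc_jump hχ h1 hfin k hs, qq, ← tsum_mul_left]
  refine tsum_congr fun t => ?_
  unfold gg
  ring

lemma hc_sq (k : ℕ) : hc χ (k + 1) ^ 2 = 4 * (1 / ((k : ℝ) + 1) * qq χ k ^ 2) := by
  rw [hc_qq hχ h1 hfin hs, mul_pow, div_pow, Real.sq_sqrt (by positivity)]
  ring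

lemma qq_le (k : ℕ) : qq χ k ^ 2 ≤ (k : ℝ) + 1 := by
  have h := hc_sq hχ h1 hfin hs k
  have h2 := abs_hc_le hχ (fun x => (chi_abs h1 x).le) (k + 1)
  have h3 : hc χ (k + 1) ^ 2 ≤ 1 := by
    rw [← sq_abs]
    exact pow_le_one₀ (abs_nonneg _) h2
  have h4 : (0 : ℝ) < (k : ℝ) + 1 := by positivity
  rw [h] at h3
  have h5 : qq χ k ^ 2 = ((k : ℝ) + 1) * (1 / ((k : ℝ) + 1) * qq χ k ^ 2) := by
    field_simp
  rw [h5]
  nlinarith [sq_nonneg (qq χ k)]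

lemma corr_qq {ρ : ℝ} (h0 : 0 < ρ) (hρ : ρ < 1) : corr χ ρ = hc χ 0 ^ 2 +
    4 * ∑' k : ℕ, 1 / ((k : ℝ) + 1) * qq χ k ^ 2 * ρ ^ (k + 1) := by
  have h := corr_hasSum hχ (fun x => (chi_abs h1 x).le) h0 hρ
  have h2 := h.tsum_eq
  rw [h.summable.tsum_eq_zero_add] at h2
  rw [← h2, pow_zero, one_mul, ← tsum_mul_left]
  congr 1
  refine tsum_congr fun n => ?_
  rw [hc_sq hχ h1 hfin hs]
  ring

lemma deriv_identity {c a : ℝ} (hyp : ∀ ρ ∈ Ioo (0 : ℝ) 1, corr χ ρ = c * Ser a ρ) {ρ : ℝ}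
    (h0 : 0 < ρ) (hρ : ρ < 1) : 4 * ∑' k : ℕ, qq χ k ^ 2 * ρ ^ k = c * K ρ a a := by
  have hd1 : HasDerivAt (fun x => c * Ser a x) (c * K ρ a a) ρ := (ser_deriv a h0 hρ).const_mul c
  have hd2 : HasDerivAt (fun x => hc χ 0 ^ 2 +
      4 * ∑' k : ℕ, 1 / ((k : ℝ) + 1) * qq χ k ^ 2 * x ^ (k + 1))
      (4 * ∑' k : ℕ, qq χ k ^ 2 * ρ ^ k) ρ :=
    ((series_deriv (fun k => sq_nonneg (qq χ k)) (qq_le hχ h1 hfin hs) h0 hρ).const_mul 4).const_add _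
  have he : (fun x => hc χ 0 ^ 2 + 4 * ∑' k : ℕ, 1 / ((k : ℝ) + 1) * qq χ k ^ 2 * x ^ (k + 1))
      =ᶠ[𝓝 ρ] fun x => c * Ser a x := by
    filter_upwards [Ioo_mem_nhds h0 hρ] with x hx
    rw [← corr_qq hχ h1 hfin hs hx.1 hx.2, hyp x hx]
  exact (hd2.unique (hd1.congr_of_eventuallyEq he)).symm ▸ rfl

omit hχ h1 hfin in
lemma swap {ρ : ℝ} (h0 : 0 < ρ) (h3 : ρ < 1 / 3) : ∑' k : ℕ, qq χ k ^ 2 * ρ ^ k =
    ∑' z : TT χ × TT χ, ep χ z.1 * ep χ z.2 * (ph z.1 * ph z.2 * K ρ z.1 z.2) := by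
  have hρ1 : ρ < 1 := by linarith
  have hρ2 : 0 < 1 - ρ ^ 2 := by nlinarith
  set f : TT χ × TT χ → ℕ → ℝ := fun z k =>
    ep χ z.1 * (H k z.1 * ph z.1) * (ep χ z.2 * (H k z.2 * ph z.2)) * ρ ^ k with hf
  -- summability
  have hph : Summable fun t : TT χ => ph t :=
    Summable.of_nonneg_of_le (fun t => (ph_pos t).le) (fun t => (ph_le t).trans
      (Real.exp_le_exp.2 (by nlinarith [sq_nonneg (t : ℝ)]))) hs
  have hK : Summable fun t : TT χ => K ρ t t * ph t := by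
    refine Summable.of_nonneg_of_le (fun t => ?_) (fun t => ?_) (hs.mul_left (√(1 - ρ ^ 2))⁻¹)
    · have := ph_pos t
      unfold K
      positivity
    · rw [K_diag h0.le hρ1, mul_assoc]
      refine mul_le_mul_of_nonneg_left ?_ (by positivity)
      calc Real.exp ((t : ℝ) ^ 2 * ρ / (1 + ρ)) * ph t ≤
            Real.exp ((t : ℝ) ^ 2 * ρ / (1 + ρ)) * Real.exp (-(t : ℝ) ^ 2 / 2) :=
            mul_le_mul_of_nonneg_left (ph_le t) (Real.exp_pos _).le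
        _ = Real.exp ((t : ℝ) ^ 2 * ρ / (1 + ρ) + -(t : ℝ) ^ 2 / 2) := by rw [← Real.exp_add]
        _ ≤ _ := by
          apply Real.exp_le_exp.2
          have h5 : (t : ℝ) ^ 2 * ρ / (1 + ρ) ≤ (t : ℝ) ^ 2 / 4 := by
            rw [div_le_div_iff₀ (by linarith) (by norm_num)]
            nlinarith [sq_nonneg (t : ℝ)]
          nlinarith [sq_nonneg (t : ℝ)]
  have hKnn : ∀ t : TT χ, 0 ≤ K ρ t t * ph t := fun t => by
    have := ph_pos t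
    unfold K
    positivity
  have hg1 : Summable fun x : (TT χ × TT χ) × ℕ =>
      (H x.2 x.1.1 ^ 2 * ρ ^ x.2) * (ph x.1.1 * ph x.1.2) :=
    (swap_aux (h := fun (t : TT χ) (k : ℕ) => H k t ^ 2 * ρ ^ k) (w := fun t : TT χ => ph t)
      (fun t => (ph_pos t).le) (fun t k => mul_nonneg (sq_nonneg _) (pow_nonneg h0.le _))
      (fun t => (sumH h0.le hρ1 (t : ℝ)).summable)
      (hK.congr fun t => by rw [(sumH h0.le hρ1 (t : ℝ)).tsum_eq]) hph).1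
  have hg2 : Summable fun x : (TT χ × TT χ) × ℕ =>
      (H x.2 x.1.2 ^ 2 * ρ ^ x.2) * (ph x.1.1 * ph x.1.2) :=
    (swap_aux (h := fun (t : TT χ) (k : ℕ) => H k t ^ 2 * ρ ^ k) (w := fun t : TT χ => ph t)
      (fun t => (ph_pos t).le) (fun t k => mul_nonneg (sq_nonneg _) (pow_nonneg h0.le _))
      (fun t => (sumH h0.le hρ1 (t : ℝ)).summable)
      (hK.congr fun t => by rw [(sumH h0.le hρ1 (t : ℝ)).tsum_eq]) hph).2
  have hsum : Summable (Function.uncurry f) := by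
    refine Summable.of_norm_bounded (hg1.add hg2) fun x => ?_
    have hp1 := ph_pos x.1.1
    have hp2 := ph_pos x.1.2
    have hρk : 0 < ρ ^ x.2 := pow_pos h0 _
    simp only [Function.uncurry, hf, Pi.add_apply]
    rw [Real.norm_eq_abs, abs_mul, abs_mul, abs_mul, abs_mul, abs_mul, abs_mul, ep_abs, ep_abs,
      one_mul, one_mul, abs_of_pos hp1, abs_of_pos hp2, abs_of_pos hρk]
    have h5 : |H x.2 x.1.1| * |H x.2 x.1.2| ≤ H x.2 x.1.1 ^ 2 + H x.2 x.1.2 ^ 2 := by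
      have a1 := sq_abs (H x.2 x.1.1)
      have a2 := sq_abs (H x.2 x.1.2)
      nlinarith [sq_nonneg (|H x.2 x.1.1| - |H x.2 x.1.2|), abs_nonneg (H x.2 x.1.1),
        abs_nonneg (H x.2 x.1.2)]
    have h6 : 0 < ph x.1.1 * ph x.1.2 * ρ ^ x.2 := by positivity
    calc |H x.2 x.1.1| * ph x.1.1 * (|H x.2 x.1.2| * ph x.1.2) * ρ ^ x.2 =
        |H x.2 x.1.1| * |H x.2 x.1.2| * (ph x.1.1 * ph x.1.2 * ρ ^ x.2) := by ring
      _ ≤ (H x.2 x.1.1 ^ 2 + H x.2 x.1.2 ^ 2) * (ph x.1.1 * ph x.1.2 * ρ ^ x.2) := by gcongr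
      _ = _ := by ring
  have hcomm := hsum.tsum_comm
  have hnorm : ∀ k : ℕ, Summable fun t : TT χ => ‖ep χ t * (H k t * ph t)‖ := by
    intro k
    refine (Hph_summable k hs).congr fun t => ?_
    rw [Real.norm_eq_abs, abs_mul (ep χ t), ep_abs, one_mul]
  have e1 : ∀ k : ℕ, qq χ k ^ 2 * ρ ^ k = ∑' z : TT χ × TT χ, f z k := by
    intro k
    rw [sq, qq, tsum_mul_tsum_of_summable_norm (hnorm k) (hnorm k), ← tsum_mul_right]
  have e2 : ∀ z : TT χ × TT χ, ∑' k : ℕ, f z k =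
      ep χ z.1 * ep χ z.2 * (ph z.1 * ph z.2 * K ρ z.1 z.2) := by
    intro z
    rw [← (mehlerR h0.le hρ1 (z.1 : ℝ) (z.2 : ℝ)).tsum_eq, ← tsum_mul_left, ← tsum_mul_left]
    refine tsum_congr fun k => ?_
    simp only [hf]
    ring
  simp only [e1]
  rw [hcomm]
  exact tsum_congr e2

/-- the identity in the variable `τ` -/
theorem tau_identity {c a : ℝ} (hyp : ∀ ρ ∈ Ioo (0 : ℝ) 1, corr χ ρ = c * Ser a ρ) {τ : ℝ}
    (h0 : 1 / 2 < τ) (hτ : τ < 1) :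
    ∑' z : TT χ × TT χ, (ep χ z.1 * Real.exp (-(z.1 : ℝ) ^ 2 / 4)) *
      (ep χ z.2 * Real.exp (-(z.2 : ℝ) ^ 2 / 4)) *
      Real.exp (-(((z.1 : ℝ) - z.2) ^ 2 / τ + τ * ((z.1 : ℝ) + z.2) ^ 2) / 8) =
    Real.pi / 2 * c * Real.exp (a ^ 2 / 2) * Real.exp (-(τ * a ^ 2) / 2) := by
  set ρ : ℝ := (1 - τ) / (1 + τ) with hρ
  have hτ0 : 0 < 1 + τ := by linarith
  have hρ0 : 0 < ρ := div_pos (by linarith) hτ0
  have hρ3 : ρ < 1 / 3 := by rw [hρ, div_lt_div_iff₀ hτ0 (by norm_num)]; linarith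
  have hρ1 : ρ < 1 := by linarith
  have hρ2 : 0 < 1 - ρ ^ 2 := by nlinarith
  have h := deriv_identity hχ h1 hfin hs hyp hρ0 hρ1
  rw [swap hs hρ0 hρ3] at h
  have hsq : (0 : ℝ) < √(1 - ρ ^ 2) := Real.sqrt_pos.2 hρ2
  have hpi := Real.pi_pos
  have e1 : ∀ z : TT χ × TT χ, ep χ z.1 * ep χ z.2 * (ph z.1 * ph z.2 * K ρ z.1 z.2) =
      ((2 * Real.pi)⁻¹ * (√(1 - ρ ^ 2))⁻¹) * ((ep χ z.1 * Real.exp (-(z.1 : ℝ) ^ 2 / 4)) *
      (ep χ z.2 * Real.exp (-(z.2 : ℝ) ^ 2 / 4)) *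
      Real.exp (-(((z.1 : ℝ) - z.2) ^ 2 / τ + τ * ((z.1 : ℝ) + z.2) ^ 2) / 8)) := by
    intro z
    have h5 : (√(2 * Real.pi))⁻¹ * (√(2 * Real.pi))⁻¹ = (2 * Real.pi)⁻¹ := by
      rw [← mul_inv, Real.mul_self_sqrt (by positivity)]
    have h6 : Real.exp (-(z.1 : ℝ) ^ 2 / 2) * Real.exp (-(z.2 : ℝ) ^ 2 / 2) *
        Real.exp ((2 * ρ * z.1 * z.2 - ρ ^ 2 * ((z.1 : ℝ) ^ 2 + (z.2 : ℝ) ^ 2)) /
          (2 * (1 - ρ ^ 2))) = Real.exp (-(z.1 : ℝ) ^ 2 / 4) * Real.exp (-(z.2 : ℝ) ^ 2 / 4) *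
        Real.exp (-(((z.1 : ℝ) - z.2) ^ 2 / τ + τ * ((z.1 : ℝ) + z.2) ^ 2) / 8) := by
      rw [← Real.exp_add, ← Real.exp_add, ← Real.exp_add, ← Real.exp_add]
      congr 1
      have h7 : 1 - ρ ^ 2 = 4 * τ / (1 + τ) ^ 2 := by
        rw [hρ]
        field_simp
        ring
      have hτ1 : τ ≠ 0 := by linarith
      rw [h7, hρ]
      field_simp
      ring
    unfold K
    rw [ph_eq, ph_eq]
    calc ep χ z.1 * ep χ z.2 * ((√(2 * Real.pi))⁻¹ * Real.exp (-(z.1 : ℝ) ^ 2 / 2) *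
          ((√(2 * Real.pi))⁻¹ * Real.exp (-(z.2 : ℝ) ^ 2 / 2)) * ((√(1 - ρ ^ 2))⁻¹ *
          Real.exp ((2 * ρ * z.1 * z.2 - ρ ^ 2 * ((z.1 : ℝ) ^ 2 + (z.2 : ℝ) ^ 2)) /
          (2 * (1 - ρ ^ 2))))) = ep χ z.1 * ep χ z.2 *
          (((√(2 * Real.pi))⁻¹ * (√(2 * Real.pi))⁻¹) * (√(1 - ρ ^ 2))⁻¹ *
          (Real.exp (-(z.1 : ℝ) ^ 2 / 2) * Real.exp (-(z.2 : ℝ) ^ 2 / 2) *
        Real.exp ((2 * ρ * z.1 * z.2 - ρ ^ 2 * ((z.1 : ℝ) ^ 2 + (z.2 : ℝ) ^ 2)) /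
          (2 * (1 - ρ ^ 2))))) := by ring
      _ = _ := by rw [h5, h6]; ring
  simp only [e1] at h
  rw [tsum_mul_left] at h
  set S := ∑' z : TT χ × TT χ, (ep χ z.1 * Real.exp (-(z.1 : ℝ) ^ 2 / 4)) *
      (ep χ z.2 * Real.exp (-(z.2 : ℝ) ^ 2 / 4)) *
      Real.exp (-(((z.1 : ℝ) - z.2) ^ 2 / τ + τ * ((z.1 : ℝ) + z.2) ^ 2) / 8) with hS
  have e2 : K ρ a a = (√(1 - ρ ^ 2))⁻¹ * (Real.exp (a ^ 2 / 2) * Real.exp (-(τ * a ^ 2) / 2)) := by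
    rw [K_diag hρ0.le hρ1, ← Real.exp_add]
    congr 2
    have h8 : 1 + ρ = 2 / (1 + τ) := by
      rw [hρ]; field_simp; ring
    rw [h8, hρ]
    field_simp
    ring
  rw [e2] at h
  have h9 : (√(1 - ρ ^ 2))⁻¹ * S = (√(1 - ρ ^ 2))⁻¹ * (Real.pi / 2 * c * Real.exp (a ^ 2 / 2) *
      Real.exp (-(τ * a ^ 2) / 2)) := by
    have h10 : 4 * (2 * Real.pi)⁻¹ * (Real.pi / 2) = 1 := by field_simp; norm_num
    calc (√(1 - ρ ^ 2))⁻¹ * S = (4 * (2 * Real.pi)⁻¹ * (Real.pi / 2)) * ((√(1 - ρ ^ 2))⁻¹ * S) := by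
          rw [h10, one_mul]
      _ = Real.pi / 2 * (4 * ((2 * Real.pi)⁻¹ * (√(1 - ρ ^ 2))⁻¹ * S)) := by ring
      _ = _ := by rw [h]; ring
  exact mul_left_cancel₀ (inv_pos.2 hsq).ne' h9

end

end Q194.GC
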