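import Mathlib

/-!
# The jump set of a function with values in `{1, -1}` of bounded alternation
-/

namespace Q194.GC

open MeasureTheory Filter Set
open scoped Topology

/-- the primitive -/
noncomputable def uu (χ : ℝ → ℝ) (x : ℝ) : ℝ := ∫ t in (0 : ℝ)..x, χ t

/-- the points where the primitive has derivative `χ x` -/
def LL (χ : ℝ → ℝ) : Set ℝ := {x | HasDerivAt (uu χ) (χ x) x}

/-- the essential boundary -/
def TT (χ : ℝ → ℝ) : Set ℝ :=
  {t | ∀ δ > 0, ∃ x ∈ LL χ, ∃ y ∈ LL χ, |x - t| < δ ∧ |y - t| < δ ∧ χ x = 1 ∧ χ y = -1}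

section

variable {χ : ℝ → ℝ} (hχ : Measurable χ) (h1 : ∀ x, χ x = 1 ∨ χ x = -1)

include h1 in
lemma chi_abs (x : ℝ) : |χ x| = 1 := by
  rcases h1 x with h | h <;> rw [h] <;> simp

include hχ h1

lemma chi_locInt : LocallyIntegrable χ := by
  refine (locallyIntegrable_const (1 : ℝ)).mono hχ.aestronglyMeasurable
    (Eventually.of_forall fun x => ?_)
  rw [Real.norm_eq_abs, chi_abs h1, norm_one]

lemma chi_ii (a b : ℝ) : IntervalIntegrable χ volume a b :=
  intervalIntegrable_iff.mpr <|
    ((chi_locInt hχ h1).integrableOn_isCompact isCompact_uIcc).mono_set uIoc_subset_uIcc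

lemma ae_LL : ∀ᵐ x, x ∈ LL χ := by
  filter_upwards [LocallyIntegrable.ae_hasDerivAt_integral (chi_locInt hχ h1)] with x hx
  exact hx 0

lemma dense_LL : Dense (LL χ) := Measure.dense_of_ae (ae_LL hχ h1)

lemma exists_LL {a b : ℝ} (hab : a < b) : ∃ w ∈ LL χ, w ∈ Ioo a b := by
  obtain ⟨w, hw, hw2⟩ := (dense_LL hχ h1).inter_open_nonempty (Ioo a b) isOpen_Ioo
    ⟨(a + b) / 2, by constructor <;> linarith⟩
  exact ⟨w, hw2, hw⟩

lemma uu_sub (a b : ℝ) : uu χ b - uu χ a = ∫ t in a..b, χ t := by
  unfold uu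
  rw [intervalIntegral.integral_interval_sub_left (chi_ii hχ h1 _ _) (chi_ii hχ h1 _ _)]

/-- constancy on intervals free of boundary points -/
lemma const_of_free {x y : ℝ} (hx : x ∈ LL χ) (hy : y ∈ LL χ) (hxy : x ≤ y)
    (hfree : ∀ t ∈ TT χ, t ∉ Icc x y) : χ x = χ y := by
  by_contra hne
  -- local constancy at points which are not in `TT`
  have hloc : ∀ s ∈ Icc x y, ∃ δ > 0, ∀ w ∈ LL χ, |w - s| < δ → ∀ w' ∈ LL χ, |w' - s| < δ →
      χ w = χ w' := by
    intro s hs
    have hsT : s ∉ TT χ := fun h => hfree s h hs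
    unfold TT at hsT
    simp only [mem_ofPred_eq, not_forall] at hsT
    obtain ⟨δ, hδ, hno⟩ := hsT
    push Not at hno
    refine ⟨δ, hδ, fun w hw hws w' hw' hws' => ?_⟩
    rcases h1 w with a | a <;> rcases h1 w' with b | b
    · rw [a, b]
    · exact absurd b (hno w hw w' hw' hws hws' a)
    · exact absurd a (hno w' hw' w hw hws' hws b)
    · rw [a, b]
  set S : Set ℝ := {z | z ∈ Icc x y ∧ ∀ w ∈ LL χ, w ∈ Icc x z → χ w = χ x} with hS
  have hxS : x ∈ S := by
    refine ⟨⟨le_rfl, hxy⟩, fun w _ hw' => ?_⟩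
    have : w = x := le_antisymm hw'.2 hw'.1
    rw [this]
  have hbdd : BddAbove S := ⟨y, fun z hz => hz.1.2⟩
  set s := sSup S with hs
  have hsx : x ≤ s := le_csSup hbdd hxS
  have hsy : s ≤ y := csSup_le ⟨x, hxS⟩ fun z hz => hz.1.2
  obtain ⟨δ, hδ, hc⟩ := hloc s ⟨hsx, hsy⟩
  obtain ⟨u, huS, hu⟩ := exists_lt_of_lt_csSup ⟨x, hxS⟩ (show s - δ < sSup S by rw [← hs]; linarith)
  have hus : u ≤ s := le_csSup hbdd huS
  -- a point with value `χ x` near `s`
  obtain ⟨w, hwL, hws, hwx⟩ : ∃ w ∈ LL χ, |w - s| < δ ∧ χ w = χ x := by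
    by_cases hxs : s - δ < x
    · exact ⟨x, hx, by rw [abs_lt]; constructor <;> linarith, rfl⟩
    · obtain ⟨w, hw, hw2⟩ := exists_LL hχ h1 hu
      refine ⟨w, hw, by rw [abs_lt]; constructor <;> linarith [hw2.1, hw2.2], ?_⟩
      exact huS.2 w hw ⟨by linarith [hw2.1, not_lt.1 hxs], hw2.2.le⟩
  have hall : ∀ v ∈ LL χ, v ∈ Icc x (s + δ / 2) → χ v = χ x := by
    intro v hv hv2
    by_cases hvs : v ≤ s - δ
    · exact huS.2 v hv ⟨hv2.1, by linarith⟩
    · rw [← hwx]
      refine hc v hv ?_ w hwL hws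
      rw [abs_lt]; constructor <;> linarith [not_le.1 hvs, hv2.2]
  rcases lt_or_ge s y with hlt | hge
  · have hmem : min (s + δ / 2) y ∈ S := by
      refine ⟨⟨le_min (by linarith) hxy, min_le_right _ _⟩, fun v hv hv2 => ?_⟩
      exact hall v hv ⟨hv2.1, hv2.2.trans (min_le_left _ _)⟩
    have h5 := le_csSup hbdd hmem
    rw [← hs] at h5
    rcases min_le_iff.1 h5 with h6 | h6 <;> linarith
  · exact hne (hall y hy ⟨hxy, by linarith⟩).symm

end

/-- the right value at `t` -/
noncomputable def ep (χ : ℝ → ℝ) (t : ℝ) : ℝ :=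
  open Classical in
  if ∃ δ > 0, ∀ w ∈ LL χ, w ∈ Ioo t (t + δ) → χ w = 1 then 1 else -1

lemma ep_sq (χ : ℝ → ℝ) (t : ℝ) : ep χ t * ep χ t = 1 := by
  unfold ep; split_ifs <;> norm_num

lemma ep_abs (χ : ℝ → ℝ) (t : ℝ) : |ep χ t| = 1 := by
  unfold ep; split_ifs <;> norm_num

section

variable {χ : ℝ → ℝ} (hχ : Measurable χ) (h1 : ∀ x, χ x = 1 ∨ χ x = -1)
  (hfin : ∀ A B : ℝ, (TT χ ∩ Icc A B).Finite)

include hfin in
/-- the points of `TT` are isolated -/
lemma isolated (t : ℝ) : ∃ δ > 0, ∀ s ∈ TT χ, s ≠ t → δ ≤ |s - t| := by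
  have hf : ((TT χ ∩ Icc (t - 1) (t + 1)) \ {t}).Finite :=
    (hfin (t - 1) (t + 1)).subset diff_subset
  have hcl := hf.isClosed
  have hmem : t ∉ (TT χ ∩ Icc (t - 1) (t + 1)) \ {t} := fun h => h.2 rfl
  obtain ⟨δ, hδ, hb⟩ := Metric.isOpen_iff.1 hcl.isOpen_compl t hmem
  refine ⟨min δ 1, lt_min hδ one_pos, fun s hs hst => ?_⟩
  by_contra hlt
  rw [not_le, lt_min_iff] at hlt
  have h3 : s ∈ Metric.ball t δ := by rw [Metric.mem_ball, Real.dist_eq]; exact hlt.1
  have h4 := abs_lt.1 hlt.2
  exact hb h3 ⟨⟨hs, by linarith, by linarith⟩, hst⟩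

include hχ h1 hfin

/-- one-sided values at a boundary point -/
lemma one_sided (t : ℝ) (ht : t ∈ TT χ) : ∃ δ > 0, (∀ s ∈ TT χ, s ≠ t → δ ≤ |s - t|) ∧
    (∀ w ∈ LL χ, w ∈ Ioo t (t + δ) → χ w = ep χ t) ∧
    (∀ w ∈ LL χ, w ∈ Ioo (t - δ) t → χ w = -ep χ t) := by
  obtain ⟨δ, hδ, hiso⟩ := isolated hfin t
  have hr : ∀ w ∈ LL χ, w ∈ Ioo t (t + δ) → ∀ w' ∈ LL χ, w' ∈ Ioo t (t + δ) → w ≤ w' →
      χ w = χ w' := by
    intro w hw hw2 w' hw' hw2' hle
    refine const_of_free hχ h1 hw hw' hle fun s hs hs2 => ?_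
    have h3 := hiso s hs (by rintro rfl; linarith [hs2.1, hw2.1])
    rw [abs_of_pos (by linarith [hs2.1, hw2.1])] at h3
    linarith [hs2.2, hw2'.2]
  have hl : ∀ w ∈ LL χ, w ∈ Ioo (t - δ) t → ∀ w' ∈ LL χ, w' ∈ Ioo (t - δ) t → w ≤ w' →
      χ w = χ w' := by
    intro w hw hw2 w' hw' hw2' hle
    refine const_of_free hχ h1 hw hw' hle fun s hs hs2 => ?_
    have h3 := hiso s hs (by rintro rfl; linarith [hs2.2, hw2'.2])
    rw [abs_of_neg (by linarith [hs2.2, hw2'.2])] at h3
    linarith [hs2.1, hw2.1]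
  obtain ⟨a, haL, ha⟩ := exists_LL hχ h1 (show t < t + δ by linarith)
  obtain ⟨b, hbL, hb⟩ := exists_LL hχ h1 (show t - δ < t by linarith)
  have hra : ∀ w ∈ LL χ, w ∈ Ioo t (t + δ) → χ w = χ a := fun w hw hw2 => by
    rcases le_total w a with h | h
    · exact hr w hw hw2 a haL ha h
    · exact (hr a haL ha w hw hw2 h).symm
  have hlb : ∀ w ∈ LL χ, w ∈ Ioo (t - δ) t → χ w = χ b := fun w hw hw2 => by
    rcases le_total w b with h | h
    · exact hl w hw hw2 b hbL hb h
    · exact (hl b hbL hb w hw hw2 h).symm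
  -- the two values differ
  have hne : χ a ≠ χ b := by
    intro hab
    -- every point of `LL` near `t` has the value `χ a`
    have hall : ∀ w ∈ LL χ, |w - t| < δ → χ w = χ a := by
      intro w hw hwt
      obtain ⟨h3, h4⟩ := abs_lt.1 hwt
      rcases lt_trichotomy w t with h | h | h
      · rw [hlb w hw ⟨by linarith, h⟩, hab]
      · -- `t ∈ LL`: its derivative is the right value
        subst h
        have hd : HasDerivWithinAt (uu χ) (χ a) (Ioi w) w := by
          have e : ∀ y ∈ Ioo w (w + δ), uu χ y = uu χ w + χ a * (y - w) := by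
            intro y hy
            have h5 := uu_sub hχ h1 w y
            have h6 : ∫ t in w..y, χ t = ∫ t in w..y, χ a := by
              refine intervalIntegral.integral_congr_ae ?_
              filter_upwards [ae_LL hχ h1] with z hz hz2
              rw [uIoc_of_le hy.1.le] at hz2
              exact hra z hz ⟨hz2.1, by linarith [hz2.2, hy.2]⟩
            rw [h6, intervalIntegral.integral_const, smul_eq_mul] at h5
            linarith
          have h7 : HasDerivAt (fun y => uu χ w + χ a * (y - w)) (χ a) w := by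
            have := (((hasDerivAt_id w).sub_const w).const_mul (χ a)).const_add (uu χ w)
            simpa using this
          refine h7.hasDerivWithinAt.congr_of_eventuallyEq ?_ (by simp)
          filter_upwards [Ioo_mem_nhdsGT (show w < w + δ by linarith)] with y hy using e y hy
        have h8 : HasDerivWithinAt (uu χ) (χ w) (Ioi w) w :=
          (show HasDerivAt (uu χ) (χ w) w from hw).hasDerivWithinAt
        exact (uniqueDiffWithinAt_Ioi w).eq_deriv _ h8 hd
      · exact hra w hw ⟨h, by linarith⟩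
    obtain ⟨x, hx, y, hy, hxt, hyt, hx1, hy1⟩ := ht δ hδ
    have h5 := hall x hx hxt
    have h6 := hall y hy hyt
    rw [hx1] at h5
    rw [hy1] at h6
    linarith
  have hep : ep χ t = χ a := by
    unfold ep
    split_ifs with h
    · obtain ⟨η, hη, hc⟩ := h
      obtain ⟨w, hw, hw2⟩ := exists_LL hχ h1 (show t < t + min η δ by
        have := lt_min hη hδ; linarith)
      rw [← hra w hw ⟨hw2.1, hw2.2.trans_le (by linarith [min_le_right η δ])⟩]
      exact (hc w hw ⟨hw2.1, hw2.2.trans_le (by linarith [min_le_left η δ])⟩).symm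
    · rcases h1 a with h2 | h2
      · exact absurd ⟨δ, hδ, fun w hw hw2 => (hra w hw hw2).trans h2⟩ h
      · exact h2.symm
  refine ⟨δ, hδ, hiso, fun w hw hw2 => by rw [hep]; exact hra w hw hw2, fun w hw hw2 => ?_⟩
  rw [hep, hlb w hw hw2]
  rcases h1 a with h2 | h2 <;> rcases h1 b with h3 | h3
  · exact absurd (h2.trans h3.symm) hne
  · rw [h2, h3]
  · rw [h2, h3, neg_neg]
  · exact absurd (h2.trans h3.symm) hne

/-- the step representation -/
lemma repr {A B : ℝ} (hA : A ∈ LL χ) (F : Finset ℝ) (hF : ∀ t, t ∈ F ↔ t ∈ TT χ ∧ t ∈ Ioo A B) :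
    ∀ n : ℕ, ∀ x ∈ LL χ, A ≤ x → x ≤ B → (F.filter (· < x)).card = n →
      χ x = χ A + ∑ t ∈ F.filter (· < x), 2 * ep χ t := by
  -- `A` is not a boundary point
  have hAT : ∀ x ∈ LL χ, x ∉ TT χ := by
    intro x hx hxT
    obtain ⟨δ, hδ, _, hr, hl⟩ := one_sided hχ h1 hfin x hxT
    have hd1 : HasDerivWithinAt (uu χ) (ep χ x) (Ioi x) x := by
      have e : ∀ y ∈ Ioo x (x + δ), uu χ y = uu χ x + ep χ x * (y - x) := by
        intro y hy
        have h5 := uu_sub hχ h1 x y
        have h6 : ∫ t in x..y, χ t = ∫ t in x..y, ep χ x := by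
          refine intervalIntegral.integral_congr_ae ?_
          filter_upwards [ae_LL hχ h1] with z hz hz2
          rw [uIoc_of_le hy.1.le] at hz2
          exact hr z hz ⟨hz2.1, by linarith [hz2.2, hy.2]⟩
        rw [h6, intervalIntegral.integral_const, smul_eq_mul] at h5
        linarith
      have h7 : HasDerivAt (fun y => uu χ x + ep χ x * (y - x)) (ep χ x) x := by
        have := (((hasDerivAt_id x).sub_const x).const_mul (ep χ x)).const_add (uu χ x)
        simpa using this
      refine h7.hasDerivWithinAt.congr_of_eventuallyEq ?_ (by simp)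
      filter_upwards [Ioo_mem_nhdsGT (show x < x + δ by linarith)] with y hy using e y hy
    have hd2 : HasDerivWithinAt (uu χ) (-ep χ x) (Iio x) x := by
      have e : ∀ y ∈ Ioo (x - δ) x, uu χ y = uu χ x + (-ep χ x) * (y - x) := by
        intro y hy
        have h5 := uu_sub hχ h1 y x
        have h6 : ∫ t in y..x, χ t = ∫ t in y..x, -ep χ x := by
          refine intervalIntegral.integral_congr_ae ?_
          have h9 : ∀ᵐ z : ℝ, z ≠ x := by
            simp [ae_iff]
          filter_upwards [ae_LL hχ h1, h9] with z hz hzx hz2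
          rw [uIoc_of_le hy.2.le] at hz2
          exact hl z hz ⟨by linarith [hz2.1, hy.1], lt_of_le_of_ne hz2.2 hzx⟩
        rw [h6, intervalIntegral.integral_const, smul_eq_mul] at h5
        linarith
      have h7 : HasDerivAt (fun y => uu χ x + (-ep χ x) * (y - x)) (-ep χ x) x := by
        have := (((hasDerivAt_id x).sub_const x).const_mul (-ep χ x)).const_add (uu χ x)
        simpa using this
      refine h7.hasDerivWithinAt.congr_of_eventuallyEq ?_ (by simp)
      filter_upwards [Ioo_mem_nhdsLT (show x - δ < x by linarith)] with y hy using e y hy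
    have h8 : HasDerivAt (uu χ) (χ x) x := hx
    have e1 := (uniqueDiffWithinAt_Ioi x).eq_deriv _ h8.hasDerivWithinAt hd1
    have e2 := (uniqueDiffWithinAt_Iio x).eq_deriv _ h8.hasDerivWithinAt hd2
    have := ep_sq χ x
    rw [e1] at e2
    have h0 : ep χ x = 0 := by linarith
    rw [h0] at this
    norm_num at this
  intro n
  induction n using Nat.strong_induction_on with
  | _ n ih =>
    intro x hx hAx hxB hn
    rcases (F.filter (· < x)).eq_empty_or_nonempty with he | hne
    · rw [he, Finset.sum_empty, add_zero]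
      refine (const_of_free hχ h1 hA hx hAx fun t ht ht2 => ?_).symm
      have h3 : t ≠ A := fun h => hAT A hA (h ▸ ht)
      have h4 : t ≠ x := fun h => hAT x hx (h ▸ ht)
      have h5 : A < t := lt_of_le_of_ne ht2.1 (Ne.symm h3)
      have h6 : t < x := lt_of_le_of_ne ht2.2 h4
      have : t ∈ F.filter (· < x) := Finset.mem_filter.2 ⟨(hF t).2 ⟨ht, h5, by linarith⟩, h6⟩
      rw [he] at this
      exact absurd this (Finset.notMem_empty _)
    · set t := (F.filter (· < x)).max' hne with ht
      have htm : t ∈ F.filter (· < x) := Finset.max'_mem _ _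
      have htF := (Finset.mem_filter.1 htm).1
      have htx : t < x := (Finset.mem_filter.1 htm).2
      obtain ⟨htT, htA⟩ := (hF t).1 htF
      obtain ⟨δ, hδ, hiso, hr, hl⟩ := one_sided hχ h1 hfin t htT
      -- value at `x`
      have hxv : χ x = ep χ t := by
        obtain ⟨w, hw, hw2⟩ := exists_LL hχ h1 (show t < min (t + δ) x from
          lt_min (by linarith) htx)
        rw [← hr w hw ⟨hw2.1, hw2.2.trans_le (min_le_left _ _)⟩]
        refine (const_of_free hχ h1 hw hx (hw2.2.le.trans (min_le_right _ _))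
          fun s hs hs2 => ?_).symm
        have h4 : s ≠ x := fun h => hAT x hx (h ▸ hs)
        have h6 : s < x := lt_of_le_of_ne hs2.2 h4
        have h7 : t < s := by linarith [hw2.1, hs2.1]
        have : s ∈ F.filter (· < x) := Finset.mem_filter.2
          ⟨(hF s).2 ⟨hs, by linarith [htA.1], by linarith⟩, h6⟩
        have := Finset.le_max' _ _ this
        rw [← ht] at this
        linarith
      -- a point to the left
      obtain ⟨w, hw, hw2⟩ := exists_LL hχ h1 (show max (t - δ) A < t from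
          max_lt (by linarith) htA.1)
      have hwl : t - δ < w := (le_max_left _ _).trans_lt hw2.1
      have hwA : A < w := (le_max_right _ _).trans_lt hw2.1
      have hwv := hl w hw ⟨hwl, hw2.2⟩
      have hset : F.filter (· < x) = insert t (F.filter (· < w)) := by
        ext s
        rw [Finset.mem_insert, Finset.mem_filter, Finset.mem_filter]
        constructor
        · rintro ⟨hsF, hsx⟩
          by_cases hst : s = t
          · exact Or.inl hst
          · right
            refine ⟨hsF, ?_⟩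
            have h3 : s ≤ t := by
              rw [ht]; exact Finset.le_max' _ _ (Finset.mem_filter.2 ⟨hsF, hsx⟩)
            have h4 := hiso s ((hF s).1 hsF).1 hst
            have h5 : s < t := lt_of_le_of_ne h3 hst
            rw [abs_of_neg (by linarith)] at h4
            linarith
        · rintro (rfl | ⟨hsF, hsw⟩)
          · exact ⟨htF, htx⟩
          · exact ⟨hsF, by linarith [hw2.2]⟩
      have hnot : t ∉ F.filter (· < w) := fun h => by
        have := (Finset.mem_filter.1 h).2
        linarith [hw2.2]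
      have hcard : (F.filter (· < w)).card < n := by
        rw [← hn, hset, Finset.card_insert_of_notMem hnot]
        exact Nat.lt_succ_self _
      have h5 := ih _ hcard w hw hwA.le (by linarith [hw2.2]) rfl
      rw [hset, Finset.sum_insert hnot, hxv]
      linarith

end

end Q194.GC
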